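import Pool.Agent.Lib.MP_084b88_gt.SY.Spec
import Pool.Agent.Lib.MP_084b88_gt.CW.GLM

/-!
# MP_084b88_gt, project SY: module CQL (the weighted inequality for general support functions)
-/

set_option autoImplicit false

open MeasureTheory Set Real Filter Topology
open scoped Pointwise InnerProductSpace

namespace Pool.Agent.Lib.MP_084b88_gt.SY

open Pool.Agent.Lib.MP_084b88_gt.CW

namespace CQLM

theorem IG_mul (D : ℝ) (G h : ℝ → ℝ) (t : ℝ) : IG (fun x => D * G x) h t = D * IG G h t := by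
  unfold IG
  have h1 : ∀ τ : ℝ, (UB h t τ + UB h (t + π) (-τ)) * (D * G τ) =
      D * ((UB h t τ + UB h (t + π) (-τ)) * G τ) := fun τ => by ring
  simp only [h1]
  rw [integral_const_mul]
  ring

/-- The normalised function. -/
noncomputable def GG (k : ℕ) (x : ℝ) : ℝ := (x ^ (2 * k) - mu k) / (1 + |mu k|)

theorem GG_cont (k : ℕ) : Continuous (GG k) := by
  unfold GG
  fun_prop

theorem GG_bd (k : ℕ) : ∀ τ ∈ Ioo (-1 : ℝ) 1, |GG k τ| ≤ 1 := by
  intro τ hτ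
  have hp : 0 < 1 + |mu k| := by positivity
  unfold GG
  rw [abs_div, abs_of_pos hp, div_le_one hp]
  have h1 : |τ ^ (2 * k)| ≤ 1 := by
    rw [abs_pow]
    exact pow_le_one₀ (abs_nonneg _) (abs_le.2 ⟨hτ.1.le, hτ.2.le⟩)
  exact (abs_sub _ _).trans (by linarith)

theorem IG_GG (k : ℕ) (h : ℝ → ℝ) (t : ℝ) :
    IG (fun x => x ^ (2 * k) - mu k) h t = (1 + |mu k|) * IG (GG k) h t := by
  have hp : 0 < 1 + |mu k| := by positivity
  rw [← IG_mul]
  congr 1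
  funext x
  unfold GG
  field_simp

/-- Bounds for a positive continuous `π`-periodic function. -/
theorem bounds {h : ℝ → ℝ} (hc : Continuous h) (hper : ∀ θ, h (θ + π) = h θ)
    (hpos : ∀ θ, 0 < h θ) : ∃ m Mx : ℝ, 0 < m ∧ (∀ θ, m ≤ h θ) ∧ ∀ θ, h θ ≤ Mx := by
  have hP : Function.Periodic h π := hper
  have hne : (Icc (0 : ℝ) π).Nonempty := ⟨0, left_mem_Icc.2 Real.pi_pos.le⟩
  obtain ⟨x, -, hx⟩ := isCompact_Icc.exists_isMinOn hne hc.continuousOn
  obtain ⟨y, -, hy⟩ := isCompact_Icc.exists_isMaxOn hne hc.continuousOn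
  refine ⟨h x, h y, hpos x, fun θ => ?_, fun θ => ?_⟩
  · obtain ⟨z, hz, hz2⟩ := hP.exists_mem_Ico₀ Real.pi_pos θ
    rw [hz2]
    exact hx ⟨hz.1, hz.2.le⟩
  · obtain ⟨z, hz, hz2⟩ := hP.exists_mem_Ico₀ Real.pi_pos θ
    rw [hz2]
    exact hy ⟨hz.1, hz.2.le⟩

theorem QB_cont (A B C : ℝ) : Continuous (fun θ : ℝ => QB A B C θ θ) := by
  unfold QB
  fun_prop

theorem wt_meas {A B C c0 : ℝ} {h : ℝ → ℝ} (hm : Measurable h) : Measurable (wt A B C c0 h) := by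
  unfold wt
  exact (measurable_const.sub ((QB_cont A B C).measurable.div (hm.pow_const 2))).div
    (hm.pow_const 2)

theorem wt_bd {A B C c0 m : ℝ} {h : ℝ → ℝ} (hA : Adm A B C c0 h) (hm : 0 < m)
    (hmh : ∀ θ, m ≤ h θ) (θ : ℝ) : |wt A B C c0 h θ| ≤ c0 / m ^ 2 := by
  have h0 : 0 < h θ := hm.trans_le (hmh θ)
  have h2 : 0 < h θ ^ 2 := by positivity
  obtain ⟨q1, q2⟩ := hA.2 θ
  have hc0 := hA.1
  have r1 : 0 ≤ QB A B C θ θ / h θ ^ 2 := by positivity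
  have r2 : QB A B C θ θ / h θ ^ 2 ≤ 4 / 5 * c0 := by
    rw [div_le_iff₀ h2]
    exact q2
  have r3 : m ^ 2 ≤ h θ ^ 2 := pow_le_pow_left₀ hm.le (hmh θ) 2
  unfold wt
  rw [abs_of_nonneg (div_nonneg (by linarith) h2.le)]
  exact div_le_div₀ hc0.le (by linarith) (by positivity) r3

theorem ii_of_bd {f : ℝ → ℝ} {C a b : ℝ} (hm : Measurable f) (hb : ∀ t, |f t| ≤ C) :
    IntervalIntegrable f volume a b := by
  refine (intervalIntegrable_const (c := C)).mono_fun' hm.aestronglyMeasurable ?_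
  exact Eventually.of_forall fun t => hb t

end CQLM

open CQLM GLMM in
theorem specCQL (hCQM : SpecCQM) (hGAP : SpecGAP) (hGCV : SpecGCV) (hGAG : SpecGAG)
    (hHPB : SpecHPB) : SpecCQL := by
  intro h Λ hΛ hlip hper hpos hcl A B C c0 hadm k
  have hpi := Real.pi_pos
  have hhc : Continuous h := by
    have : LipschitzWith (Real.toNNReal Λ) h := LipschitzWith.of_dist_le_mul fun x y => by
      rw [Real.dist_eq, Real.dist_eq, Real.coe_toNNReal Λ hΛ]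
      exact hlip x y
    exact this.continuous
  obtain ⟨m, Mx, hm, hmh, hMh⟩ := bounds hhc hper hpos
  have hmM : m ≤ Mx := (hmh 0).trans (hMh 0)
  have hper2 : ∀ θ, h (θ + 2 * π) = h θ := by
    intro θ
    rw [show θ + 2 * π = θ + π + π by ring, hper, hper]
  have hgB : ∀ f : ℝ → ℝ, (∀ θ, f (θ + π) = f θ) → (∀ t, gh f t = 0) ∧ ∀ t, Bh f t = f t := by
    intro f hf
    refine ⟨fun t => ?_, fun t => ?_⟩
    · unfold gh
      rw [hf, sub_self, zero_div]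
    · unfold Bh
      rw [hf]
      ring
  obtain ⟨b, hbdef⟩ : ∃ b : ℝ, b = (Mx + m) / 2 := ⟨_, rfl⟩
  obtain ⟨δ, hδdef⟩ : ∃ δ : ℝ, δ = (Mx - m) / (Mx + m) := ⟨_, rfl⟩
  have hb : 0 < b := by rw [hbdef]; linarith
  have hδ : 0 ≤ δ := by
    rw [hδdef]
    exact div_nonneg (by linarith) (by linarith)
  have hδ1 : δ < 1 := by
    rw [hδdef, div_lt_one (by linarith)]
    linarith
  have hδb : δ * b = (Mx - m) / 2 := by
    have : Mx + m ≠ 0 := by linarith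
    rw [hδdef, hbdef]
    field_simp
  have hlowb : (1 - δ) * b = m := by
    have : (1 - δ) * b = b - δ * b := by ring
    rw [this, hδb, hbdef]
    ring
  have hBh : ∀ t, |Bh h t - b| ≤ δ * b := by
    intro t
    rw [(hgB h hper).2 t, hδb, hbdef, abs_le]
    constructor <;> linarith [hmh t, hMh t]
  have hgh : ∀ t, |gh h t| ≤ 0 * b := by
    intro t
    rw [(hgB h hper).1 t]
    simp
  -- approximation
  have happ : ∀ n : ℕ, ∃ (M : ℕ) (c : ℕ → ℂ), RP M c ∧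
      (∀ θ, |hp M c θ - h θ| ≤ 1 / ((n : ℝ) + 1)) ∧
      (∀ θ, |hp M (dk c) θ| ≤ Λ) ∧ (∀ t, |Bh (hp M c) t - b| ≤ δ * b) ∧
      (∀ t, |gh (hp M c) t| ≤ 0 * b) := by
    intro n
    exact hGAP h Λ b δ 0 hΛ hb hδ hδ1 le_rfl hlip hper2 hcl hBh hgh (1 / ((n : ℝ) + 1))
      (by positivity)
  choose M c hRP hM1 hM2 hM3 hM4 using happ
  have hpn : ∀ n θ, hp (M n) (c n) (θ + π) = hp (M n) (c n) θ := by
    intro n θ
    have h1 := hM4 n θ
    rw [zero_mul] at h1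
    have h2 : gh (hp (M n) (c n)) θ = 0 := abs_eq_zero.1 (le_antisymm h1 (abs_nonneg _))
    unfold gh at h2
    linarith
  have hBn : ∀ n θ, Bh (hp (M n) (c n)) θ = hp (M n) (c n) θ := fun n =>
    (hgB _ (hpn n)).2
  have hlow : ∀ n θ, m ≤ hp (M n) (c n) θ := by
    intro n θ
    have h1 := (abs_le.1 (hM3 n θ)).1
    rw [hBn n θ] at h1
    have : m = b - δ * b := by rw [← hlowb]; ring
    linarith
  have hup : ∀ n θ, hp (M n) (c n) θ ≤ Mx := by
    intro n θ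
    have h1 := (abs_le.1 (hM3 n θ)).2
    rw [hBn n θ, hδb, hbdef] at h1
    linarith
  have hlipn : ∀ n θ θ', |hp (M n) (c n) θ - hp (M n) (c n) θ'| ≤ Λ * |θ - θ'| := by
    intro n θ θ'
    have hd := (hHPB (M n) (c n)).1
    have := Convex.norm_image_sub_le_of_norm_hasDerivWithin_le (s := Set.univ)
      (f := hp (M n) (c n)) (f' := fun t => hp (M n) (dk (c n)) t) (C := Λ)
      (fun x _ => (hd x).hasDerivWithinAt) (fun x _ => hM2 n x) convex_univ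
      (Set.mem_univ θ') (Set.mem_univ θ)
    simpa [Real.norm_eq_abs] using this
  obtain ⟨Λ', hΛ'def⟩ : ∃ Λ' : ℝ, Λ' = Λ + Mx := ⟨_, rfl⟩
  have hMx0 : 0 < Mx := hm.trans_le hmM
  have hΛ'0 : 0 ≤ Λ' := by rw [hΛ'def]; linarith
  have hΛΛ' : Λ ≤ Λ' := by rw [hΛ'def]; linarith
  have hMΛ' : Mx ≤ Λ' := by rw [hΛ'def]; linarith
  have hC0 : ∀ θ, |h θ| ≤ Λ' := fun θ => by
    rw [abs_of_pos (hpos θ)]
    exact (hMh θ).trans hMΛ'
  have hCn0 : ∀ n θ, |hp (M n) (c n) θ| ≤ Mx := fun n θ => by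
    rw [abs_of_pos (hm.trans_le (hlow n θ))]
    exact hup n θ
  have hCn : ∀ n θ, |hp (M n) (c n) θ| ≤ Λ' := fun n θ => (hCn0 n θ).trans hMΛ'
  have hL0 : ∀ θ θ', |h θ - h θ'| ≤ Λ' * |θ - θ'| := fun θ θ' =>
    (hlip θ θ').trans (mul_le_mul_of_nonneg_right hΛΛ' (abs_nonneg _))
  have hLn : ∀ n θ θ', |hp (M n) (c n) θ - hp (M n) (c n) θ'| ≤ Λ' * |θ - θ'| := fun n θ θ' =>
    (hlipn n θ θ').trans (mul_le_mul_of_nonneg_right hΛΛ' (abs_nonneg _))
  have hpern : ∀ n θ, hp (M n) (c n) (θ + 2 * π) = hp (M n) (c n) θ := fun n θ =>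
    (hHPB (M n) (c n)).2.1 θ
  have hBl : ∀ θ, m ≤ Bh h θ := fun θ => by
    rw [(hgB h hper).2 θ]
    exact hmh θ
  have hBln : ∀ n θ, m ≤ Bh (hp (M n) (c n)) θ := fun n θ => by
    rw [hBn n θ]
    exact hlow n θ
  -- convergence
  have he : Tendsto (fun n : ℕ => 1 / ((n : ℝ) + 1)) atTop (𝓝 0) :=
    tendsto_one_div_add_atTop_nhds_zero_nat
  have hconv : ∀ θ, ∀ τ ∈ Ioo (-1 : ℝ) 1,
      Tendsto (fun n => UB (hp (M n) (c n)) θ τ) atTop (𝓝 (UB h θ τ)) :=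
    (hGCV h Λ' m hΛ'0 hm hper2 hL0 hC0 hBl).2.2
      (fun n => hp (M n) (c n)) (fun n => 1 / ((n : ℝ) + 1)) hpern hLn hCn
      hBln hM1 he
  have hmeas : ∀ n, Measurable (fun x : ℝ × ℝ => (Ioo (-1 : ℝ) 1).indicator
      (fun τ => UB (hp (M n) (c n)) x.1 τ) x.2) := fun n =>
    (hGCV (hp (M n) (c n)) Λ' m hΛ'0 hm (hpern n) (hLn n) (hCn n) (hBln n)).2.1
  have hmeash : Measurable (fun x : ℝ × ℝ => (Ioo (-1 : ℝ) 1).indicator
      (fun τ => UB h x.1 τ) x.2) :=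
    (hGCV h Λ' m hΛ'0 hm hper2 hL0 hC0 hBl).2.1
  have hUbd : ∀ n θ, ∀ τ ∈ Ioo (-1 : ℝ) 1, |UB (hp (M n) (c n)) θ τ| ≤ Λ' := by
    intro n θ τ hτ
    refine ((hGAG (M n) (c n) (hRP n) θ).2.2.2.2.2 τ hτ).trans ?_
    have h1 : (⨆ t, |hp (M n) (c n) t|) ≤ Mx := ciSup_le fun t => hCn0 n t
    have h2 : (⨆ t, |hp (M n) (dk (c n)) t|) ≤ Λ := ciSup_le fun t => hM2 n t
    rw [hΛ'def]
    linarith
  have hpt : ∀ θ, Tendsto (fun n => hp (M n) (c n) θ) atTop (𝓝 (h θ)) := by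
    intro θ
    rw [tendsto_iff_dist_tendsto_zero]
    refine squeeze_zero (fun n => dist_nonneg) (fun n => ?_) he
    rw [Real.dist_eq]
    exact hM1 n θ
  have hBpt : ∀ θ, Tendsto (fun n => Bh (hp (M n) (c n)) θ) atTop (𝓝 (Bh h θ)) := by
    intro θ
    unfold Bh
    exact ((hpt θ).add (hpt (θ + π))).div_const 2
  have hcn : ∀ n, Measurable (hp (M n) (c n)) := fun n => (hHPB (M n) (c n)).2.2.1.measurable
  have hBm : ∀ n, Measurable (Bh (hp (M n) (c n))) := by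
    intro n
    unfold Bh
    exact ((hcn n).add ((hcn n).comp (measurable_id.add_const π))).div_const 2
  have hBmh : Measurable (Bh h) := by
    unfold Bh
    exact ((hhc.measurable).add ((hhc.measurable).comp (measurable_id.add_const π))).div_const 2
  have hBup : ∀ n t, |Bh (hp (M n) (c n)) t| ≤ Λ' := fun n t => by
    rw [hBn n t]
    exact hCn n t
  -- the integrals `IG`
  have hIGl : ∀ t, Tendsto (fun n => IG (GG k) (hp (M n) (c n)) t) atTop (𝓝 (IG (GG k) h t)) :=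
    IG_lim (GG_cont k).measurable (GG_bd k) hmeas hUbd hBpt hconv
  have hIGb : ∀ n t, |IG (GG k) (hp (M n) (c n)) t| ≤ Λ' * (2 * Λ' * 2) := fun n t =>
    IG_bd (GG_bd k) (hUbd n) (hBup n) t
  have hIGbh : ∀ t, |IG (GG k) h t| ≤ Λ' * (2 * Λ' * 2) := fun t =>
    le_of_tendsto' ((hIGl t).abs) fun n => hIGb n t
  have hIGm : ∀ n, Measurable (IG (GG k) (hp (M n) (c n))) := fun n =>
    IG_meas (GG_cont k).measurable (hBm n) (hmeas n)
  have hIGmh : Measurable (IG (GG k) h) := IG_meas (GG_cont k).measurable hBmh hmeash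
  -- the weights
  have hcnl : Tendsto (fun n : ℕ => c0 * (1 + 1 / ((n : ℝ) + 1) / m) ^ 2) atTop (𝓝 c0) := by
    have h1 := (((he.div_const m).const_add 1).pow 2).const_mul c0
    rw [zero_div, add_zero, one_pow, mul_one] at h1
    exact h1
  have hadmn : ∀ n : ℕ, Adm A B C (c0 * (1 + 1 / ((n : ℝ) + 1) / m) ^ 2)
      (hp (M n) (c n)) := by
    intro n
    have hn : (0 : ℝ) < 1 / ((n : ℝ) + 1) := by positivity
    refine ⟨mul_pos hadm.1 (by positivity), fun θ => ⟨(hadm.2 θ).1, ?_⟩⟩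
    refine (hadm.2 θ).2.trans ?_
    have h1 : h θ ≤ (1 + 1 / ((n : ℝ) + 1) / m) * hp (M n) (c n) θ := by
      have h2 := (abs_le.1 (hM1 n θ)).1
      have h3 : 1 / ((n : ℝ) + 1) ≤ 1 / ((n : ℝ) + 1) / m * hp (M n) (c n) θ := by
        rw [div_mul_eq_mul_div, le_div_iff₀ hm]
        exact mul_le_mul_of_nonneg_left (hlow n θ) hn.le
      linarith
    have h4 : h θ ^ 2 ≤ ((1 + 1 / ((n : ℝ) + 1) / m) * hp (M n) (c n) θ) ^ 2 :=
      pow_le_pow_left₀ (hpos θ).le h1 2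
    have h5 := mul_le_mul_of_nonneg_left h4 (by linarith [hadm.1] : 0 ≤ 4 / 5 * c0)
    refine h5.trans (le_of_eq ?_)
    ring
  have hcb : ∀ n : ℕ, c0 * (1 + 1 / ((n : ℝ) + 1) / m) ^ 2 ≤ c0 * (1 + 1 / m) ^ 2 := by
    intro n
    refine mul_le_mul_of_nonneg_left (pow_le_pow_left₀ (by positivity) ?_ 2) hadm.1.le
    have h1 : 1 / ((n : ℝ) + 1) ≤ 1 := by
      rw [div_le_one (by positivity)]
      have : (0 : ℝ) ≤ n := Nat.cast_nonneg n
      linarith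
    have h2 := div_le_div_of_nonneg_right h1 hm.le
    linarith
  have hwb : ∀ n : ℕ, ∀ t, |wt A B C (c0 * (1 + 1 / ((n : ℝ) + 1) / m) ^ 2)
      (hp (M n) (c n)) t| ≤ c0 * (1 + 1 / m) ^ 2 / m ^ 2 := fun n t =>
    (wt_bd (hadmn n) hm (hlow n) t).trans (div_le_div_of_nonneg_right (hcb n) (by positivity))
  have hwl : ∀ t, Tendsto (fun n : ℕ => wt A B C (c0 * (1 + 1 / ((n : ℝ) + 1) / m) ^ 2)
      (hp (M n) (c n)) t) atTop (𝓝 (wt A B C c0 h t)) := by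
    intro t
    unfold wt
    have h0 : h t ^ 2 ≠ 0 := pow_ne_zero 2 (hpos t).ne'
    exact (hcnl.sub (tendsto_const_nhds.div ((hpt t).pow 2) h0)).div ((hpt t).pow 2) h0
  have hwbh : ∀ t, |wt A B C c0 h t| ≤ c0 / m ^ 2 := fun t => wt_bd hadm hm hmh t
  simp only [IG_GG]
  refine ⟨?_, ?_⟩
  · refine ii_of_bd (C := c0 / m ^ 2 * ((1 + |mu k|) * (Λ' * (2 * Λ' * 2))))
      ((wt_meas hhc.measurable).mul (hIGmh.const_mul _)) fun t => ?_
    rw [abs_mul, abs_mul, abs_of_nonneg (by positivity : (0 : ℝ) ≤ 1 + |mu k|)]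
    have hc0 := hadm.1
    exact mul_le_mul (hwbh t) (mul_le_mul_of_nonneg_left (hIGbh t) (by positivity))
      (by positivity) (by positivity)
  · have hl : Tendsto (fun n : ℕ => ∫ t in (0 : ℝ)..(2 * π),
        wt A B C (c0 * (1 + 1 / ((n : ℝ) + 1) / m) ^ 2) (hp (M n) (c n)) t *
          ((1 + |mu k|) * IG (GG k) (hp (M n) (c n)) t)) atTop
        (𝓝 (∫ t in (0 : ℝ)..(2 * π), wt A B C c0 h t * ((1 + |mu k|) * IG (GG k) h t))) := by
      refine bct (C := c0 * (1 + 1 / m) ^ 2 / m ^ 2 * ((1 + |mu k|) * (Λ' * (2 * Λ' * 2))))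
        (fun n => (wt_meas (hcn n)).mul ((hIGm n).const_mul _)) (fun n t => ?_)
        fun t => (hwl t).mul ((hIGl t).const_mul _)
      rw [abs_mul, abs_mul, abs_of_nonneg (by positivity : (0 : ℝ) ≤ 1 + |mu k|)]
      have hc0 := hadm.1
      exact mul_le_mul (hwb n t) (mul_le_mul_of_nonneg_left (hIGb n t) (by positivity))
        (by positivity) (by positivity)
    refine le_of_tendsto' hl fun n => ?_
    have h1 := hCQM (M n) (c n) (hRP n) (hpn n) A B C _ (hadmn n) k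
    simp only [IG_GG] at h1
    exact h1

end Pool.Agent.Lib.MP_084b88_gt.SY
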