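import Pool.Agent.Lib.MP_084b88_gt.SY.Spec

/-!
# MP_084b88_gt, project SY: module SQF (the weighted planar inequality for sets)
-/

set_option autoImplicit false

open MeasureTheory Set Real Filter Topology
open scoped Pointwise InnerProductSpace

namespace Pool.Agent.Lib.MP_084b88_gt.SY

open Pool.Agent.Lib.MP_084b88_gt.CW

namespace SQFM

theorem dotu_pi (θ : ℝ) (a : ℝ × ℝ) : dotu (θ + π) a = dotu θ (-a) := by
  unfold dotu
  rw [cos_add_pi, sin_add_pi]
  simp

theorem dotu_two (φ α : ℝ) (p : ℝ × ℝ) :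
    dotu (φ + α) p + dotu (φ - α) p = 2 * cos α * dotu φ p := by
  unfold dotu
  rw [cos_add, cos_sub, sin_add, sin_sub]
  ring

theorem cont_dotu (θ : ℝ) : Continuous (dotu θ) := by
  unfold dotu
  fun_prop

/-- Support function of a centrally symmetric set. -/
theorem sup_sym (hWB2 : SpecWB2) {Q : Set (ℝ × ℝ)} (hQ : CC Q) (hs : ∀ p ∈ Q, -p ∈ Q) (θ : ℝ) :
    sup2 Q (θ + π) = sup2 Q θ := by
  obtain ⟨w1, w2, -⟩ := hWB2
  apply le_antisymm
  · obtain ⟨p, hp, hpe⟩ := w2 Q hQ (θ + π)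
    rw [← hpe, dotu_pi]
    exact w1 Q hQ θ (-p) (hs p hp)
  · obtain ⟨p, hp, hpe⟩ := w2 Q hQ θ
    have h := w1 Q hQ (θ + π) (-p) (hs p hp)
    rw [dotu_pi, neg_neg, hpe] at h
    exact h

theorem sup_class (hWB2 : SpecWB2) {Q : Set (ℝ × ℝ)} (hQ : CC Q) (φ α : ℝ) :
    2 * cos α * sup2 Q φ ≤ sup2 Q (φ + α) + sup2 Q (φ - α) := by
  obtain ⟨w1, w2, -⟩ := hWB2
  obtain ⟨p, hp, hpe⟩ := w2 Q hQ φ
  rw [← hpe, ← dotu_two]
  exact add_le_add (w1 Q hQ _ p hp) (w1 Q hQ _ p hp)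

/-- The pointwise inequality for the functions of one variable. -/
theorem ptw {ε : ℝ} {N : ℕ} {c : ℕ → ℝ}
    (h1 : ∀ y ∈ Icc (0 : ℝ) 1, |(1 - √(1 - y)) - ∑ k ∈ Finset.range N, c k * y ^ (k + 1)| ≤ ε)
    (h2 : |(∑ k ∈ Finset.range N, c k * mu (k + 1)) - (1 - kap)| ≤ ε) (x : ℝ) (hx : |x| ≤ 1) :
    0 ≤ (√(1 - x ^ 2) - kap) + (∑ k ∈ Finset.range N, c k * (x ^ (2 * (k + 1)) - mu (k + 1))) +
      2 * ε := by
  have hy : x ^ 2 ∈ Icc (0 : ℝ) 1 := ⟨sq_nonneg x, (sq_le_one_iff_abs_le_one x).2 hx⟩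
  have h3 := (abs_le.1 (h1 _ hy)).2
  have h4 := (abs_le.1 h2).2
  have e : ∑ k ∈ Finset.range N, c k * (x ^ (2 * (k + 1)) - mu (k + 1)) =
      (∑ k ∈ Finset.range N, c k * (x ^ 2) ^ (k + 1)) -
        ∑ k ∈ Finset.range N, c k * mu (k + 1) := by
    rw [← Finset.sum_sub_distrib]
    refine Finset.sum_congr rfl fun k _ => ?_
    rw [pow_mul]
    ring
  rw [e]
  linarith

theorem wt_nonneg {A B C c0 : ℝ} {h : ℝ → ℝ} (hpos : ∀ θ, 0 < h θ) (hA : Adm A B C c0 h) (t : ℝ) :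
    0 ≤ wt A B C c0 h t := by
  obtain ⟨h0, hA⟩ := hA
  have h1 := (hA t).2
  have hp : 0 < h t ^ 2 := by have := hpos t; positivity
  unfold wt
  apply div_nonneg _ hp.le
  have : QB A B C t t / h t ^ 2 ≤ 4 / 5 * c0 := by
    rw [div_le_iff₀ hp]
    exact h1
  linarith

theorem wt_cont {A B C c0 : ℝ} {h : ℝ → ℝ} (hpos : ∀ θ, 0 < h θ) (hc : Continuous h) :
    Continuous (fun t => wt A B C c0 h t) := by
  have hp : ∀ t, h t ^ 2 ≠ 0 := fun t => by have := hpos t; positivity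
  unfold wt QB
  exact (continuous_const.sub (Continuous.div (by fun_prop) (hc.pow 2) hp)).div (hc.pow 2) hp

end SQFM

open SQFM in
/-- **SQF**. -/
theorem specSQF (hCQL : SpecCQL) (hSEM : SpecSEM) (hGDU : SpecGDU) (hWB2 : SpecWB2) : SpecSQF := by
  intro Q hQ hsym hwid A B C c0 hAdm
  have hWB := hWB2
  obtain ⟨w1, w2, w3, w4, -, -, -, w8, -, w10, -⟩ := hWB
  have hper : ∀ θ, sup2 Q (θ + π) = sup2 Q θ := sup_sym hWB2 hQ hsym
  have hw : ∀ θ, wid Q θ / 2 = sup2 Q θ := by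
    intro θ
    unfold wid
    rw [hper θ]
    ring
  have hm : ∀ θ, mid Q θ = 0 := by
    intro θ
    unfold mid
    rw [hper θ]
    ring
  have hwf : (fun θ => wid Q θ / 2) = sup2 Q := funext hw
  rw [hwf] at hAdm ⊢
  have hpos : ∀ θ, 0 < sup2 Q θ := fun θ => by rw [← hw θ]; have := hwid θ; positivity
  obtain ⟨Λ, hΛ0, -, hΛ⟩ := w3 Q hQ
  have hcont : Continuous (sup2 Q) := (w10 Q hQ).1
  have hC := hCQL (sup2 Q) Λ hΛ0 hΛ hper hpos (sup_class hWB2 hQ) A B C c0 hAdm
  have hwt0 : ∀ t, 0 ≤ wt A B C c0 (sup2 Q) t := fun t => wt_nonneg hpos hAdm t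
  have hwtc : Continuous (fun t => wt A B C c0 (sup2 Q) t) := wt_cont hpos hcont
  have hQm : MeasurableSet Q := hQ.2.1.isClosed.measurableSet
  have hQfin : volume Q ≠ ⊤ := hQ.2.1.measure_lt_top.ne
  -- the pointwise bound
  have key : ∀ ε : ℝ, 0 < ε → ∃ (N : ℕ) (c : ℕ → ℝ), (∀ k, 0 ≤ c k) ∧ ∀ t,
      -(∑ k ∈ Finset.range N, c k * IG (fun x => x ^ (2 * (k + 1)) - mu (k + 1)) (sup2 Q) t) -
        2 * ε * area Q ≤ qf Q t - kap * area Q := by
    intro ε hε
    obtain ⟨N, c, hc0, h1, h2⟩ := hSEM ε hε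
    refine ⟨N, c, hc0, fun t => ?_⟩
    have hwt : 0 < wid Q t / 2 := by have := hwid t; positivity
    -- the relative position
    have hS : Continuous (fun p : ℝ × ℝ => (dotu t p - mid Q t) / (wid Q t / 2)) := by
      have := cont_dotu t
      fun_prop
    have hS1 : ∀ p ∈ Q, |(dotu t p - mid Q t) / (wid Q t / 2)| ≤ 1 := by
      intro p hp
      rw [abs_div, abs_of_pos hwt, div_le_one hwt, hw, hm, sub_zero, abs_le]
      refine ⟨?_, w1 Q hQ t p hp⟩
      have h3 := w1 Q hQ t (-p) (hsym p hp)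
      have h4 : dotu t (-p) = -dotu t p := by
        unfold dotu
        simp only [Prod.fst_neg, Prod.snd_neg]
        ring
      rw [h4] at h3
      linarith
    have hG : ∀ k, IG (fun x => x ^ (2 * (k + 1)) - mu (k + 1)) (sup2 Q) t =
        ∫ p in Q, (((dotu t p - mid Q t) / (wid Q t / 2)) ^ (2 * (k + 1)) - mu (k + 1)) := by
      intro k
      rw [← hGDU Q hQ hwid (fun x => x ^ (2 * (k + 1)) - mu (k + 1)) (by fun_prop) t]
    have hi0 : IntegrableOn (fun p : ℝ × ℝ =>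
        √(1 - ((dotu t p - mid Q t) / (wid Q t / 2)) ^ 2)) Q volume :=
      (Continuous.continuousOn (by fun_prop)).integrableOn_compact hQ.2.1
    have hik : ∀ k, IntegrableOn (fun p : ℝ × ℝ =>
        (((dotu t p - mid Q t) / (wid Q t / 2)) ^ (2 * (k + 1)) - mu (k + 1))) Q volume := fun k =>
      (Continuous.continuousOn (by fun_prop)).integrableOn_compact hQ.2.1
    have hic : ∀ a : ℝ, IntegrableOn (fun _ : ℝ × ℝ => a) Q volume := fun a =>
      integrableOn_const hQfin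
    have hconst : ∀ a : ℝ, ∫ _ in Q, a = a * area Q := by
      intro a
      rw [setIntegral_const]
      unfold area Measure.real
      rw [smul_eq_mul, mul_comm]
    have hsum : IntegrableOn (fun p : ℝ × ℝ => ∑ k ∈ Finset.range N,
        c k * (((dotu t p - mid Q t) / (wid Q t / 2)) ^ (2 * (k + 1)) - mu (k + 1))) Q volume :=
      integrable_finset_sum _ fun k _ => (hik k).const_mul (c k)
    have hnn : 0 ≤ ∫ p in Q, ((√(1 - ((dotu t p - mid Q t) / (wid Q t / 2)) ^ 2) - kap) +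
        (∑ k ∈ Finset.range N,
          c k * (((dotu t p - mid Q t) / (wid Q t / 2)) ^ (2 * (k + 1)) - mu (k + 1))) +
        2 * ε) :=
      setIntegral_nonneg hQm fun p hp => ptw h1 h2 _ (hS1 p hp)
    have hi1 : IntegrableOn (fun p : ℝ × ℝ =>
        √(1 - ((dotu t p - mid Q t) / (wid Q t / 2)) ^ 2) - kap) Q volume := hi0.sub (hic kap)
    have hi2 : IntegrableOn (fun p : ℝ × ℝ =>
        (√(1 - ((dotu t p - mid Q t) / (wid Q t / 2)) ^ 2) - kap) +
        ∑ k ∈ Finset.range N,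
          c k * (((dotu t p - mid Q t) / (wid Q t / 2)) ^ (2 * (k + 1)) - mu (k + 1))) Q volume :=
      hi1.add hsum
    rw [integral_add hi2 (hic (2 * ε)), integral_add hi1 hsum, integral_sub hi0 (hic kap), hconst,
      hconst, integral_finset_sum _ (fun k _ => (hik k).const_mul (c k))] at hnn
    have e : ∑ k ∈ Finset.range N, (∫ p in Q,
        c k * (((dotu t p - mid Q t) / (wid Q t / 2)) ^ (2 * (k + 1)) - mu (k + 1))) =
        ∑ k ∈ Finset.range N, c k * IG (fun x => x ^ (2 * (k + 1)) - mu (k + 1)) (sup2 Q) t := by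
      refine Finset.sum_congr rfl fun k _ => ?_
      rw [integral_const_mul, hG k]
    rw [e] at hnn
    have hq : qf Q t = ∫ p in Q, √(1 - ((dotu t p - mid Q t) / (wid Q t / 2)) ^ 2) := rfl
    rw [hq]
    linarith
  -- conclusion
  by_cases hint : IntervalIntegrable (fun t => wt A B C c0 (sup2 Q) t * (qf Q t - kap * area Q))
      volume 0 (2 * π)
  swap
  · rw [intervalIntegral.integral_undef hint]
  have h2π : (0 : ℝ) ≤ 2 * π := by positivity
  obtain ⟨W, hW⟩ : ∃ W : ℝ, W = ∫ t in (0 : ℝ)..(2 * π), wt A B C c0 (sup2 Q) t := ⟨_, rfl⟩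
  have hW0 : 0 ≤ W := by
    rw [hW]
    exact intervalIntegral.integral_nonneg h2π fun t _ => hwt0 t
  have ha0 : 0 ≤ area Q := ENNReal.toReal_nonneg
  have hlow : ∀ ε : ℝ, 0 < ε → -(2 * ε * area Q * W) ≤
      ∫ t in (0 : ℝ)..(2 * π), wt A B C c0 (sup2 Q) t * (qf Q t - kap * area Q) := by
    intro ε hε
    obtain ⟨N, c, hc0, hpt⟩ := key ε hε
    have hI : ∀ k ∈ Finset.range N, IntervalIntegrable (fun t => c k * (wt A B C c0 (sup2 Q) t *
        IG (fun x => x ^ (2 * (k + 1)) - mu (k + 1)) (sup2 Q) t)) volume 0 (2 * π) :=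
      fun k _ => (hC (k + 1)).1.const_mul (c k)
    have hIs : IntervalIntegrable (fun t => ∑ k ∈ Finset.range N, c k * (wt A B C c0 (sup2 Q) t *
        IG (fun x => x ^ (2 * (k + 1)) - mu (k + 1)) (sup2 Q) t)) volume 0 (2 * π) := by
      have h := IntervalIntegrable.sum (Finset.range N) hI
      refine h.congr fun t _ => ?_
      rw [Finset.sum_apply]
    have hIw : IntervalIntegrable (fun t => 2 * ε * area Q * wt A B C c0 (sup2 Q) t)
        volume 0 (2 * π) := ((hwtc.const_mul (2 * ε * area Q)).intervalIntegrable _ _)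
    have hmono : ∫ t in (0 : ℝ)..(2 * π), (-(∑ k ∈ Finset.range N, c k * (wt A B C c0 (sup2 Q) t *
        IG (fun x => x ^ (2 * (k + 1)) - mu (k + 1)) (sup2 Q) t)) -
        2 * ε * area Q * wt A B C c0 (sup2 Q) t) ≤
        ∫ t in (0 : ℝ)..(2 * π), wt A B C c0 (sup2 Q) t * (qf Q t - kap * area Q) := by
      refine intervalIntegral.integral_mono h2π (hIs.neg.sub hIw) hint fun t => ?_
      have h := mul_le_mul_of_nonneg_left (hpt t) (hwt0 t)
      have e : wt A B C c0 (sup2 Q) t * (-(∑ k ∈ Finset.range N,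
          c k * IG (fun x => x ^ (2 * (k + 1)) - mu (k + 1)) (sup2 Q) t) - 2 * ε * area Q) =
          -(∑ k ∈ Finset.range N, c k * (wt A B C c0 (sup2 Q) t *
            IG (fun x => x ^ (2 * (k + 1)) - mu (k + 1)) (sup2 Q) t)) -
          2 * ε * area Q * wt A B C c0 (sup2 Q) t := by
        have e0 : ∑ k ∈ Finset.range N, c k * (wt A B C c0 (sup2 Q) t *
            IG (fun x => x ^ (2 * (k + 1)) - mu (k + 1)) (sup2 Q) t) =
            wt A B C c0 (sup2 Q) t * ∑ k ∈ Finset.range N,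
              c k * IG (fun x => x ^ (2 * (k + 1)) - mu (k + 1)) (sup2 Q) t := by
          rw [Finset.mul_sum]
          refine Finset.sum_congr rfl fun k _ => ?_
          ring
        rw [e0]
        ring
      rw [e] at h
      exact h
    have hIn : IntervalIntegrable (fun t => -(∑ k ∈ Finset.range N, c k *
        (wt A B C c0 (sup2 Q) t *
        IG (fun x => x ^ (2 * (k + 1)) - mu (k + 1)) (sup2 Q) t))) volume 0 (2 * π) := hIs.neg
    rw [intervalIntegral.integral_sub hIn hIw, intervalIntegral.integral_neg,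
      intervalIntegral.integral_finset_sum hI, intervalIntegral.integral_const_mul, ← hW] at hmono
    have hs : ∑ k ∈ Finset.range N, ∫ t in (0 : ℝ)..(2 * π), c k * (wt A B C c0 (sup2 Q) t *
        IG (fun x => x ^ (2 * (k + 1)) - mu (k + 1)) (sup2 Q) t) ≤ 0 := by
      refine Finset.sum_nonpos fun k _ => ?_
      rw [intervalIntegral.integral_const_mul]
      exact mul_nonpos_of_nonneg_of_nonpos (hc0 k) (hC (k + 1)).2
    linarith
  by_contra hneg
  rw [not_le] at hneg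
  obtain ⟨I, hI⟩ : ∃ I : ℝ, I = ∫ t in (0 : ℝ)..(2 * π), wt A B C c0 (sup2 Q) t *
    (qf Q t - kap * area Q) := ⟨_, rfl⟩
  rw [← hI] at hneg
  have hK : 0 ≤ 2 * area Q * W := by positivity
  have h := hlow (-I / (2 * (2 * area Q * W + 1))) (by
    apply div_pos <;> linarith)
  rw [← hI] at h
  have hD : 0 < 2 * (2 * area Q * W + 1) := by linarith
  have e : 2 * (-I / (2 * (2 * area Q * W + 1))) * area Q * W =
      (-I) * (2 * area Q * W / (2 * (2 * area Q * W + 1))) := by ring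
  rw [e] at h
  have h5 : 2 * area Q * W / (2 * (2 * area Q * W + 1)) ≤ 1 / 2 := by
    rw [div_le_iff₀ hD]
    linarith
  have h6 : (-I) * (2 * area Q * W / (2 * (2 * area Q * W + 1))) ≤ (-I) * (1 / 2) :=
    mul_le_mul_of_nonneg_left h5 (by linarith)
  linarith

end Pool.Agent.Lib.MP_084b88_gt.SY
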