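import Pool.Agent.Lib.MP_084b88_gt.SY.Spec
import Pool.Agent.Lib.MP_084b88_gt.CW.RE2
import Pool.Agent.Lib.MP_084b88_gt.CW.PNP

/-!
# MP_084b88_gt, project SY: Q1 for centrally symmetric bodies which are not too flat
-/

set_option autoImplicit false

open MeasureTheory Set Real Filter Topology
open scoped Pointwise InnerProductSpace

namespace Pool.Agent.Lib.MP_084b88_gt.SY

open Pool.Agent.Lib.MP_084b88_gt.CW

/-- **SYF**. Q1 for every centrally symmetric body with minimal width `≥ 0.4565 ·` mean width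
(`V1/2` is the mean width). -/
def SpecSYF : Prop :=
  ∀ K : Set E3, CC K → (interior K).Nonempty → (∃ o : E3, ∀ x ∈ K, (2 : ℝ) • o - x ∈ K) →
    ∀ V1 V2 : ℝ, STEI K V1 V2 →
    (∀ u : E3, ‖u‖ = 1 → 4565 / 10000 * (V1 / 2) ≤ HS K u + HS K (-u)) →
    ∀ c : ℝ, HSEC K c → 4 * c * V2 ^ 2 ≤ 3 * Real.pi * V1 * (volume K).toReal

namespace SYFM

theorem V1_pos (hHAA : SpecHAA) (hMEA : SpecMEA) (hLEN : SpecLEN) (hCAU : SpecCAU)
    (K : Set E3) (hK : CC K) (hKi : (interior K).Nonempty) (V1 V2 : ℝ) (hst : STEI K V1 V2) :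
    0 < V1 := by
  obtain ⟨μ, hμ⟩ := hHAA
  have : IsProbabilityMeasure μ := hμ.1
  obtain ⟨-, -, -, -, hwc, ⟨w0, hw0, hbw⟩, -, -, -⟩ := hMEA K hK hKi
  obtain ⟨-, hV1⟩ := hCAU μ hμ K hK hKi V1 V2 hst
  have hlen := hLEN μ hμ K hK hKi
  have hpi := pi_pos
  have hWi : Integrable (fun R : O3 => wid (pr R K) 0) μ := RE2M.cont_int_O3 μ hμ hwc
  have h1 : ∫ _R : O3, w0 ∂μ ≤ ∫ R, wid (pr R K) 0 ∂μ :=
    integral_mono (integrable_const _) hWi (fun R => hbw R)
  have h2 : w0 ≤ ∫ R, wid (pr R K) 0 ∂μ := by simpa using h1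
  rw [hlen] at hV1
  have h3 : 0 < π * V1 := by
    rw [hV1]
    have : 0 < ∫ R, wid (pr R K) 0 ∂μ := lt_of_lt_of_le hw0 h2
    positivity
  exact pos_of_mul_pos_right h3 hpi.le

theorem qf_TR {P : Set (ℝ × ℝ)} (hP : CC P) (a : ℝ × ℝ)
    (hs : ∀ θ, sup2 (PNPM.TR P a) θ = sup2 P θ - dotu θ a) (t : ℝ) :
    qf (PNPM.TR P a) t = qf P t := by
  have hw : wid (PNPM.TR P a) t = wid P t := by
    unfold wid
    rw [hs, hs, PNPM.dotu_pi]
    ring
  have hm : mid (PNPM.TR P a) t = mid P t - dotu t a := by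
    unfold mid
    rw [hs, hs, PNPM.dotu_pi]
    ring
  unfold qf
  rw [PNPM.int_TR, hw, hm]
  apply setIntegral_congr_fun hP.2.1.measurableSet
  intro p _
  simp only
  rw [PNPM.dotu_sub]
  congr 3
  ring

theorem area_TR (P : Set (ℝ × ℝ)) (a : ℝ × ℝ) : area (PNPM.TR P a) = area P := by
  unfold area
  congr 1
  have e : PNPM.TR P a = (fun p => p + a) ⁻¹' P := by
    unfold PNPM.TR
    ext p
    constructor
    · rintro ⟨q, hq, rfl⟩
      simpa using hq
    · intro hp
      exact ⟨p + a, hp, by simp⟩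
  rw [e]
  exact measure_preimage_add_right volume a P

end SYFM

open SYFM in
theorem specSYF (hHAA : SpecHAA) (hMEA : SpecMEA) (hLEN : SpecLEN) (hCAU : SpecCAU)
    (hWB2 : SpecWB2) (hRE2P : SpecRE2P) (hSQF : SpecSQF) (hPWI : SpecPWI) : SpecSYF := by
  intro K hK hKi hsym V1 V2 hst hwid c hc
  obtain ⟨o, ho⟩ := hsym
  have hV1 := V1_pos hHAA hMEA hLEN hCAU K hK hKi V1 V2 hst
  obtain ⟨hCC, -, -, -, -, ⟨w0, hw0, hbw⟩, -, -, hrot⟩ := hMEA K hK hKi
  have hb : 0 < V1 / 4 := by positivity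
  set b : ℝ := V1 / 4 with hbdef
  have hwR : ∀ R : O3, 4565 / 10000 * b ≤ wid (pr R K) 0 / 2 := by
    intro R
    have h1 := hwid (col R 0) (norm_col R 0)
    rw [RE2M.wid_eq]
    rw [hbdef]
    linarith
  have hwt : ∀ (R : O3) (t : ℝ), 4565 / 10000 * b ≤ wid (pr R K) t / 2 := by
    intro R t
    rw [(hrot R t).1]
    exact hwR _
  refine hRE2P K hK hKi V1 V2 hst (4565 / 10000) (by norm_num) hwR (fun _ => 1)
    (fun x => 6 / 5 / x ^ 2 - 1 / 5 / x ^ 4) continuousOn_const ?_ ?_ ?_ c hc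
  · apply ContinuousOn.sub
    · exact continuousOn_const.div (continuousOn_pow 2) (fun x hx => by
        have : 0 < x := lt_of_lt_of_le (by norm_num) hx
        positivity)
    · exact continuousOn_const.div (continuousOn_pow 4) (fun x hx => by
        have : 0 < x := lt_of_lt_of_le (by norm_num) hx
        positivity)
  · intro x hx
    have hx0 : 0 < x := lt_of_lt_of_le (by norm_num) hx
    have h1 := hPWI x (le_trans (by norm_num) hx)
    have ht : taup = 32 / (3 * π ^ 2) - 1 := by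
      unfold taup kap
      field_simp
      ring
    rw [le_div_iff₀ (by positivity), ht]
    nlinarith
  · intro R
    set P := pr R K with hP
    have hPC : CC P := hCC R
    set a : ℝ × ℝ := cd R o with ha
    have hs : ∀ θ, sup2 (PNPM.TR P a) θ = sup2 P θ - dotu θ a := fun θ =>
      PNPM.sup2_TR hWB2 hPC a θ
    have hw : ∀ θ, wid (PNPM.TR P a) θ = wid P θ := by
      intro θ
      unfold wid
      rw [hs, hs, PNPM.dotu_pi]
      ring
    have hsymP : ∀ p ∈ PNPM.TR P a, -p ∈ PNPM.TR P a := by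
      rintro _ ⟨p, ⟨x, hx, rfl⟩, rfl⟩
      refine ⟨cd R ((2 : ℝ) • o - x), ⟨_, ho x hx, rfl⟩, ?_⟩
      have e : cd R ((2 : ℝ) • o - x) = (2 : ℝ) • a - cd R x := by
        rw [sub_eq_add_neg, cd_add, cd_smul]
        have : cd R (-x) = - cd R x := by
          have h2 := cd_smul R (-1 : ℝ) x
          simpa using h2
        rw [this, sub_eq_add_neg]
      simp only
      rw [e, two_smul]
      abel
    have hwpos : ∀ θ, 0 < wid (PNPM.TR P a) θ := by
      intro θ
      rw [hw θ]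
      have h1 := hwt R θ
      have : 0 < wid P θ / 2 := lt_of_lt_of_le (by positivity) h1
      linarith
    have hQB : ∀ θ, QB (b ^ 4 / 5) 0 (b ^ 4 / 5) θ θ = b ^ 4 / 5 := by
      intro θ
      unfold QB
      have := cos_sq_add_sin_sq θ
      linear_combination (b ^ 4 / 5) * this
    have hAdm : Adm (b ^ 4 / 5) 0 (b ^ 4 / 5) (6 / 5 * b ^ 2)
        (fun θ => wid (PNPM.TR P a) θ / 2) := by
      refine ⟨by positivity, fun θ => ?_⟩
      rw [hQB θ]
      refine ⟨by positivity, ?_⟩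
      simp only
      rw [hw θ]
      have h1 := hwt R θ
      have h2 : (4565 / 10000 * b) ^ 2 ≤ (wid P θ / 2) ^ 2 :=
        pow_le_pow_left₀ (by positivity) h1 2
      have h3 : 0 < b ^ 2 := by positivity
      calc b ^ 4 / 5 ≤ 4 / 5 * (6 / 5 * b ^ 2) * (4565 / 10000 * b) ^ 2 := by
            have e : 4 / 5 * (6 / 5 * b ^ 2) * (4565 / 10000 * b) ^ 2 =
              (24 / 25 * (4565 / 10000) ^ 2) * b ^ 4 := by ring
            rw [e]
            have h4 : (1 : ℝ) / 5 ≤ 24 / 25 * (4565 / 10000) ^ 2 := by norm_num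
            have h5 : 0 ≤ b ^ 4 := by positivity
            nlinarith
        _ ≤ 4 / 5 * (6 / 5 * b ^ 2) * (wid P θ / 2) ^ 2 :=
            mul_le_mul_of_nonneg_left h2 (by positivity)
    have h1 := hSQF (PNPM.TR P a) (PNPM.cc_TR hPC a) hsymP hwpos _ _ _ _ hAdm
    have h2 : ∀ t, (kap * ((1 : ℝ) - 1) * area P +
        (6 / 5 / (wid P t / 2 / b) ^ 2 - 1 / 5 / (wid P t / 2 / b) ^ 4) *
          (qf P t - kap * area P)) =
        wt (b ^ 4 / 5) 0 (b ^ 4 / 5) (6 / 5 * b ^ 2) (fun θ => wid (PNPM.TR P a) θ / 2) t *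
          (qf (PNPM.TR P a) t - kap * area (PNPM.TR P a)) := by
      intro t
      rw [qf_TR hPC a hs t, area_TR]
      have hwp : 0 < wid P t / 2 := lt_of_lt_of_le (by positivity) (hwt R t)
      have e : 6 / 5 / (wid P t / 2 / b) ^ 2 - 1 / 5 / (wid P t / 2 / b) ^ 4 =
          wt (b ^ 4 / 5) 0 (b ^ 4 / 5) (6 / 5 * b ^ 2) (fun θ => wid (PNPM.TR P a) θ / 2) t := by
        unfold wt
        rw [hQB t]
        simp only
        rw [hw t]
        generalize wid P t / 2 = y at *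
        field_simp
      rw [e]
      ring
    refine h1.trans (le_of_eq ?_)
    apply intervalIntegral.integral_congr
    intro t _
    exact (h2 t).symm

end Pool.Agent.Lib.MP_084b88_gt.SY
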