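import Pool.Agent.Lib.MP_084b88_gt.SY.Spec

/-!
# MP_084b88_gt, project SY, module IGE
-/

set_option autoImplicit false

open MeasureTheory Set Real Filter Topology
open scoped Pointwise InnerProductSpace

namespace Pool.Agent.Lib.MP_084b88_gt.SY

open Pool.Agent.Lib.MP_084b88_gt.CW

namespace IGEM

theorem lip (G1 G2 : ℝ → ℝ) (hc : Continuous G1) (h2 : ∀ x, HasDerivAt G2 (G1 x) x) :
    ∃ C : ℝ, 0 ≤ C ∧ ∀ x ∈ Icc (-1 : ℝ) 1, ∀ y ∈ Icc (-1 : ℝ) 1, |G2 x - G2 y| ≤ C * |x - y| := by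
  obtain ⟨C, hC⟩ := isCompact_Icc.exists_bound_of_continuousOn (hc.continuousOn (s := Icc (-1 : ℝ) 1))
  refine ⟨C, ?_, ?_⟩
  · exact (norm_nonneg _).trans (hC 0 (by constructor <;> norm_num))
  · intro x hx y hy
    have h := Convex.norm_image_sub_le_of_norm_hasDerivWithin_le (f := G2) (f' := G1)
      (s := Icc (-1 : ℝ) 1) (C := C) (fun z _ => (h2 z).hasDerivWithinAt) hC (convex_Icc _ _) hy hx
    simpa [Real.norm_eq_abs] using h

theorem lip2 (G1 G2 : ℝ → ℝ) (hc : Continuous G1) (h2 : ∀ x, HasDerivAt G2 (G1 x) x)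
    (he : ∀ x, G2 (-x) = G2 x) :
    ∃ C : ℝ, 0 ≤ C ∧ ∀ x ∈ Icc (-1 : ℝ) 1, |G2 1 - G2 x| ≤ C * (1 - x ^ 2) := by
  obtain ⟨C, hC0, hC⟩ := lip G1 G2 hc h2
  refine ⟨C, hC0, ?_⟩
  have key : ∀ x : ℝ, 0 ≤ x → x ≤ 1 → |G2 1 - G2 x| ≤ C * (1 - x ^ 2) := by
    intro x h0 h1
    have h := hC 1 (by constructor <;> norm_num) x ⟨by linarith, h1⟩
    rw [abs_of_nonneg (by linarith : (0 : ℝ) ≤ 1 - x)] at h
    refine h.trans (mul_le_mul_of_nonneg_left ?_ hC0)
    nlinarith
  intro x hx
  rcases le_total 0 x with h0 | h0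
  · exact key x h0 hx.2
  · have h := key (-x) (by linarith) (by linarith [hx.1])
    rw [he x] at h
    simpa using h

theorem cosmem (α : ℝ) : cos α ∈ Icc (-1 : ℝ) 1 := ⟨neg_one_le_cos α, cos_le_one α⟩

theorem onesub (α : ℝ) : 1 - cos α ^ 2 = sin α ^ 2 := by
  have := sin_sq_add_cos_sq α; linarith

/-- A function bounded by `C sin²`, divided by `sin²`, is integrable. -/
theorem intble (f : ℝ → ℝ) (hf : Measurable f) (C : ℝ) (hC0 : 0 ≤ C)
    (hC : ∀ α ∈ Icc (0 : ℝ) π, |f α| ≤ C * sin α ^ 2) :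
    IntervalIntegrable (fun α => f α / sin α ^ 2) volume 0 π := by
  rw [intervalIntegrable_iff_integrableOn_Icc_of_le pi_pos.le]
  refine Measure.integrableOn_of_bounded (M := C) ?_ ?_ ?_
  · rw [Real.volume_Icc]; exact ENNReal.ofReal_ne_top
  · exact (hf.div ((measurable_sin).pow_const 2)).aestronglyMeasurable
  · rw [ae_restrict_iff' measurableSet_Icc]
    refine Filter.Eventually.of_forall ?_
    intro α hα
    rw [Real.norm_eq_abs, abs_div, abs_of_nonneg (sq_nonneg (sin α))]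
    rcases eq_or_ne (sin α) 0 with h0 | h0
    · rw [h0]; simpa using hC0
    · have hp : 0 < sin α ^ 2 := by positivity
      rw [div_le_iff₀ hp]
      exact hC α hα

theorem parts (G1 G2 : ℝ → ℝ) (hc : Continuous G1) (h2 : ∀ x, HasDerivAt G2 (G1 x) x)
    (he : ∀ x, G2 (-x) = G2 x) :
    ∫ α in (0 : ℝ)..π, G1 (cos α) * cos α = ∫ α in (0 : ℝ)..π, (G2 1 - G2 (cos α)) / sin α ^ 2 := by
  obtain ⟨C, hC0, hC⟩ := lip2 G1 G2 hc h2 he
  have hG2c : Continuous G2 := continuous_iff_continuousAt.2 fun x => (h2 x).continuousAt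
  have hb : ∀ α, |G2 1 - G2 (cos α)| ≤ C * sin α ^ 2 := by
    intro α
    have := hC (cos α) (cosmem α)
    rwa [onesub] at this
  have hi1 : IntervalIntegrable (fun α => (G2 1 - G2 (cos α)) / sin α ^ 2) volume 0 π :=
    intble (fun α => G2 1 - G2 (cos α)) (by
      exact (continuous_const.sub (hG2c.comp continuous_cos)).measurable) C hC0 (fun α _ => hb α)
  have hi2 : IntervalIntegrable (fun α => G1 (cos α) * cos α) volume 0 π :=
    ((hc.comp continuous_cos).mul continuous_cos).intervalIntegrable _ _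
  set F : ℝ → ℝ := fun α => cos α / sin α * (G2 1 - G2 (cos α)) with hF
  have hFb : ∀ α, |F α| ≤ C * |sin α| := by
    intro α
    rcases eq_or_ne (sin α) 0 with h0 | h0
    · simp [hF, h0]
    · simp only [hF]
      rw [abs_mul, abs_div]
      have hp : 0 < |sin α| := abs_pos.2 h0
      have h1 : |cos α| ≤ 1 := abs_cos_le_one α
      rw [div_mul_eq_mul_div, div_le_iff₀ hp]
      calc |cos α| * |G2 1 - G2 (cos α)| ≤ 1 * (C * sin α ^ 2) :=
            mul_le_mul h1 (hb α) (abs_nonneg _) zero_le_one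
        _ = C * |sin α| * |sin α| := by rw [one_mul, mul_assoc, abs_mul_abs_self]; ring
  have hFc : Continuous F := by
    rw [continuous_iff_continuousAt]
    intro α
    rcases eq_or_ne (sin α) 0 with h0 | h0
    · have hF0 : F α = 0 := by simp [hF, h0]
      have ht : Tendsto (fun x => C * |sin x|) (𝓝 α) (𝓝 0) := by
        have : Continuous (fun x : ℝ => C * |sin x|) :=
          continuous_const.mul continuous_sin.abs
        have h3 := this.tendsto α
        simpa [h0] using h3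
      unfold ContinuousAt
      rw [hF0]
      exact squeeze_zero_norm hFb ht
    · exact (continuous_cos.continuousAt.div continuous_sin.continuousAt h0).mul
        (continuousAt_const.sub (hG2c.comp continuous_cos).continuousAt)
  have hFd : ∀ α ∈ Ioo (0 : ℝ) π, HasDerivAt F
      (G1 (cos α) * cos α - (G2 1 - G2 (cos α)) / sin α ^ 2) α := by
    intro α hα
    have hs : sin α ≠ 0 := (sin_pos_of_pos_of_lt_pi hα.1 hα.2).ne'
    have d1 := (hasDerivAt_cos α).div (hasDerivAt_sin α) hs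
    have d2 := (HasDerivAt.comp α (h2 (cos α)) (hasDerivAt_cos α)).const_sub (G2 1)
    have d3 := d1.mul d2
    refine (HasDerivAt.congr_deriv d3 ?_)
    simp only [Function.comp, Pi.div_apply]
    have hsc := sin_sq_add_cos_sq α
    have hcc : cos α ^ 2 = 1 - sin α ^ 2 := by linarith
    field_simp
    rw [hcc]
    ring
  have hmain := intervalIntegral.integral_eq_sub_of_hasDerivAt_of_le (f := F) pi_pos.le
    hFc.continuousOn hFd (hi2.sub hi1)
  rw [intervalIntegral.integral_sub hi2 hi1] at hmain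
  have e1 : F π = 0 := by simp [hF]
  have e0 : F 0 = 0 := by simp [hF]
  rw [e1, e0] at hmain
  linarith

/-- `τ ↦ -τ` on `(-1,1)`. -/
theorem refl_int (f : ℝ → ℝ) :
    ∫ τ in Ioo (-1 : ℝ) 1, f (-τ) = ∫ τ in Ioo (-1 : ℝ) 1, f τ := by
  rw [← integral_Ioc_eq_integral_Ioo, ← integral_Ioc_eq_integral_Ioo,
    ← intervalIntegral.integral_of_le (by norm_num : (-1 : ℝ) ≤ 1),
    ← intervalIntegral.integral_of_le (by norm_num : (-1 : ℝ) ≤ 1)]
  rw [intervalIntegral.integral_comp_neg (fun x => f x)]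
  simp

theorem refl_intble (f : ℝ → ℝ) (hf : IntegrableOn f (Ioo (-1 : ℝ) 1)) :
    IntegrableOn (fun τ => f (-τ)) (Ioo (-1 : ℝ) 1) := by
  have h1 : IntervalIntegrable f volume (-1) 1 := by
    rw [intervalIntegrable_iff_integrableOn_Ioo_of_le (by norm_num : (-1 : ℝ) ≤ 1)]
    exact hf
  have h2 : IntervalIntegrable (fun τ => f (0 - τ)) volume (0 - (-1)) (0 - 1) := h1.comp_sub_left 0
  have h3 : IntervalIntegrable (fun τ => f (-τ)) volume (-1) 1 := by
    have := h2.symm
    simpa using this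
  rwa [intervalIntegrable_iff_integrableOn_Ioo_of_le (by norm_num : (-1 : ℝ) ≤ 1)] at h3

end IGEM

open IGEM

theorem specIGE (hHPB : SpecHPB) (hWMB : SpecWMB) (hGAG : SpecGAG) (hGAL : SpecGAL) : SpecIGE := by
  intro M c hRP hper
  have hd1 := (hHPB M c).1
  have hd2 := (hHPB M (dk c)).1
  have hc2 := (hHPB M (dk (dk c))).2.2.1
  have hper1 : ∀ x, hp M (dk c) (x + π) = hp M (dk c) x := by
    intro x
    have h1 : HasDerivAt (fun y => hp M c (y + π)) (hp M (dk c) (x + π)) x :=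
      HasDerivAt.comp_add_const x π (hd1 (x + π))
    have h2 : (fun y => hp M c (y + π)) = hp M c := by
      funext y; exact hper y
    rw [h2] at h1
    exact h1.unique (hd1 x)
  have hB : ∀ t, Bh (hp M c) t = hp M c t := by
    intro t; unfold Bh; rw [hper t]; ring
  have hg : ∀ t, gh (hp M c) t = 0 := by
    intro t; unfold gh; rw [hper t]; ring
  have hpos : ∀ x, 0 < hp M c x := by
    intro x; have := hRP.2.2 x; rwa [hB x] at this
  refine ⟨⟨hd1, hd2, hc2, hper, hper1, hpos, hRP.2.1⟩, ?_⟩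
  intro G G1 G2 hGc hG1 hG2 hGe hG1o hG2e t
  have hG1c : Continuous G1 := continuous_iff_continuousAt.2 fun x => (hG1 x).continuousAt
  have hG2c : Continuous G2 := continuous_iff_continuousAt.2 fun x => (hG2 x).continuousAt
  obtain ⟨hint, hgal⟩ := hGAL M c hRP G G1 G2 hGc hG1 hG2 t
  -- the point function
  have hp0 : ∀ α, cos α + sin α ^ 2 * Ps M c t α / Bh (hp M c) t = aa (hp M c) (hp M (dk c)) t α := by
    intro α
    have hw := hWMB M c t α
    rw [hg t, hB t] at hw
    unfold aa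
    rw [hB t]
    have h0 := (hpos t).ne'
    field_simp
    linarith
  -- reflection
  have hUB : ∀ τ, UB (hp M c) (t + π) τ = UB (hp M c) t τ := by
    intro τ
    unfold UB
    congr 1
    funext α
    rw [hg (t + π), hg t, hB (t + π), hB t, hper t]
    have : hp M c (t + π + α) = hp M c (t + α) := by
      rw [show t + π + (α : ℝ) = (t + α) + π by ring]; exact hper _
    rw [this]
  have hIG : IG G (hp M c) t = 2 * (Bh (hp M c) t * ∫ τ in Ioo (-1 : ℝ) 1, UB (hp M c) t τ * G τ) := by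
    unfold IG
    have h1 : (fun τ => (UB (hp M c) t τ + UB (hp M c) (t + π) (-τ)) * G τ) =
        fun τ => UB (hp M c) t τ * G τ + (fun σ => UB (hp M c) t σ * G σ) (-τ) := by
      funext τ
      simp only
      rw [hUB (-τ), hGe τ]
      ring
    rw [h1, integral_add hint (refl_intble _ hint),
      refl_int (fun σ => UB (hp M c) t σ * G σ)]
    ring
  rw [hIG, hgal, hper1 t]
  have hG1m : G1 (-1) = - G1 1 := hG1o 1
  rw [hG1m, parts G1 G2 hG1c hG2 hG2e]
  obtain ⟨C, hC0, hC⟩ := lip2 G1 G2 hG1c hG2 hG2e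
  obtain ⟨D, hD0, hD⟩ := lip G1 G2 hG1c hG2
  obtain ⟨E, hE⟩ := (hHPB M c).2.2.2.2.2.2.2.2.1
  have hPsc0 : Continuous (fun x : ℝ × ℝ => Ps M c x.1 x.2) := (hHPB M c).2.2.2.2.2.2.2.1
  have hPsc : Continuous (fun α : ℝ => Ps M c t α) :=
    Continuous.comp (g := fun x : ℝ × ℝ => Ps M c x.1 x.2) (f := fun α : ℝ => ((t, α) : ℝ × ℝ))
      hPsc0 (by fun_prop)
  have hBpos : 0 < Bh (hp M c) t := hRP.2.2 t
  have hi1 : IntervalIntegrable (fun α => (G2 1 - G2 (cos α)) / sin α ^ 2) volume 0 π :=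
    intble (fun α => G2 1 - G2 (cos α))
      ((continuous_const.sub (hG2c.comp continuous_cos)).measurable) C hC0 (fun α _ => by
        have := hC (cos α) (cosmem α)
        rwa [onesub] at this)
  have hpc : Continuous (fun α => cos α + sin α ^ 2 * Ps M c t α / Bh (hp M c) t) :=
    continuous_cos.add (((continuous_sin.pow 2).mul hPsc).div_const _)
  have hi2 : IntervalIntegrable (fun α =>
      (G2 (cos α + sin α ^ 2 * Ps M c t α / Bh (hp M c) t) - G2 (cos α)) / sin α ^ 2) volume 0 π := by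
    refine intble (fun α => G2 (cos α + sin α ^ 2 * Ps M c t α / Bh (hp M c) t) - G2 (cos α))
      (((hG2c.comp hpc).sub (hG2c.comp continuous_cos)).measurable) (D * (E / Bh (hp M c) t)) ?_ ?_
    · have : 0 ≤ E := (abs_nonneg _).trans (hE 0 0)
      positivity
    · intro α hα
      have hab := ((hGAG M c hRP t).2.2.2.1) α hα
      have h1 := hD _ (abs_le.1 hab) (cos α) (cosmem α)
      refine h1.trans ?_
      rw [add_sub_cancel_left, abs_div, abs_mul, abs_of_nonneg (sq_nonneg (sin α)),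
        abs_of_pos hBpos, mul_assoc]
      refine mul_le_mul_of_nonneg_left ?_ hD0
      rw [div_mul_eq_mul_div]
      refine div_le_div_of_nonneg_right ?_ hBpos.le
      rw [mul_comm]
      exact mul_le_mul_of_nonneg_right (hE t α) (sq_nonneg _)
  have hfin : (∫ α in (0 : ℝ)..π, (G2 1 - G2 (aa (hp M c) (hp M (dk c)) t α)) / sin α ^ 2) =
      (∫ α in (0 : ℝ)..π, (G2 1 - G2 (cos α)) / sin α ^ 2) -
      ∫ α in (0 : ℝ)..π,
        (G2 (cos α + sin α ^ 2 * Ps M c t α / Bh (hp M c) t) - G2 (cos α)) / sin α ^ 2 := by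
    rw [← intervalIntegral.integral_sub hi1 hi2]
    congr 1
    funext α
    rw [hp0 α]
    ring
  rw [hfin, hB t]
  ring

end Pool.Agent.Lib.MP_084b88_gt.SY
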