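import Pool.Agent.Lib.MP_084b88_gt.SY.Spec

/-!
# MP_084b88_gt, project SY, module ABR: calculus of the two point functions
-/

set_option autoImplicit false

open MeasureTheory Set Real Filter Topology
open scoped Pointwise InnerProductSpace

namespace Pool.Agent.Lib.MP_084b88_gt.SY

open Pool.Agent.Lib.MP_084b88_gt.CW

namespace ABRM

variable {h h1 h2 : ℝ → ℝ}

theorem cont_h (S : Sm h h1 h2) : Continuous h :=
  continuous_iff_continuousAt.2 fun x => (S.d1 x).continuousAt

theorem cont_h1 (S : Sm h h1 h2) : Continuous h1 :=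
  continuous_iff_continuousAt.2 fun x => (S.d2 x).continuousAt

theorem per2 (S : Sm h h1 h2) (x : ℝ) : h2 (x + π) = h2 x := by
  have e1 : HasDerivAt (fun y => h1 (y + π)) (h2 (x + π)) x :=
    (S.d2 (x + π)).comp_add_const x π
  have e2 : (fun y => h1 (y + π)) = h1 := funext S.per1
  rw [e2] at e1
  exact e1.unique (S.d2 x)

theorem exists_min (S : Sm h h1 h2) : ∃ m : ℝ, 0 < m ∧ ∀ x, m ≤ h x := by
  have hp : Function.Periodic h π := S.per
  have hc := hp.compact_of_continuous Real.pi_ne_zero (cont_h S)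
  obtain ⟨m, hm⟩ := hc.exists_isLeast (Set.range_nonempty h)
  obtain ⟨x, hx⟩ := hm.1
  exact ⟨m, hx ▸ S.pos x, fun y => hm.2 ⟨y, rfl⟩⟩

theorem exists_max (S : Sm h h1 h2) : ∃ R : ℝ, 0 < R ∧ ∀ x, h x + h2 x ≤ R := by
  have hp : Function.Periodic (fun x => h x + h2 x) π := by
    intro x
    show h (x + π) + h2 (x + π) = h x + h2 x
    rw [S.per, per2 S]
  have hc := hp.compact_of_continuous Real.pi_ne_zero ((cont_h S).add S.c2)
  obtain ⟨m, hm⟩ := hc.exists_isGreatest (Set.range_nonempty _)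
  obtain ⟨x, hx⟩ := hm.1
  refine ⟨m, hx ▸ S.rad x, fun y => hm.2 ⟨y, rfl⟩⟩

theorem aa_ends (S : Sm h h1 h2) (t : ℝ) : aa h h1 t 0 = 1 ∧ aa h h1 t π = -1 := by
  have ht := (S.pos t).ne'
  unfold aa
  constructor
  · simp [ht]
  · rw [S.per, S.per1]
    simp
    field_simp

theorem bb_aa (S : Sm h h1 h2) (t α : ℝ) : bb h h1 t α = -aa h h1 (t + α) (π - α) := by
  unfold aa bb
  have e : t + α + (π - α) = t + π := by ring
  rw [e, S.per, S.per1, Real.cos_pi_sub, Real.sin_pi_sub]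
  ring

theorem aa_der (S : Sm h h1 h2) (t α : ℝ) :
    HasDerivAt (fun y => aa h h1 t y) (-((h (t + α) + h2 (t + α)) * sin α) / h t) α := by
  have e1 : HasDerivAt (fun y => h (t + y)) (h1 (t + α)) α := (S.d1 (t + α)).comp_const_add t α
  have e2 : HasDerivAt (fun y => h1 (t + y)) (h2 (t + α)) α := (S.d2 (t + α)).comp_const_add t α
  have e3 := ((e1.mul (Real.hasDerivAt_cos α)).sub (e2.mul (Real.hasDerivAt_sin α))).div_const
    (h t)
  refine e3.congr_deriv ?_
  ring

theorem mono_aux (F F' : ℝ → ℝ) (hF : ∀ y, HasDerivAt F (F' y) y)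
    (hF' : ∀ y ∈ Icc (0 : ℝ) π, 0 ≤ F' y) (α : ℝ) (hα : α ∈ Icc (0 : ℝ) π) :
    F 0 ≤ F α ∧ F α ≤ F π := by
  have hm : MonotoneOn F (Icc 0 π) := by
    apply monotoneOn_of_deriv_nonneg (convex_Icc 0 π)
    · exact fun y _ => (hF y).continuousAt.continuousWithinAt
    · exact fun y _ => (hF y).differentiableAt.differentiableWithinAt
    · intro y hy
      rw [interior_Icc] at hy
      rw [(hF y).deriv]
      exact hF' y ⟨hy.1.le, hy.2.le⟩
  exact ⟨hm ⟨le_refl _, Real.pi_pos.le⟩ hα hα.1, hm hα ⟨Real.pi_pos.le, le_refl _⟩ hα.2⟩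

theorem aa_bd (S : Sm h h1 h2) (m R : ℝ) (hm : 0 < m) (hmh : ∀ x, m ≤ h x) (hR : 0 < R)
    (hRh : ∀ x, h x + h2 x ≤ R) (t α : ℝ) (hα : α ∈ Icc (0 : ℝ) π) :
    0 ≤ 1 - aa h h1 t α ∧ 1 - aa h h1 t α ≤ R / m * (1 - cos α) ∧
      0 ≤ 1 + aa h h1 t α ∧ 1 + aa h h1 t α ≤ R / m * (1 + cos α) := by
  have ht := S.pos t
  have he := aa_ends S t
  have hsin : ∀ y ∈ Icc (0 : ℝ) π, 0 ≤ sin y := fun y hy => Real.sin_nonneg_of_nonneg_of_le_pi hy.1 hy.2
  have hle : ∀ y ∈ Icc (0 : ℝ) π, (h (t + y) + h2 (t + y)) * sin y / h t ≤ R / m * sin y := by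
    intro y hy
    rw [mul_comm (h (t + y) + h2 (t + y)), mul_div_assoc, mul_comm]
    apply mul_le_mul_of_nonneg_right _ (hsin y hy)
    exact div_le_div₀ hR.le (hRh _) hm (hmh t)
  have m1 := mono_aux (fun y => -aa h h1 t y)
    (fun y => -(-((h (t + y) + h2 (t + y)) * sin y) / h t)) (fun y => (aa_der S t y).neg)
    (fun y hy => by
      have h3 := hsin y hy
      have h4 := S.rad (t + y)
      have : -(-((h (t + y) + h2 (t + y)) * sin y) / h t) =
        (h (t + y) + h2 (t + y)) * sin y / h t := by ring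
      rw [this]
      positivity) α hα
  have m2 := mono_aux (fun y => R / m * (1 - cos y) - (1 - aa h h1 t y))
    (fun y => R / m * (-(-sin y)) - (-(-((h (t + y) + h2 (t + y)) * sin y) / h t)))
    (fun y => (((Real.hasDerivAt_cos y).const_sub 1).const_mul (R / m)).sub
      ((aa_der S t y).const_sub 1))
    (fun y hy => by
      have h3 := hle y hy
      have : R / m * (-(-sin y)) - (-(-((h (t + y) + h2 (t + y)) * sin y) / h t)) =
        R / m * sin y - (h (t + y) + h2 (t + y)) * sin y / h t := by ring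
      rw [this]
      linarith) α hα
  have m3 := mono_aux (fun y => (1 + aa h h1 t y) - R / m * (1 + cos y))
    (fun y => (-((h (t + y) + h2 (t + y)) * sin y) / h t) - R / m * (-sin y))
    (fun y => ((aa_der S t y).const_add 1).sub
      (((Real.hasDerivAt_cos y).const_add 1).const_mul (R / m)))
    (fun y hy => by
      have h3 := hle y hy
      have : (-((h (t + y) + h2 (t + y)) * sin y) / h t) - R / m * (-sin y) =
        R / m * sin y - (h (t + y) + h2 (t + y)) * sin y / h t := by ring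
      rw [this]
      linarith) α hα
  simp only [he.1, he.2, Real.cos_zero, Real.cos_pi] at m1 m2 m3
  refine ⟨by linarith [m1.1], by linarith [m2.1], by linarith [m1.2], by linarith [m3.2]⟩

theorem bounds (S : Sm h h1 h2) : ∃ L : ℝ, 0 ≤ L ∧ ∀ t, ∀ α ∈ Icc (0 : ℝ) π,
    |aa h h1 t α| ≤ 1 ∧ |bb h h1 t α| ≤ 1 ∧
      1 - aa h h1 t α ^ 2 ≤ L * sin α ^ 2 ∧ 1 - bb h h1 t α ^ 2 ≤ L * sin α ^ 2 ∧
      1 - aa h h1 t α * bb h h1 t α ≤ L * sin α ^ 2 := by
  obtain ⟨m, hm, hmh⟩ := exists_min S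
  obtain ⟨R, hR, hRh⟩ := exists_max S
  refine ⟨(R / m) ^ 2, by positivity, ?_⟩
  intro t α hα
  obtain ⟨a1, a2, a3, a4⟩ := aa_bd S m R hm hmh hR hRh t α hα
  have hα' : π - α ∈ Icc (0 : ℝ) π := ⟨by linarith [hα.2], by linarith [hα.1]⟩
  obtain ⟨b1, b2, b3, b4⟩ := aa_bd S m R hm hmh hR hRh (t + α) (π - α) hα'
  rw [Real.cos_pi_sub] at b2 b4
  rw [bb_aa S t α]
  set a := aa h h1 t α
  set b := aa h h1 (t + α) (π - α)
  set L := R / m with hL
  have hL0 : 0 < L := by positivity
  have hc1 : 0 ≤ 1 - cos α := by linarith [Real.cos_le_one α]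
  have hc2 : 0 ≤ 1 + cos α := by linarith [Real.neg_one_le_cos α]
  have hs : sin α ^ 2 = (1 - cos α) * (1 + cos α) := by
    rw [Real.sin_sq]
    ring
  have b2' : 1 - b ≤ L * (1 + cos α) := by linarith
  have b4' : 1 + b ≤ L * (1 - cos α) := by linarith
  refine ⟨abs_le.2 ⟨by linarith, by linarith⟩, abs_le.2 ⟨by linarith, by linarith⟩, ?_, ?_, ?_⟩
  · have := mul_le_mul a2 a4 a3 (by positivity)
    rw [hs]
    nlinarith
  · have := mul_le_mul b4' b2' b1 (by positivity)
    rw [hs]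
    nlinarith
  · have e1 := mul_le_mul a2 b2' b1 (by positivity)
    have e2 := mul_le_mul a4 b4' b3 (by positivity)
    rw [hs]
    nlinarith

theorem pq_bd (S : Sm h h1 h2) (A B C : ℝ) : ∃ L : ℝ, ∀ θ φ, |pq A B C h θ φ| ≤ L := by
  obtain ⟨m, hm, hmh⟩ := exists_min S
  refine ⟨(|A| + |B| * 2 + |C|) / (m * m), ?_⟩
  intro θ φ
  unfold pq QB
  have hθ := S.pos θ
  have hφ := S.pos φ
  rw [abs_div, abs_of_pos (by positivity : 0 < h θ * h φ)]
  have c1 := Real.abs_cos_le_one θ
  have c2 := Real.abs_cos_le_one φ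
  have s1 := Real.abs_sin_le_one θ
  have s2 := Real.abs_sin_le_one φ
  have hm1 : ∀ x y : ℝ, |x| ≤ 1 → |y| ≤ 1 → |x * y| ≤ 1 := by
    intro x y hx hy
    rw [abs_mul]
    exact mul_le_one₀ hx (abs_nonneg _) hy
  apply div_le_div₀ (by positivity) _ (by positivity)
    (mul_le_mul (hmh θ) (hmh φ) hm.le hθ.le)
  refine (abs_add_le _ _).trans (add_le_add ((abs_add_le _ _).trans (add_le_add ?_ ?_)) ?_)
  · rw [abs_mul]
    exact mul_le_of_le_one_right (abs_nonneg _) (hm1 _ _ c1 c2)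
  · rw [abs_mul]
    apply mul_le_mul_of_nonneg_left _ (abs_nonneg _)
    refine (abs_add_le _ _).trans ?_
    have := hm1 _ _ c1 s2
    have := hm1 _ _ s1 c2
    linarith
  · rw [abs_mul]
    exact mul_le_of_le_one_right (abs_nonneg _) (hm1 _ _ s1 s2)

theorem sin_pos' {α : ℝ} (hα : α ∈ Ioo (0 : ℝ) π) : 0 < sin α :=
  Real.sin_pos_of_pos_of_lt_pi hα.1 hα.2

theorem bb_der (S : Sm h h1 h2) (t α : ℝ) (hα : α ∈ Ioo (0 : ℝ) π) :
    HasDerivAt (fun y => bb h h1 t y)
      (-((1 - aa h h1 t α * bb h h1 t α) * h t) / (h (t + α) * sin α)) α := by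
  have e1 : HasDerivAt (fun y => h (t + y)) (h1 (t + α)) α := (S.d1 (t + α)).comp_const_add t α
  have hs := S.pos (t + α)
  have ht := S.pos t
  have hsin := sin_pos' hα
  have e2 := (((Real.hasDerivAt_cos α).const_mul (h t)).add
    ((Real.hasDerivAt_sin α).const_mul (h1 t))).div e1 hs.ne'
  refine e2.congr_deriv ?_
  unfold aa bb
  have hp : sin α ^ 2 + cos α ^ 2 = 1 := Real.sin_sq_add_cos_sq α
  simp only [Pi.add_apply]
  field_simp
  linear_combination (-(h t * h (t + α))) * hp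

theorem hs_der (S : Sm h h1 h2) (t α : ℝ) (hα : α ∈ Ioo (0 : ℝ) π) :
    HasDerivAt (fun y => h (t + y) / (h t * sin y)) (-(aa h h1 t α) / sin α ^ 2) α := by
  have e1 : HasDerivAt (fun y => h (t + y)) (h1 (t + α)) α := (S.d1 (t + α)).comp_const_add t α
  have hs := S.pos (t + α)
  have ht := S.pos t
  have hsin := sin_pos' hα
  have e2 := e1.div ((Real.hasDerivAt_sin α).const_mul (h t)) (mul_ne_zero ht.ne' hsin.ne')
  refine e2.congr_deriv ?_
  unfold aa
  field_simp
  ring

theorem c_der (S : Sm h h1 h2) (A B C t α : ℝ) (hα : α ∈ Ioo (0 : ℝ) π) :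
    HasDerivAt (fun y => pq A B C h t (t + y))
      (-((pq A B C h t t - aa h h1 t α * pq A B C h t (t + α)) * h t) / (h (t + α) * sin α)) α := by
  have e1 : HasDerivAt (fun y => h (t + y)) (h1 (t + α)) α := (S.d1 (t + α)).comp_const_add t α
  have ec : HasDerivAt (fun y => cos (t + y)) (-sin (t + α)) α :=
    (Real.hasDerivAt_cos (t + α)).comp_const_add t α
  have es : HasDerivAt (fun y => sin (t + y)) (cos (t + α)) α :=
    (Real.hasDerivAt_sin (t + α)).comp_const_add t α
  have hs := S.pos (t + α)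
  have ht := S.pos t
  have hsin := sin_pos' hα
  have e2 := (((ec.const_mul (cos t)).const_mul A).add
    (((es.const_mul (cos t)).add (ec.const_mul (sin t))).const_mul B)).add
    ((es.const_mul (sin t)).const_mul C)
  have e3 := e2.div (e1.const_mul (h t)) (mul_ne_zero ht.ne' hs.ne')
  refine HasDerivAt.congr_deriv (f := fun y => pq A B C h t (t + y)) e3 ?_
  have hp : sin α ^ 2 + cos α ^ 2 = 1 := Real.sin_sq_add_cos_sq α
  unfold aa pq QB
  simp only [Pi.add_apply]
  rw [Real.cos_add, Real.sin_add]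
  field_simp
  linear_combination (-(h (t + α) * (A * cos t ^ 2 + 2 * B * cos t * sin t +
    C * sin t ^ 2))) * hp

theorem q_der (S : Sm h h1 h2) (A B C t α : ℝ) (hα : α ∈ Ioo (0 : ℝ) π) :
    HasDerivAt (fun y => pq A B C h (t + y) (t + y))
      (-(2 * (pq A B C h t (t + α) - aa h h1 t α * pq A B C h (t + α) (t + α)) * h t) /
        (h (t + α) * sin α)) α := by
  have e1 : HasDerivAt (fun y => h (t + y)) (h1 (t + α)) α := (S.d1 (t + α)).comp_const_add t α
  have ec : HasDerivAt (fun y => cos (t + y)) (-sin (t + α)) α :=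
    (Real.hasDerivAt_cos (t + α)).comp_const_add t α
  have es : HasDerivAt (fun y => sin (t + y)) (cos (t + α)) α :=
    (Real.hasDerivAt_sin (t + α)).comp_const_add t α
  have hs := S.pos (t + α)
  have ht := S.pos t
  have hsin := sin_pos' hα
  have e2 := (((ec.mul ec).const_mul A).add
    (((ec.mul es).add (es.mul ec)).const_mul B)).add
    ((es.mul es).const_mul C)
  have e3 := e2.div (e1.mul e1) (mul_ne_zero hs.ne' hs.ne')
  refine HasDerivAt.congr_deriv (f := fun y => pq A B C h (t + y) (t + y)) e3 ?_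
  have hct : cos t = cos (t + α) * cos α + sin (t + α) * sin α := by
    rw [← Real.cos_sub]
    congr 1
    ring
  have hst : sin t = sin (t + α) * cos α - cos (t + α) * sin α := by
    rw [← Real.sin_sub]
    congr 1
    ring
  unfold aa pq QB
  simp only [Pi.add_apply, Pi.mul_apply]
  rw [hct, hst]
  field_simp
  ring

end ABRM

theorem specABR : SpecABR := by
  intro h h1 h2 S
  have ch := ABRM.cont_h S
  have ch1 := ABRM.cont_h1 S
  refine ⟨?_, ?_, ?_, ABRM.aa_ends S, ABRM.bb_aa S, ABRM.aa_der S, ABRM.bounds S,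
    fun A B C => ABRM.pq_bd S A B C, ABRM.bb_der S, ABRM.hs_der S,
    fun A B C t α hα => ABRM.c_der S A B C t α hα,
    fun A B C t α hα => ABRM.q_der S A B C t α hα, ?_, ?_⟩
  · unfold aa
    exact Continuous.div (by fun_prop) (by fun_prop) (fun x => (S.pos _).ne')
  · unfold bb
    exact Continuous.div (by fun_prop) (by fun_prop) (fun x => (S.pos _).ne')
  · intro A B C
    unfold pq QB
    exact Continuous.div (by fun_prop) (by fun_prop)
      (fun x => mul_ne_zero (S.pos _).ne' (S.pos _).ne')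
  · intro A B C θ φ
    unfold pq QB
    constructor
    · rw [mul_comm (h φ)]
      congr 1
      ring
    · rw [S.per, Real.cos_add_pi, Real.sin_add_pi]
      ring
  · intro t α
    unfold aa bb
    have e : t + π + α = t + α + π := by ring
    rw [e, S.per, S.per1, S.per, S.per1]
    exact ⟨rfl, rfl⟩

end Pool.Agent.Lib.MP_084b88_gt.SY
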