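import Pool.Agent.Lib.MP_084b88_gt.SY.Spec

/-!
# MP_084b88_gt, project SY: module ALG (polynomial identities)
-/

set_option autoImplicit false

open MeasureTheory Set Real Filter Topology
open scoped Pointwise InnerProductSpace

namespace Pool.Agent.Lib.MP_084b88_gt.SY

open Pool.Agent.Lib.MP_084b88_gt.CW

namespace ALGM

theorem ww_pos (k : ℕ) : 0 < ww k := by
  unfold ww
  refine Finset.prod_pos fun i _ => ?_
  positivity

theorem ww_succ (k : ℕ) : ww (k + 1) * (2 * (k : ℝ) + 3) = ww k * (2 * (k : ℝ) + 2) := by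
  unfold ww
  rw [Finset.prod_range_succ]
  have h3 : 2 * (k : ℝ) + 3 ≠ 0 := by positivity
  field_simp

/-! ### derivatives -/

theorem derG (k : ℕ) (x : ℝ) : HasDerivAt (GN k) (dG k x) x := by
  unfold GN dG
  refine HasDerivAt.fun_sum fun j _ => ?_
  refine HasDerivAt.const_mul _ ?_
  have h := (hasDerivAt_id x).sub (hasDerivAt_pow (2 * j + 3) x)
  refine h.congr_deriv ?_
  push_cast
  rfl

theorem derB (k : ℕ) (x : ℝ) : HasDerivAt (BN k) (dB k x) x := by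
  unfold BN dB
  refine HasDerivAt.fun_sum fun j _ => ?_
  refine HasDerivAt.const_mul _ ?_
  have h := ((hasDerivAt_pow (2 * j + 2) x).sub_const 1).div_const (2 * (j : ℝ) + 2)
  refine h.congr_deriv ?_
  push_cast
  have h2 : 2 * (j : ℝ) + 2 ≠ 0 := by positivity
  field_simp

theorem derdB (k : ℕ) (x : ℝ) : HasDerivAt (dB k) (ddB k x) x := by
  unfold dB ddB
  refine HasDerivAt.fun_sum fun j _ => ?_
  refine HasDerivAt.const_mul _ ?_
  have h := hasDerivAt_pow (2 * j + 1) x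
  refine h.congr_deriv ?_
  push_cast
  rfl

theorem derS (x : ℝ) : HasDerivAt (fun x : ℝ => 1 - x ^ 2) (-(2 * x)) x := by
  have := (hasDerivAt_pow 2 x).const_sub 1
  simpa using this

theorem derA (k : ℕ) (x : ℝ) : HasDerivAt (AN k) (dA k x) x := by
  unfold AN dA
  have h := (((derS x).mul (derdB k x)).neg).div_const 2
  refine h.congr_deriv ?_
  ring

theorem derC (k : ℕ) (x : ℝ) : HasDerivAt (CN k) (dC k x) x := by
  unfold CN dC
  have h2 : HasDerivAt (fun x : ℝ => 2 * x) 2 x := by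
    simpa using (hasDerivAt_id x).const_mul 2
  have h := ((((derS x).mul (derdB k x)).sub (h2.mul (derB k x))).sub (derG k x)).div_const 2
  refine h.congr_deriv ?_
  ring

/-! ### continuity -/

theorem contG (k : ℕ) : Continuous (dG k) := by
  unfold dG
  fun_prop

theorem contdB (k : ℕ) : Continuous (dB k) := by
  unfold dB
  fun_prop

theorem contddB (k : ℕ) : Continuous (ddB k) := by
  unfold ddB
  fun_prop

theorem contBN (k : ℕ) : Continuous (BN k) :=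
  continuous_iff_continuousAt.2 fun x => (derB k x).continuousAt

theorem contA (k : ℕ) : Continuous (dA k) := by
  have h1 := contdB k
  have h2 := contddB k
  unfold dA
  fun_prop

theorem contC (k : ℕ) : Continuous (dC k) := by
  have h1 := contdB k
  have h2 := contddB k
  have h3 := contBN k
  have h4 := contG k
  unfold dC
  fun_prop

/-! ### bounds -/

theorem bern (j : ℕ) (x : ℝ) (hx : |x| ≤ 1) :
    0 ≤ 1 - x ^ (2 * j + 2) ∧ 1 - x ^ (2 * j + 2) ≤ ((j : ℝ) + 1) * (1 - x ^ 2) := by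
  have h0 : 0 ≤ x ^ 2 := sq_nonneg x
  have h1 : x ^ 2 ≤ 1 := by
    rw [← sq_abs]
    exact pow_le_one₀ (abs_nonneg x) hx
  have e : x ^ (2 * j + 2) = (x ^ 2) ^ (j + 1) := by
    rw [← pow_mul]
    congr 1
  rw [e]
  refine ⟨sub_nonneg.2 (pow_le_one₀ h0 h1), ?_⟩
  have h := one_add_mul_le_pow (a := x ^ 2 - 1) (by linarith) (j + 1)
  push_cast at h
  have e2 : 1 + (x ^ 2 - 1) = x ^ 2 := by ring
  rw [e2] at h
  nlinarith [h]

theorem bndG (k : ℕ) : ∃ K : ℝ, 0 ≤ K ∧ ∀ x, |x| ≤ 1 → |GN k x| ≤ K * (1 - x ^ 2) := by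
  refine ⟨∑ j ∈ Finset.range k, |ww (j + 1) / ((j : ℝ) + 1)| * ((j : ℝ) + 1),
    Finset.sum_nonneg fun j _ => by positivity, fun x hx => ?_⟩
  unfold GN
  refine (Finset.abs_sum_le_sum_abs _ _).trans ?_
  rw [Finset.sum_mul]
  refine Finset.sum_le_sum fun j _ => ?_
  rw [abs_mul, mul_assoc]
  refine mul_le_mul_of_nonneg_left ?_ (abs_nonneg _)
  obtain ⟨h1, h2⟩ := bern j x hx
  have e : x - x ^ (2 * j + 3) = x * (1 - x ^ (2 * j + 2)) := by ring
  rw [e, abs_mul, abs_of_nonneg h1]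
  calc |x| * (1 - x ^ (2 * j + 2)) ≤ 1 * (1 - x ^ (2 * j + 2)) :=
        mul_le_mul_of_nonneg_right hx h1
    _ ≤ _ := by rw [one_mul]; exact h2

theorem bndB (k : ℕ) : ∃ K : ℝ, 0 ≤ K ∧ ∀ x, |x| ≤ 1 → |BN k x| ≤ K * (1 - x ^ 2) := by
  refine ⟨∑ j ∈ Finset.range k, |((k : ℝ) - j) / ((k : ℝ) + 1) * ww j| * 1,
    Finset.sum_nonneg fun j _ => by positivity, fun x hx => ?_⟩
  unfold BN
  refine (Finset.abs_sum_le_sum_abs _ _).trans ?_
  rw [Finset.sum_mul]
  refine Finset.sum_le_sum fun j _ => ?_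
  rw [abs_mul, mul_assoc]
  refine mul_le_mul_of_nonneg_left ?_ (abs_nonneg _)
  obtain ⟨h1, h2⟩ := bern j x hx
  have h3 : 0 < 2 * (j : ℝ) + 2 := by positivity
  rw [abs_div, abs_of_pos h3, abs_sub_comm, abs_of_nonneg h1, one_mul, div_le_iff₀ h3]
  have h4 : 0 ≤ 1 - x ^ 2 := by
    by_contra h
    push Not at h
    have := h1.trans h2
    have h5 : 0 < (j : ℝ) + 1 := by positivity
    nlinarith
  nlinarith [Nat.cast_nonneg (α := ℝ) j]

theorem bnddB (k : ℕ) : ∃ K : ℝ, 0 ≤ K ∧ ∀ x, |x| ≤ 1 → |dB k x| ≤ K := by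
  refine ⟨∑ j ∈ Finset.range k, |((k : ℝ) - j) / ((k : ℝ) + 1) * ww j|,
    Finset.sum_nonneg fun j _ => by positivity, fun x hx => ?_⟩
  unfold dB
  refine (Finset.abs_sum_le_sum_abs _ _).trans ?_
  refine Finset.sum_le_sum fun j _ => ?_
  rw [abs_mul, abs_pow]
  exact mul_le_of_le_one_right (abs_nonneg _) (pow_le_one₀ (abs_nonneg x) hx)

theorem bndAll (k : ℕ) : ∃ K : ℝ, 0 ≤ K ∧ ∀ x, |x| ≤ 1 → |GN k x| ≤ K * (1 - x ^ 2) ∧
    |AN k x| ≤ K * (1 - x ^ 2) ∧ |BN k x| ≤ K * (1 - x ^ 2) ∧ |CN k x| ≤ K * (1 - x ^ 2) ∧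
    |gN k x| ≤ K * (1 - x ^ 2) := by
  obtain ⟨K1, hK1, h1⟩ := bndG k
  obtain ⟨K2, hK2, h2⟩ := bndB k
  obtain ⟨K3, hK3, h3⟩ := bnddB k
  have hw := (ww_pos k).le
  have hK5 : 0 ≤ 2 * ww k * ((k : ℝ) + 1) := by positivity
  refine ⟨K1 + K2 + K3 + (2 + 2 * ww k * ((k : ℝ) + 1)), by linarith, fun x hx => ?_⟩
  have hx2 : x ^ 2 ≤ 1 := by
    rw [← sq_abs]
    exact pow_le_one₀ (abs_nonneg x) hx
  have hs : 0 ≤ 1 - x ^ 2 := by linarith
  have g1 := h1 x hx
  have g2 := h2 x hx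
  have g3 := h3 x hx
  have p1 := mul_nonneg hK1 hs
  have p2 := mul_nonneg hK2 hs
  have p3 := mul_nonneg hK3 hs
  have p5 := mul_nonneg hK5 hs
  have e : (K1 + K2 + K3 + (2 + 2 * ww k * ((k : ℝ) + 1))) * (1 - x ^ 2) =
      K1 * (1 - x ^ 2) + K2 * (1 - x ^ 2) + K3 * (1 - x ^ 2) + (2 * (1 - x ^ 2) +
        2 * ww k * ((k : ℝ) + 1) * (1 - x ^ 2)) := by ring
  rw [e]
  have q : |(1 - x ^ 2) * dB k x| ≤ K3 * (1 - x ^ 2) := by
    rw [abs_mul, abs_of_nonneg hs, mul_comm]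
    exact mul_le_mul_of_nonneg_right g3 hs
  refine ⟨by linarith, ?_, by linarith, ?_, ?_⟩
  · unfold AN
    rw [abs_div, abs_neg, abs_of_pos (by norm_num : (0:ℝ) < 2)]
    have := abs_nonneg ((1 - x ^ 2) * dB k x)
    linarith
  · unfold CN
    rw [abs_div, abs_of_pos (by norm_num : (0:ℝ) < 2)]
    have t1 : |(1 - x ^ 2) * dB k x - 2 * x * BN k x - GN k x| ≤
        |(1 - x ^ 2) * dB k x| + |2 * x * BN k x| + |GN k x| :=
      (abs_sub _ _).trans (add_le_add_left (abs_sub _ _) _)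
    have t2 : |2 * x * BN k x| ≤ 2 * (K2 * (1 - x ^ 2)) := by
      rw [abs_mul, abs_mul, abs_of_pos (by norm_num : (0:ℝ) < 2)]
      have := mul_le_mul hx g2 (abs_nonneg _) (by norm_num)
      linarith
    linarith
  · unfold gN
    obtain ⟨b1, b2⟩ := bern k x hx
    have c1 := mul_le_mul_of_nonneg_left b2 (by linarith : 0 ≤ 2 * ww k)
    have c2 := mul_nonneg (by linarith : 0 ≤ 2 * ww k) b1
    rw [abs_le]
    constructor
    · nlinarith
    · nlinarith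

/-! ### parity -/

theorem parG (k : ℕ) (x : ℝ) : GN k (-x) = -GN k x := by
  unfold GN
  rw [← Finset.sum_neg_distrib]
  refine Finset.sum_congr rfl fun j _ => ?_
  have e : (-x) ^ (2 * j + 3) = -x ^ (2 * j + 3) := by
    rw [Odd.neg_pow ⟨j + 1, by ring⟩]
  rw [e]
  ring

theorem pardG (k : ℕ) (x : ℝ) : dG k (-x) = dG k x := by
  unfold dG
  refine Finset.sum_congr rfl fun j _ => ?_
  have e : (-x) ^ (2 * j + 2) = x ^ (2 * j + 2) := by
    rw [Even.neg_pow ⟨j + 1, by ring⟩]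
  rw [e]

theorem parB (k : ℕ) (x : ℝ) : BN k (-x) = BN k x := by
  unfold BN
  refine Finset.sum_congr rfl fun j _ => ?_
  have e : (-x) ^ (2 * j + 2) = x ^ (2 * j + 2) := by
    rw [Even.neg_pow ⟨j + 1, by ring⟩]
  rw [e]

theorem pardB (k : ℕ) (x : ℝ) : dB k (-x) = -dB k x := by
  unfold dB
  rw [← Finset.sum_neg_distrib]
  refine Finset.sum_congr rfl fun j _ => ?_
  have e : (-x) ^ (2 * j + 1) = -x ^ (2 * j + 1) := by
    rw [Odd.neg_pow ⟨j, by ring⟩]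
  rw [e]
  ring

theorem parddB (k : ℕ) (x : ℝ) : ddB k (-x) = ddB k x := by
  unfold ddB
  refine Finset.sum_congr rfl fun j _ => ?_
  have e : (-x) ^ (2 * j) = x ^ (2 * j) := by
    rw [Even.neg_pow ⟨j, by ring⟩]
  rw [e]

theorem parg (k : ℕ) (x : ℝ) : gN k (-x) = gN k x := by
  unfold gN
  have e : (-x) ^ (2 * k + 2) = x ^ (2 * k + 2) := by
    rw [Even.neg_pow ⟨k + 1, by ring⟩]
  rw [e]
  ring

theorem parX (k : ℕ) (c0 a b p q c : ℝ) :
    XX k c0 (-a) (-b) p q (-c) = XX k c0 a b p q c := by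
  unfold XX AN CN dA dC
  rw [parg, pardG, parG, parB, pardB, parddB]
  ring

/-! ### the differential equations -/

theorem E1 (k : ℕ) (x : ℝ) : (1 - x ^ 2) * dG k x + x * GN k x = gN k x := by
  induction k with
  | zero =>
    simp [dG, GN, gN, ww]
  | succ k ih =>
    have h1 : dG (k + 1) x = dG k x +
        ww (k + 1) / ((k : ℝ) + 1) * (1 - (2 * (k : ℝ) + 3) * x ^ (2 * k + 2)) := by
      unfold dG
      rw [Finset.sum_range_succ]
    have h2 : GN (k + 1) x = GN k x + ww (k + 1) / ((k : ℝ) + 1) * (x - x ^ (2 * k + 3)) := by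
      unfold GN
      rw [Finset.sum_range_succ]
    have h3 : ww k = ww (k + 1) * (2 * (k : ℝ) + 3) / (2 * (k : ℝ) + 2) := by
      rw [ww_succ]
      have : 2 * (k : ℝ) + 2 ≠ 0 := by positivity
      field_simp
    have h4 : (k : ℝ) + 1 ≠ 0 := by positivity
    have e1 : x ^ (2 * k + 3) = x ^ (2 * k + 2) * x := by ring
    have e2 : x ^ (2 * (k + 1) + 2) = x ^ (2 * k + 2) * x ^ 2 := by ring
    have h5 : (1 - x ^ 2) * dG (k + 1) x + x * GN (k + 1) x = gN k x +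
        ww (k + 1) / ((k : ℝ) + 1) * ((1 - x ^ 2) * (1 - (2 * (k : ℝ) + 3) * x ^ (2 * k + 2)) +
          x * (x - x ^ (2 * k + 3))) := by
      rw [← ih, h1, h2]
      ring
    rw [h5]
    unfold gN
    rw [h3, e1, e2]
    have h6 : 2 * (k : ℝ) + 2 ≠ 0 := by positivity
    field_simp
    ring

/-- the sum `∑_{j ≤ k} w_j x^{2j+1}` -/
noncomputable def sg (k : ℕ) (x : ℝ) : ℝ := ∑ j ∈ Finset.range (k + 1), ww j * x ^ (2 * j + 1)

/-- its derivative -/
noncomputable def dsg (k : ℕ) (x : ℝ) : ℝ :=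
  ∑ j ∈ Finset.range (k + 1), ww j * ((2 * (j : ℝ) + 1) * x ^ (2 * j))

/-- `(k+1) β'` -/
noncomputable def bk (k : ℕ) (x : ℝ) : ℝ :=
  ∑ j ∈ Finset.range k, ((k : ℝ) - j) * ww j * x ^ (2 * j + 1)

/-- `(k+1) β''` -/
noncomputable def dbk (k : ℕ) (x : ℝ) : ℝ :=
  ∑ j ∈ Finset.range k, ((k : ℝ) - j) * ww j * ((2 * (j : ℝ) + 1) * x ^ (2 * j))

theorem bk_eq (k : ℕ) (x : ℝ) : ((k : ℝ) + 1) * dB k x = bk k x := by
  unfold dB bk
  rw [Finset.mul_sum]
  refine Finset.sum_congr rfl fun j _ => ?_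
  have : (k : ℝ) + 1 ≠ 0 := by positivity
  field_simp

theorem dbk_eq (k : ℕ) (x : ℝ) : ((k : ℝ) + 1) * ddB k x = dbk k x := by
  unfold ddB dbk
  rw [Finset.mul_sum]
  refine Finset.sum_congr rfl fun j _ => ?_
  have : (k : ℝ) + 1 ≠ 0 := by positivity
  field_simp

theorem bk_succ (k : ℕ) (x : ℝ) : bk (k + 1) x = bk k x + sg k x := by
  have h : bk k x = ∑ j ∈ Finset.range (k + 1), ((k : ℝ) - j) * ww j * x ^ (2 * j + 1) := by
    rw [Finset.sum_range_succ, sub_self, zero_mul, zero_mul, add_zero]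
    rfl
  rw [h]
  unfold bk sg
  rw [← Finset.sum_add_distrib]
  refine Finset.sum_congr rfl fun j _ => ?_
  push_cast
  ring

theorem dbk_succ (k : ℕ) (x : ℝ) : dbk (k + 1) x = dbk k x + dsg k x := by
  have h : dbk k x = ∑ j ∈ Finset.range (k + 1), ((k : ℝ) - j) * ww j *
      ((2 * (j : ℝ) + 1) * x ^ (2 * j)) := by
    rw [Finset.sum_range_succ, sub_self, zero_mul, zero_mul, add_zero]
    rfl
  rw [h]
  unfold dbk dsg
  rw [← Finset.sum_add_distrib]
  refine Finset.sum_congr rfl fun j _ => ?_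
  push_cast
  ring

theorem S_eq (k : ℕ) (x : ℝ) : dG k x + 3 * x * sg k x - (1 - x ^ 2) * dsg k x =
    1 - 2 * ww k + (2 * (k : ℝ) + 4) * ww k * x ^ (2 * k + 2) := by
  induction k with
  | zero =>
    simp [dG, sg, dsg, ww]
    ring
  | succ k ih =>
    have h1 : dG (k + 1) x = dG k x +
        ww (k + 1) / ((k : ℝ) + 1) * (1 - (2 * (k : ℝ) + 3) * x ^ (2 * k + 2)) := by
      unfold dG
      rw [Finset.sum_range_succ]
    have h2 : sg (k + 1) x = sg k x + ww (k + 1) * x ^ (2 * k + 3) := by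
      unfold sg
      rw [Finset.sum_range_succ _ (k + 1)]
      congr 2
    have h3 : dsg (k + 1) x = dsg k x + ww (k + 1) * ((2 * (k : ℝ) + 3) * x ^ (2 * k + 2)) := by
      unfold dsg
      rw [Finset.sum_range_succ _ (k + 1)]
      congr 2
      push_cast
      ring
    have h4 : ww k = ww (k + 1) * (2 * (k : ℝ) + 3) / (2 * (k : ℝ) + 2) := by
      rw [ww_succ]
      have : 2 * (k : ℝ) + 2 ≠ 0 := by positivity
      field_simp
    have h5 : dG (k + 1) x + 3 * x * sg (k + 1) x - (1 - x ^ 2) * dsg (k + 1) x =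
        (1 - 2 * ww k + (2 * (k : ℝ) + 4) * ww k * x ^ (2 * k + 2)) +
        (ww (k + 1) / ((k : ℝ) + 1) * (1 - (2 * (k : ℝ) + 3) * x ^ (2 * k + 2)) +
          3 * x * (ww (k + 1) * x ^ (2 * k + 3)) -
          (1 - x ^ 2) * (ww (k + 1) * ((2 * (k : ℝ) + 3) * x ^ (2 * k + 2)))) := by
      rw [← ih, h1, h2, h3]
      ring
    rw [h5, h4]
    push_cast
    have e1 : x ^ (2 * k + 3) = x ^ (2 * k + 2) * x := by ring
    have e2 : x ^ (2 * (k + 1) + 2) = x ^ (2 * k + 2) * x ^ 2 := by ring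
    rw [e1, e2]
    have h6 : 2 * (k : ℝ) + 2 ≠ 0 := by positivity
    have h7 : (k : ℝ) + 1 ≠ 0 := by positivity
    field_simp
    ring

theorem P_eq (k : ℕ) (x : ℝ) : ((k : ℝ) + 1) * dG k x + 3 * x * bk k x - (1 - x ^ 2) * dbk k x =
    (2 - 2 * ww k) * ((k : ℝ) + 1) - k := by
  induction k with
  | zero =>
    simp [dG, bk, dbk, ww]
  | succ k ih =>
    have h1 : dG (k + 1) x = dG k x +
        ww (k + 1) / ((k : ℝ) + 1) * (1 - (2 * (k : ℝ) + 3) * x ^ (2 * k + 2)) := by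
      unfold dG
      rw [Finset.sum_range_succ]
    have hS := S_eq k x
    have h4 : ww k = ww (k + 1) * (2 * (k : ℝ) + 3) / (2 * (k : ℝ) + 2) := by
      rw [ww_succ]
      have : 2 * (k : ℝ) + 2 ≠ 0 := by positivity
      field_simp
    have h5 : (((k + 1 : ℕ) : ℝ) + 1) * dG (k + 1) x + 3 * x * bk (k + 1) x -
        (1 - x ^ 2) * dbk (k + 1) x = ((2 - 2 * ww k) * ((k : ℝ) + 1) - k) +
        (1 - 2 * ww k + (2 * (k : ℝ) + 4) * ww k * x ^ (2 * k + 2)) +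
        ((k : ℝ) + 2) * (ww (k + 1) / ((k : ℝ) + 1) *
          (1 - (2 * (k : ℝ) + 3) * x ^ (2 * k + 2))) := by
      rw [← ih, ← hS, bk_succ, dbk_succ, h1]
      push_cast
      ring
    rw [h5, h4]
    push_cast
    have h6 : 2 * (k : ℝ) + 2 ≠ 0 := by positivity
    have h7 : (k : ℝ) + 1 ≠ 0 := by positivity
    field_simp
    ring

theorem E2 (k : ℕ) (x : ℝ) : dG k x + 3 * x * dB k x - (1 - x ^ 2) * ddB k x =
    2 - 2 * ww k - k / ((k : ℝ) + 1) := by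
  have h := P_eq k x
  rw [← bk_eq, ← dbk_eq] at h
  have h7 : (k : ℝ) + 1 ≠ 0 := by positivity
  have h8 : ((k : ℝ) + 1) * (dG k x + 3 * x * dB k x - (1 - x ^ 2) * ddB k x) =
      ((k : ℝ) + 1) * (2 - 2 * ww k - k / ((k : ℝ) + 1)) := by
    rw [mul_sub ((k : ℝ) + 1) (2 - 2 * ww k), mul_div_cancel₀ _ h7]
    linarith
  exact mul_left_cancel₀ h7 h8

/-! ### the identity -/

theorem H1 (hH : SpecHHA) (k : ℕ) (a b : ℝ) :
    (a - b) * ((GN k a - a * dG k a) - (GN k b - b * dG k b)) =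
      2 * ((a - b) ^ 2 * ∑ j ∈ Finset.range k, ww (j + 1) * hh (2 * j + 2) a b) := by
  have h : ∀ x, GN k x - x * dG k x = 2 * ∑ j ∈ Finset.range k, ww (j + 1) * x ^ (2 * j + 3) := by
    intro x
    unfold GN dG
    rw [Finset.mul_sum, Finset.mul_sum, ← Finset.sum_sub_distrib]
    refine Finset.sum_congr rfl fun j _ => ?_
    have h7 : (j : ℝ) + 1 ≠ 0 := by positivity
    field_simp
    ring
  have h2 : (a - b) * ((∑ j ∈ Finset.range k, ww (j + 1) * a ^ (2 * j + 3)) -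
      ∑ j ∈ Finset.range k, ww (j + 1) * b ^ (2 * j + 3)) =
      (a - b) ^ 2 * ∑ j ∈ Finset.range k, ww (j + 1) * hh (2 * j + 2) a b := by
    rw [← Finset.sum_sub_distrib, Finset.mul_sum, Finset.mul_sum]
    refine Finset.sum_congr rfl fun j _ => ?_
    have h1 := hH.1 (2 * j + 2) a b
    have e : 2 * j + 2 + 1 = 2 * j + 3 := rfl
    rw [e] at h1
    calc (a - b) * (ww (j + 1) * a ^ (2 * j + 3) - ww (j + 1) * b ^ (2 * j + 3)) =
        (a - b) * ww (j + 1) * (a ^ (2 * j + 3) - b ^ (2 * j + 3)) := by ring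
      _ = _ := by rw [← h1]; ring
  rw [h, h, ← h2]
  ring

theorem H2 (hH : SpecHHA) (k : ℕ) (a b : ℝ) :
    (a - b) * (a * dB k a - b * dB k b) = (a - b) ^ 2 * ∑ j ∈ Finset.range k,
      ((k : ℝ) - j) / ((k : ℝ) + 1) * ww j * hh (2 * j + 1) a b := by
  unfold dB
  rw [Finset.mul_sum, Finset.mul_sum, ← Finset.sum_sub_distrib, Finset.mul_sum, Finset.mul_sum]
  refine Finset.sum_congr rfl fun j _ => ?_
  have h1 := hH.1 (2 * j + 1) a b
  have ea : a ^ (2 * j + 1 + 1) = a * a ^ (2 * j + 1) := by ring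
  have eb : b ^ (2 * j + 1 + 1) = b * b ^ (2 * j + 1) := by ring
  rw [ea, eb] at h1
  calc _ = (a - b) * (((k : ℝ) - j) / ((k : ℝ) + 1) * ww j) *
        (a * a ^ (2 * j + 1) - b * b ^ (2 * j + 1)) := by ring
    _ = _ := by rw [← h1]; ring

theorem H3 (hH : SpecHHA) (k : ℕ) (a b : ℝ) :
    (a - b) * (dB k a - dB k b) = (a - b) ^ 2 * ∑ j ∈ Finset.range k,
      ((k : ℝ) - j) / ((k : ℝ) + 1) * ww j * hh (2 * j) a b := by
  unfold dB
  rw [← Finset.sum_sub_distrib, Finset.mul_sum, Finset.mul_sum]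
  refine Finset.sum_congr rfl fun j _ => ?_
  have h1 := hH.1 (2 * j) a b
  calc _ = (a - b) * (((k : ℝ) - j) / ((k : ℝ) + 1) * ww j) *
        (a ^ (2 * j + 1) - b ^ (2 * j + 1)) := by ring
    _ = _ := by rw [← h1]; ring

theorem H4 (hH : SpecHHA) (k : ℕ) (a b : ℝ) :
    a * (GN k b - GN k a + (a - b) * dG k a) = -((a - b) ^ 2 * ∑ j ∈ Finset.range k,
      ww (j + 1) / ((j : ℝ) + 1) * NN (2 * j + 2) a b) := by
  unfold GN dG
  rw [← Finset.sum_sub_distrib, Finset.mul_sum, ← Finset.sum_add_distrib, Finset.mul_sum,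
    Finset.mul_sum, ← Finset.sum_neg_distrib]
  refine Finset.sum_congr rfl fun j _ => ?_
  have h1 := hH.1 (2 * j + 2) a b
  have h2 := hH.2.1 (2 * j + 2) a b
  have h3 : (a - b) ^ 2 * NN (2 * j + 2) a b = (2 * (j : ℝ) + 3) * a ^ (2 * j + 3) * (a - b) -
      a * (a ^ (2 * j + 3) - b ^ (2 * j + 3)) := by
    have e : 2 * j + 2 + 1 = 2 * j + 3 := rfl
    rw [e] at h1 h2
    push_cast at h2
    calc (a - b) ^ 2 * NN (2 * j + 2) a b = (a - b) * ((a - b) * NN (2 * j + 2) a b) := by ring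
      _ = (2 * (j : ℝ) + 3) * a ^ (2 * j + 3) * (a - b) -
          a * ((a - b) * hh (2 * j + 2) a b) := by rw [h2]; ring
      _ = _ := by rw [h1]
  calc _ = ww (j + 1) / ((j : ℝ) + 1) * (a * (a ^ (2 * j + 3) - b ^ (2 * j + 3)) -
        (2 * (j : ℝ) + 3) * a ^ (2 * j + 3) * (a - b)) := by ring
    _ = _ := by
      have h4 : (a - b) ^ 2 * (ww (j + 1) / ((j : ℝ) + 1) * NN (2 * j + 2) a b) =
        ww (j + 1) / ((j : ℝ) + 1) * ((a - b) ^ 2 * NN (2 * j + 2) a b) := by ring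
      rw [h4, h3]
      ring

theorem T1_eq (k : ℕ) (c0 a b p q c : ℝ) : T1 k c0 a b p q c =
    c0 * (∑ j ∈ Finset.range k, ww (j + 1) * hh (2 * j + 2) a b) -
    p / 2 * (∑ j ∈ Finset.range k, ww (j + 1) / ((j : ℝ) + 1) * NN (2 * j + 2) a b) -
    q / 2 * (∑ j ∈ Finset.range k, ww (j + 1) / ((j : ℝ) + 1) * NN (2 * j + 2) b a) +
    (p + q) / 2 * (∑ j ∈ Finset.range k,
      ((k : ℝ) - j) / ((k : ℝ) + 1) * ww j * hh (2 * j) a b) -
    c * (∑ j ∈ Finset.range k, ((k : ℝ) - j) / ((k : ℝ) + 1) * ww j * hh (2 * j + 1) a b) := by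
  unfold T1
  simp only [Finset.mul_sum]
  rw [← Finset.sum_sub_distrib, ← Finset.sum_sub_distrib, ← Finset.sum_add_distrib,
    ← Finset.sum_add_distrib, ← Finset.sum_sub_distrib]
  refine Finset.sum_congr rfl fun j _ => ?_
  have h1 : (j : ℝ) + 1 ≠ 0 := by positivity
  have h2 : (k : ℝ) + 1 ≠ 0 := by positivity
  field_simp
  ring

theorem idn (hH : SpecHHA) (k : ℕ) (c0 a b p q c : ℝ) :
    XX k c0 a b p q c + XX k c0 b a q p c = 2 * TT k c0 a b p q c := by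
  unfold TT
  rw [T1_eq]
  have e1a := E1 k a
  have e1b := E1 k b
  have e2a := E2 k a
  have e2b := E2 k b
  have h1 := H1 hH k a b
  have h2 := H2 hH k a b
  have h3 := H3 hH k a b
  have h4 := H4 hH k a b
  have h4' := H4 hH k b a
  unfold XX AN CN dA dC
  linear_combination (-(c0 - p)) * e1a + (-(c0 - q)) * e1b + ((q - p) * (1 - a * b)) * e2a +
    ((p - q) * (1 - a * b)) * e2b + c0 * h1 - 2 * c * h2 + (p + q) * h3 + p * h4 + q * h4'

end ALGM

open ALGM in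
theorem specALG (hHHA : SpecHHA) : SpecALG where
  derG := derG
  derA := derA
  derB := derB
  derC := derC
  cont := fun k => ⟨contG k, contA k, contdB k, contC k⟩
  bnd := bndAll
  parX := parX
  idn := idn hHHA

end Pool.Agent.Lib.MP_084b88_gt.SY
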