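import Pool.Agent.Lib.MP_084b88_gt.SY.Spec

/-!
# MP_084b88_gt, project SY: module HHA
-/

set_option autoImplicit false

open MeasureTheory Set Real Filter Topology
open scoped Pointwise InnerProductSpace

namespace Pool.Agent.Lib.MP_084b88_gt.SY

open Pool.Agent.Lib.MP_084b88_gt.CW

namespace HHAM

theorem one (n : ℕ) (a b : ℝ) : (a - b) * hh n a b = a ^ (n + 1) - b ^ (n + 1) := by
  have h := geom_sum₂_mul a b (n + 1)
  rw [mul_comm] at h
  exact h

theorem hh_succ (n : ℕ) (a b : ℝ) : hh (n + 1) a b = b * hh n a b + a ^ (n + 1) := by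
  unfold hh
  rw [Finset.sum_range_succ _ (n + 1), Finset.mul_sum, Nat.sub_self, pow_zero, mul_one]
  congr 1
  refine Finset.sum_congr rfl fun i hi => ?_
  have hi' := Finset.mem_range.1 hi
  have h : n + 1 - i = (n - i) + 1 := by omega
  rw [h, pow_succ]
  ring

theorem NN_succ (n : ℕ) (a b : ℝ) :
    NN (n + 1) a b = b * NN n a b + ((n : ℝ) + 1) * a ^ (n + 1) := by
  unfold NN
  rw [Finset.sum_range_succ _ (n + 1), Finset.mul_sum, Nat.sub_self, pow_zero, mul_one]
  push_cast
  congr 1
  refine Finset.sum_congr rfl fun i hi => ?_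
  have hi' := Finset.mem_range.1 hi
  have h : n + 1 - i = (n - i) + 1 := by omega
  rw [h, pow_succ]
  ring

theorem two (n : ℕ) (a b : ℝ) :
    (a - b) * NN n a b = ((n : ℝ) + 1) * a ^ (n + 1) - a * hh n a b := by
  induction n with
  | zero => simp [NN, hh]
  | succ n ih =>
    rw [NN_succ, hh_succ]
    push_cast
    have h := ih
    calc (a - b) * (b * NN n a b + ((n : ℝ) + 1) * a ^ (n + 1)) =
        b * ((a - b) * NN n a b) + (a - b) * (((n : ℝ) + 1) * a ^ (n + 1)) := by ring
      _ = _ := by rw [h]; ring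

theorem three (n : ℕ) (a b : ℝ) : hh n b a = hh n a b := by
  unfold hh
  rw [← Finset.sum_range_reflect (fun i => a ^ i * b ^ (n - i))]
  refine Finset.sum_congr rfl fun i hi => ?_
  have hi' := Finset.mem_range.1 hi
  have h1 : n + 1 - 1 - i = n - i := by omega
  have h2 : n - (n - i) = i := by omega
  rw [h1, h2, mul_comm]

theorem four (n : ℕ) (a b : ℝ) : NN n a b + NN n b a = n * hh n a b := by
  have h : NN n b a = ∑ i ∈ Finset.range (n + 1), ((n : ℝ) - i) * (a ^ i * b ^ (n - i)) := by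
    unfold NN
    rw [← Finset.sum_range_reflect (fun i => ((n : ℝ) - i) * (a ^ i * b ^ (n - i)))]
    refine Finset.sum_congr rfl fun i hi => ?_
    have hi' := Finset.mem_range.1 hi
    have h1 : n + 1 - 1 - i = n - i := by omega
    have h2 : n - (n - i) = i := by omega
    rw [h1, h2, Nat.cast_sub (by omega), mul_comm (a ^ (n - i))]
    ring
  rw [h]
  unfold NN hh
  rw [← Finset.sum_add_distrib, Finset.mul_sum]
  refine Finset.sum_congr rfl fun i _ => ?_
  ring

theorem neg_term (m i : ℕ) (hi : i ≤ m) (a b : ℝ) :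
    (-a) ^ i * (-b) ^ (m - i) = (-1) ^ m * (a ^ i * b ^ (m - i)) := by
  have h : m = i + (m - i) := by omega
  rw [neg_pow a i, neg_pow b (m - i)]
  conv_rhs => rw [h, pow_add]
  have h2 : i + (m - i) - i = m - i := by omega
  rw [h2]
  ring

theorem hh_neg (m : ℕ) (a b : ℝ) : hh m (-a) (-b) = (-1) ^ m * hh m a b := by
  unfold hh
  rw [Finset.mul_sum]
  refine Finset.sum_congr rfl fun i hi => ?_
  exact neg_term m i (by have := Finset.mem_range.1 hi; omega) a b

theorem NN_neg (m : ℕ) (a b : ℝ) : NN m (-a) (-b) = (-1) ^ m * NN m a b := by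
  unfold NN
  rw [Finset.mul_sum]
  refine Finset.sum_congr rfl fun i hi => ?_
  rw [neg_term m i (by have := Finset.mem_range.1 hi; omega) a b]
  ring

end HHAM

open HHAM in
theorem specHHA : SpecHHA := by
  refine ⟨one, two, three, four, fun n a b => ⟨?_, ?_, ?_⟩⟩
  · rw [hh_neg, pow_mul]
    norm_num
  · rw [NN_neg, pow_mul]
    norm_num
  · rw [hh_neg, pow_succ, pow_mul]
    norm_num

end Pool.Agent.Lib.MP_084b88_gt.SY
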