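import Pool.Agent.Lib.MP_084b88_gt.SY.Spec

/-!
# MP_084b88_gt, project SY, module HHB: inequalities for `h_n`, `N_n`
-/

set_option autoImplicit false

open MeasureTheory Set Real Filter Topology
open scoped Pointwise InnerProductSpace

namespace Pool.Agent.Lib.MP_084b88_gt.SY

open Pool.Agent.Lib.MP_084b88_gt.CW

namespace HHBM

theorem hh_self (n : ℕ) (a : ℝ) : hh n a a = ((n : ℝ) + 1) * a ^ n := by
  unfold hh
  have : ∀ i ∈ Finset.range (n + 1), a ^ i * a ^ (n - i) = a ^ n := by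
    intro i hi
    rw [← pow_add]
    congr 1
    have := Finset.mem_range.1 hi
    omega
  rw [Finset.sum_congr rfl this, Finset.sum_const, Finset.card_range, nsmul_eq_mul]
  push_cast
  ring

theorem nn_zero (n : ℕ) : NN n 0 0 = 0 := by
  unfold NN
  apply Finset.sum_eq_zero
  intro i _
  rcases Nat.eq_zero_or_pos i with h | h
  · simp [h]
  · rw [zero_pow h.ne']
    simp

theorem nonneg_even (hA : SpecHHA) (j : ℕ) (a b : ℝ) : 0 ≤ hh (2 * j) a b := by
  have h1 := hA.1 (2 * j) a b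
  have hodd : Odd (2 * j + 1) := ⟨j, rfl⟩
  rcases lt_trichotomy a b with h | h | h
  · have h2 : a ^ (2 * j + 1) < b ^ (2 * j + 1) := hodd.strictMono_pow h
    by_contra hc
    push Not at hc
    have : 0 < (a - b) * hh (2 * j) a b := mul_pos_of_neg_of_neg (by linarith) hc
    linarith
  · subst h
    rw [hh_self]
    have : 0 ≤ a ^ (2 * j) := (even_two_mul j).pow_nonneg a
    positivity
  · have h2 : b ^ (2 * j + 1) < a ^ (2 * j + 1) := hodd.strictMono_pow h
    by_contra hc
    push Not at hc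
    have : (a - b) * hh (2 * j) a b < 0 := mul_neg_of_pos_of_neg (by linarith) hc
    linarith

theorem nn_nonneg (hA : SpecHHA) (j : ℕ) (a b : ℝ) (hab : 0 ≤ a * b) :
    0 ≤ NN (2 * j + 2) a b := by
  have key : ∀ x y : ℝ, 0 ≤ x → 0 ≤ y → 0 ≤ NN (2 * j + 2) x y := by
    intro x y hx hy
    unfold NN
    apply Finset.sum_nonneg
    intro i _
    positivity
  rcases mul_nonneg_iff.1 hab with h | h
  · exact key a b h.1 h.2
  · have h2 := (hA.2.2.2.2 (j + 1) a b).2.1
    have h3 : 2 * (j + 1) = 2 * j + 2 := by ring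
    rw [h3] at h2
    rw [← h2]
    exact key _ _ (by linarith) (by linarith)

theorem int_eq (hA : SpecHHA) (n : ℕ) (a b : ℝ) :
    hh n a b / ((n : ℝ) + 1) = ∫ t in (0 : ℝ)..1, (t * a + (1 - t) * b) ^ n := by
  have hn : ((n : ℝ) + 1) ≠ 0 := by positivity
  by_cases hab : a = b
  · subst hab
    rw [hh_self]
    have : ∀ t : ℝ, (t * a + (1 - t) * a) ^ n = a ^ n := by
      intro t
      congr 1
      ring
    simp only [this]
    rw [intervalIntegral.integral_const, sub_zero, one_smul]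
    field_simp
  · have h1 := hA.1 n a b
    have hd : ∀ t ∈ Set.uIcc (0 : ℝ) 1, HasDerivAt (fun t : ℝ => (t * a + (1 - t) * b) ^ (n + 1))
        (((n : ℝ) + 1) * (a - b) * (t * a + (1 - t) * b) ^ n) t := by
      intro t _
      have h2 : HasDerivAt (fun t : ℝ => t * a + (1 - t) * b) (a - b) t := by
        have h3 := ((hasDerivAt_id t).mul_const a).add
          (((hasDerivAt_id t).const_sub 1).mul_const b)
        have h4 : (1 : ℝ) * a + -1 * b = a - b := by ring
        rw [h4] at h3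
        exact h3
      have h5 := h2.pow (n + 1)
      have h6 : ((n + 1 : ℕ) : ℝ) * (t * a + (1 - t) * b) ^ (n + 1 - 1) * (a - b) =
          ((n : ℝ) + 1) * (a - b) * (t * a + (1 - t) * b) ^ n := by
        rw [Nat.add_sub_cancel]
        push_cast
        ring
      rw [← h6]
      exact h5
    have h2 := intervalIntegral.integral_eq_sub_of_hasDerivAt hd
      (Continuous.intervalIntegrable (by fun_prop) _ _)
    rw [intervalIntegral.integral_const_mul] at h2
    have h3 : (1 * a + (1 - 1) * b) ^ (n + 1) - (0 * a + (1 - 0) * b) ^ (n + 1) =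
        a ^ (n + 1) - b ^ (n + 1) := by ring_nf
    rw [h3, ← h1] at h2
    have h4 : a - b ≠ 0 := sub_ne_zero.2 hab
    have h5 : ((n : ℝ) + 1) * ∫ t in (0 : ℝ)..1, (t * a + (1 - t) * b) ^ n = hh n a b := by
      apply mul_left_cancel₀ h4
      rw [← h2]
      ring
    rw [← h5, mul_div_cancel_left₀ _ hn]

theorem odd_le (hA : SpecHHA) (j : ℕ) (a b : ℝ) :
    |hh (2 * j + 1) a b| / ((j : ℝ) + 1) ≤
      hh (2 * j) a b / (2 * (j : ℝ) + 1) + hh (2 * j + 2) a b / (2 * (j : ℝ) + 3) := by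
  have e0 := int_eq hA (2 * j) a b
  have e1 := int_eq hA (2 * j + 1) a b
  have e2 := int_eq hA (2 * j + 2) a b
  push_cast at e0 e1 e2
  have e2' : hh (2 * j + 2) a b / (2 * (j : ℝ) + 3) =
      ∫ t in (0 : ℝ)..1, (t * a + (1 - t) * b) ^ (2 * j + 2) := by
    rw [← e2]
    congr 1
    ring
  rw [e0, e2']
  have hi : ∀ n : ℕ, IntervalIntegrable (fun t : ℝ => (t * a + (1 - t) * b) ^ n) volume 0 1 :=
    fun n => Continuous.intervalIntegrable (by fun_prop) _ _
  have hj : (0 : ℝ) < (j : ℝ) + 1 := by positivity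
  have e1' : |hh (2 * j + 1) a b| / ((j : ℝ) + 1) =
      2 * |∫ t in (0 : ℝ)..1, (t * a + (1 - t) * b) ^ (2 * j + 1)| := by
    rw [← e1, abs_div, abs_of_pos (by positivity : (0 : ℝ) < 2 * (j : ℝ) + 1 + 1)]
    field_simp
    ring
  rw [e1', ← intervalIntegral.integral_add (hi _) (hi _)]
  have key : ∀ s : ℝ, (s = 1 ∨ s = -1) →
      2 * (s * ∫ t in (0 : ℝ)..1, (t * a + (1 - t) * b) ^ (2 * j + 1)) ≤
      ∫ t in (0 : ℝ)..1, ((t * a + (1 - t) * b) ^ (2 * j) +
        (t * a + (1 - t) * b) ^ (2 * j + 2)) := by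
    intro s hs
    rw [← mul_assoc, ← intervalIntegral.integral_const_mul]
    apply intervalIntegral.integral_mono_on (by norm_num) ((hi _).const_mul _)
      ((hi _).add (hi _))
    intro t _
    set x := t * a + (1 - t) * b
    have h1 : 0 ≤ x ^ (2 * j) := (even_two_mul j).pow_nonneg x
    have h2 : x ^ (2 * j + 1) = x ^ (2 * j) * x := pow_succ _ _
    have h3 : x ^ (2 * j + 2) = x ^ (2 * j) * x ^ 2 := pow_add _ _ _
    rw [h2, h3]
    rcases hs with hs | hs
    · rw [hs]
      nlinarith [mul_nonneg h1 (sq_nonneg (1 - x))]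
    · rw [hs]
      nlinarith [mul_nonneg h1 (sq_nonneg (1 + x))]
  rcases abs_cases (∫ t in (0 : ℝ)..1, (t * a + (1 - t) * b) ^ (2 * j + 1)) with h | h
  · rw [h.1]
    have := key 1 (Or.inl rfl)
    linarith
  · rw [h.1]
    have := key (-1) (Or.inr rfl)
    linarith

/-- the two cases of opposite signs -/
theorem opp_abs (hA : SpecHHA) (j : ℕ) (a r : ℝ) (ha : 0 ≤ a) (hr : 0 ≤ r) (ha1 : a ≤ 1)
    (hr1 : r ≤ 1) : |hh (2 * j + 1) a (-r)| ≤ hh (2 * j) a (-r) := by
  have h0 := hA.1 (2 * j) a (-r)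
  have h1 := hA.1 (2 * j + 1) a (-r)
  have hodd : Odd (2 * j + 1) := ⟨j, rfl⟩
  have hev : Even (2 * j + 1 + 1) := ⟨j + 1, by ring⟩
  rw [hodd.neg_pow] at h0
  rw [hev.neg_pow] at h1
  rcases eq_or_lt_of_le (add_nonneg ha hr) with h | h
  · have ha0 : a = 0 := by linarith
    have hr0 : r = 0 := by linarith
    subst ha0 hr0
    rw [neg_zero, hh_self, hh_self, zero_pow (by omega : 2 * j + 1 ≠ 0)]
    simp only [mul_zero, abs_zero]
    positivity
  · have e0 : (a + r) * hh (2 * j) a (-r) = a ^ (2 * j + 1) + r ^ (2 * j + 1) := by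
      rw [sub_neg_eq_add] at h0
      linarith
    have e1 : (a + r) * hh (2 * j + 1) a (-r) = a ^ (2 * j + 2) - r ^ (2 * j + 2) := by
      rw [sub_neg_eq_add] at h1
      exact h1
    have p0 : 0 ≤ a ^ (2 * j + 1) := by positivity
    have p1 : 0 ≤ r ^ (2 * j + 1) := by positivity
    have p2 : a ^ (2 * j + 2) = a ^ (2 * j + 1) * a := pow_succ _ _
    have p3 : r ^ (2 * j + 2) = r ^ (2 * j + 1) * r := pow_succ _ _
    have q2 : a ^ (2 * j + 2) ≤ a ^ (2 * j + 1) := by
      rw [p2]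
      nlinarith
    have q3 : r ^ (2 * j + 2) ≤ r ^ (2 * j + 1) := by
      rw [p3]
      nlinarith
    have q4 : 0 ≤ a ^ (2 * j + 2) := by positivity
    have q5 : 0 ≤ r ^ (2 * j + 2) := by positivity
    have h2 : (a + r) * |hh (2 * j + 1) a (-r)| ≤ (a + r) * hh (2 * j) a (-r) := by
      rw [← abs_of_pos h, ← abs_mul, abs_of_pos h, e1, e0, abs_le]
      constructor <;> linarith
    exact le_of_mul_le_mul_left h2 h

theorem opp_nn (hA : SpecHHA) (j : ℕ) (a r : ℝ) (ha : 0 ≤ a) (hr : 0 ≤ r) :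
    -(NN (2 * j + 2) a (-r)) ≤ ((j : ℝ) + 1) / 2 * hh (2 * j + 2) a (-r) := by
  have hh0 : 0 ≤ hh (2 * j + 2) a (-r) := nonneg_even hA (j + 1) a (-r)
  have hj : (0 : ℝ) ≤ j := Nat.cast_nonneg j
  rcases eq_or_lt_of_le (add_nonneg ha hr) with h | h
  · have ha0 : a = 0 := by linarith
    have hr0 : r = 0 := by linarith
    subst ha0 hr0
    rw [neg_zero, nn_zero] at *
    rw [neg_zero]
    positivity
  · have h0 := hA.1 (2 * j + 2) a (-r)
    have h1 := hA.2.1 (2 * j + 2) a (-r)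
    have hodd : Odd (2 * j + 2 + 1) := ⟨j + 1, by ring⟩
    rw [hodd.neg_pow, sub_neg_eq_add, sub_neg_eq_add] at h0
    rw [sub_neg_eq_add] at h1
    push_cast at h1
    have hp : 0 ≤ a ^ (2 * j + 2 + 1) := by positivity
    have goal : (a + r) * -(NN (2 * j + 2) a (-r)) ≤
        (a + r) * (((j : ℝ) + 1) / 2 * hh (2 * j + 2) a (-r)) := by
      have e1 : (a + r) * -(NN (2 * j + 2) a (-r)) =
          a * hh (2 * j + 2) a (-r) - (2 * (j : ℝ) + 2 + 1) * a ^ (2 * j + 2 + 1) := by
        linarith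
      rw [e1]
      rcases le_or_gt a r with har | har
      · have h2 : a * hh (2 * j + 2) a (-r) ≤ (a + r) / 2 * hh (2 * j + 2) a (-r) :=
          mul_le_mul_of_nonneg_right (by linarith) hh0
        have h3 : 0 ≤ (2 * (j : ℝ) + 2 + 1) * a ^ (2 * j + 2 + 1) := by positivity
        have h4 : 0 ≤ (a + r) * (j / 2 * hh (2 * j + 2) a (-r)) := by positivity
        nlinarith
      · have h2 : r ^ (2 * j + 2 + 1) ≤ a ^ (2 * j + 2 + 1) :=
          pow_le_pow_left₀ hr har.le _
        have h3 : a * hh (2 * j + 2) a (-r) ≤ (a + r) * hh (2 * j + 2) a (-r) :=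
          mul_le_mul_of_nonneg_right (by linarith) hh0
        have h4 : 0 ≤ (a + r) * (((j : ℝ) + 1) / 2 * hh (2 * j + 2) a (-r)) := by positivity
        have h5 : 0 ≤ (j : ℝ) * a ^ (2 * j + 2 + 1) := by positivity
        nlinarith
    exact le_of_mul_le_mul_left goal h

end HHBM

theorem specHHB (hA : SpecHHA) : SpecHHB := by
  refine ⟨HHBM.nonneg_even hA, HHBM.nn_nonneg hA, fun j a b _ => HHBM.odd_le hA j a b, ?_, ?_⟩
  · intro j a b ha hb hab
    rw [abs_le] at ha hb
    rcases mul_nonpos_iff.1 hab with h | h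
    · have := HHBM.opp_abs hA j a (-b) h.1 (by linarith) ha.2 (by linarith)
      rwa [neg_neg] at this
    · have h1 := HHBM.opp_abs hA j (-a) b (by linarith) h.2 (by linarith) hb.2
      have h2 := hA.2.2.2.2 j a b
      rw [h2.1, h2.2.2, abs_neg] at h1
      exact h1
  · intro j a b hab
    rcases mul_nonpos_iff.1 hab with h | h
    · have := HHBM.opp_nn hA j a (-b) h.1 (by linarith)
      rwa [neg_neg] at this
    · have h1 := HHBM.opp_nn hA j (-a) b (by linarith) h.2
      have h2 := hA.2.2.2.2 (j + 1) a b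
      have h3 : 2 * (j + 1) = 2 * j + 2 := by ring
      rw [h3] at h2
      rw [h2.1, h2.2.1] at h1
      exact h1

end Pool.Agent.Lib.MP_084b88_gt.SY
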