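import Pool.Agent.Lib.MP_084b88_gt.SY.Spec

/-!
# MP_084b88_gt, project SY, module NSZ: null forms have integral zero
-/

set_option autoImplicit false

open MeasureTheory Set Real Filter Topology
open scoped Pointwise InnerProductSpace

namespace Pool.Agent.Lib.MP_084b88_gt.SY

open Pool.Agent.Lib.MP_084b88_gt.CW

namespace NSZM

theorem exists_bd (g : ℝ → ℝ) (hg : Continuous g) : ∃ M : ℝ, ∀ x, |x| ≤ 1 → |g x| ≤ M := by
  obtain ⟨M, hM⟩ := (isCompact_Icc (a := (-1 : ℝ)) (b := 1)).exists_bound_of_continuousOn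
    hg.continuousOn
  refine ⟨M, fun x hx => ?_⟩
  rw [← Real.norm_eq_abs]
  exact hM x (abs_le.1 hx)

/-- the elementary bound -/
theorem ns_le (c0 a b p q c gG' fG' gA' fA' gB' fB' gC' fC' M P K L s : ℝ)
    (ha : |a| ≤ 1) (h1 : 0 ≤ 1 - a * b) (h2 : 1 - a * b ≤ L * s)
    (hp : |p| ≤ P) (hq : |q| ≤ P) (hc : |c| ≤ P)
    (gG1 : |gG'| ≤ M) (gA1 : |gA'| ≤ M) (gB1 : |gB'| ≤ M) (gC1 : |gC'| ≤ M)
    (hK : 0 ≤ K * (L * s))
    (fG1 : |fG'| ≤ K * (L * s)) (fA1 : |fA'| ≤ K * (L * s)) (fB1 : |fB'| ≤ K * (L * s))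
    (fC1 : |fC'| ≤ K * (L * s)) :
    |c0 * ((1 - a * b) * gG' + a * fG') + q * ((1 - a * b) * gA' - a * fA') +
    c * ((1 - a * b) * gB' + 2 * fA') + p * ((1 - a * b) * gC' + fB' + a * fC')| ≤
    ((|c0| + 3 * P) * (L * (M + 2 * K))) * s := by
  have hP : 0 ≤ P := (abs_nonneg _).trans hp
  have e1 : ∀ g : ℝ, |g| ≤ M → |(1 - a * b) * g| ≤ L * s * M := by
    intro g hg
    rw [abs_mul, abs_of_nonneg h1]
    exact mul_le_mul h2 hg (abs_nonneg _) (by linarith)
  have e2 : ∀ f : ℝ, |f| ≤ K * (L * s) → |a * f| ≤ K * (L * s) := by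
    intro f hf
    rw [abs_mul]
    have := mul_le_mul ha hf (abs_nonneg _) zero_le_one
    linarith
  have t1 : |(1 - a * b) * gG' + a * fG'| ≤ L * s * M + 2 * (K * (L * s)) := by
    have := abs_add_le ((1 - a * b) * gG') (a * fG')
    have := e1 _ gG1
    have := e2 _ fG1
    linarith
  have t2 : |(1 - a * b) * gA' - a * fA'| ≤ L * s * M + 2 * (K * (L * s)) := by
    have := abs_sub ((1 - a * b) * gA') (a * fA')
    have := e1 _ gA1
    have := e2 _ fA1
    linarith
  have t3 : |(1 - a * b) * gB' + 2 * fA'| ≤ L * s * M + 2 * (K * (L * s)) := by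
    have h3 := abs_add_le ((1 - a * b) * gB') (2 * fA')
    rw [abs_mul 2, abs_of_pos (two_pos : (0 : ℝ) < 2)] at h3
    have := e1 _ gB1
    linarith
  have t4 : |(1 - a * b) * gC' + fB' + a * fC'| ≤ L * s * M + 2 * (K * (L * s)) := by
    have := abs_add_le ((1 - a * b) * gC' + fB') (a * fC')
    have := abs_add_le ((1 - a * b) * gC') fB'
    have := e1 _ gC1
    have := e2 _ fC1
    linarith
  set T := L * s * M + 2 * (K * (L * s)) with hT
  have hT0 : 0 ≤ T := (abs_nonneg _).trans t1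
  have m : ∀ x y : ℝ, |x| ≤ P → |y| ≤ T → |x * y| ≤ P * T := by
    intro x y hx hy
    rw [abs_mul]
    exact mul_le_mul hx hy (abs_nonneg _) hP
  have u1 : |c0 * ((1 - a * b) * gG' + a * fG')| ≤ |c0| * T := by
    rw [abs_mul]
    exact mul_le_mul_of_nonneg_left t1 (abs_nonneg _)
  have u2 := m q _ hq t2
  have u3 := m c _ hc t3
  have u4 := m p _ hp t4
  have v1 := abs_add_le (c0 * ((1 - a * b) * gG' + a * fG') + q * ((1 - a * b) * gA' - a * fA') +
    c * ((1 - a * b) * gB' + 2 * fA')) (p * ((1 - a * b) * gC' + fB' + a * fC'))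
  have v2 := abs_add_le (c0 * ((1 - a * b) * gG' + a * fG') + q * ((1 - a * b) * gA' - a * fA'))
    (c * ((1 - a * b) * gB' + 2 * fA'))
  have v3 := abs_add_le (c0 * ((1 - a * b) * gG' + a * fG')) (q * ((1 - a * b) * gA' - a * fA'))
  have w : ((|c0| + 3 * P) * (L * (M + 2 * K))) * s = |c0| * T + 3 * (P * T) := by
    rw [hT]
    ring
  rw [w]
  linarith

/-- derivative of the primitive, abstractly -/
theorem prim_der (fG gG fA gA fB gB fC gC E bb qq cc : ℝ → ℝ) (c0 a p ht hs σ x : ℝ)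
    (hht : ht ≠ 0) (hhs : hs ≠ 0) (hσ : σ ≠ 0)
    (dG : HasDerivAt fG (gG (bb x)) (bb x)) (dA : HasDerivAt fA (gA (bb x)) (bb x))
    (dB : HasDerivAt fB (gB (bb x)) (bb x)) (dC : HasDerivAt fC (gC (bb x)) (bb x))
    (hE : E x = hs / (ht * σ)) (e0 : HasDerivAt E (-a / σ ^ 2) x)
    (eb : HasDerivAt bb (-((1 - a * bb x) * ht) / (hs * σ)) x)
    (ec : HasDerivAt cc (-((p - a * cc x) * ht) / (hs * σ)) x)
    (eq : HasDerivAt qq (-(2 * (cc x - a * qq x) * ht) / (hs * σ)) x) :
    HasDerivAt (fun y => E y * (c0 * fG (bb y) + qq y * fA (bb y) + cc y * fB (bb y) +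
      p * fC (bb y))) (-(NS fG gG fA gA fB gB fC gC c0 a (bb x) p (qq x) (cc x) / σ ^ 2)) x := by
  have cG : HasDerivAt (fun y => fG (bb y)) (gG (bb x) * (-((1 - a * bb x) * ht) / (hs * σ))) x :=
    dG.comp x eb
  have cA : HasDerivAt (fun y => fA (bb y)) (gA (bb x) * (-((1 - a * bb x) * ht) / (hs * σ))) x :=
    dA.comp x eb
  have cB : HasDerivAt (fun y => fB (bb y)) (gB (bb x) * (-((1 - a * bb x) * ht) / (hs * σ))) x :=
    dB.comp x eb
  have cC : HasDerivAt (fun y => fC (bb y)) (gC (bb x) * (-((1 - a * bb x) * ht) / (hs * σ))) x :=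
    dC.comp x eb
  have ef : HasDerivAt (fun y => c0 * fG (bb y) + qq y * fA (bb y) + cc y * fB (bb y) +
      p * fC (bb y))
      (c0 * (gG (bb x) * (-((1 - a * bb x) * ht) / (hs * σ))) +
      ((-(2 * (cc x - a * qq x) * ht) / (hs * σ)) * fA (bb x) +
        qq x * (gA (bb x) * (-((1 - a * bb x) * ht) / (hs * σ)))) +
      ((-((p - a * cc x) * ht) / (hs * σ)) * fB (bb x) +
        cc x * (gB (bb x) * (-((1 - a * bb x) * ht) / (hs * σ)))) +
      p * (gC (bb x) * (-((1 - a * bb x) * ht) / (hs * σ)))) x :=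
    (((cG.const_mul c0).add (eq.mul cA)).add (ec.mul cB)).add (cC.const_mul p)
  refine (e0.mul ef).congr_deriv ?_
  rw [hE]
  unfold NS
  generalize bb x = b
  generalize qq x = q
  generalize cc x = c
  generalize gG b = G1
  generalize fG b = G0
  generalize gA b = A1
  generalize fA b = A0
  generalize gB b = B1
  generalize fB b = B0
  generalize gC b = C1
  generalize fC b = C0
  have k1 : hs / (ht * σ) * (ht / (hs * σ)) = 1 / σ ^ 2 := by
    field_simp
  have k2 : ∀ z : ℝ, -(z * ht) / (hs * σ) = -z * (ht / (hs * σ)) := fun z => by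
    rw [← neg_mul, mul_div_assoc]
  simp only [k2]
  have k3 : ∀ z : ℝ, hs / (ht * σ) * (z * (ht / (hs * σ))) = z / σ ^ 2 := fun z => by
    rw [mul_left_comm, k1, mul_one_div]
  have k4 : c0 * (G1 * (-(1 - a * b) * (ht / (hs * σ)))) +
      (-(2 * (c - a * q)) * (ht / (hs * σ)) * A0 + q * (A1 * (-(1 - a * b) * (ht / (hs * σ))))) +
      (-(p - a * c) * (ht / (hs * σ)) * B0 + c * (B1 * (-(1 - a * b) * (ht / (hs * σ))))) +
      p * (C1 * (-(1 - a * b) * (ht / (hs * σ)))) =
      (c0 * (G1 * (-(1 - a * b))) + (-(2 * (c - a * q)) * A0 + q * (A1 * (-(1 - a * b)))) +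
      (-(p - a * c) * B0 + c * (B1 * (-(1 - a * b)))) + p * (C1 * (-(1 - a * b)))) *
      (ht / (hs * σ)) := by ring
  rw [k4, k3]
  ring

end NSZM

open NSZM in
theorem specNSZ (hABR : SpecABR) : SpecNSZ := by
  intro h h1 h2 S A B C c0 K fG gG fA gA fB gB fC gC dG' dA' dB' dC' cG cA cB cC hf
  obtain ⟨ca, cb, cpq, hends, hbb, hader, ⟨L, hL0, hL⟩, hpq, hbder, hsder, hcder, hqder, hsym,
    hper⟩ := hABR h h1 h2 S
  obtain ⟨P, hP⟩ := hpq A B C
  obtain ⟨M1, hM1⟩ := exists_bd gG cG
  obtain ⟨M2, hM2⟩ := exists_bd gA cA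
  obtain ⟨M3, hM3⟩ := exists_bd gB cB
  obtain ⟨M4, hM4⟩ := exists_bd gC cC
  have hK : 0 ≤ K := by
    have := (hf 0 (by simp)).1
    have h3 := abs_nonneg (fG 0)
    norm_num at this
    linarith
  have hM10 : 0 ≤ M1 := (abs_nonneg _).trans (hM1 0 (by simp))
  have hM20 : 0 ≤ M2 := (abs_nonneg _).trans (hM2 0 (by simp))
  have hM30 : 0 ≤ M3 := (abs_nonneg _).trans (hM3 0 (by simp))
  have hM40 : 0 ≤ M4 := (abs_nonneg _).trans (hM4 0 (by simp))
  set M := M1 + M2 + M3 + M4 with hMdef
  have hM0 : 0 ≤ M := by positivity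
  have hP0 : 0 ≤ P := (abs_nonneg _).trans (hP 0 0)
  -- bound of NS
  have key : ∀ t, ∀ α ∈ Icc (0 : ℝ) π, |NS fG gG fA gA fB gB fC gC c0 (aa h h1 t α) (bb h h1 t α)
      (pq A B C h t t) (pq A B C h (t + α) (t + α)) (pq A B C h t (t + α))| ≤
      ((|c0| + 3 * P) * (L * (M + 2 * K))) * sin α ^ 2 := by
    intro t α hα
    obtain ⟨a1, b1, a2, b2, ab⟩ := hL t α hα
    have hb := hf _ b1
    have hfb : ∀ f : ℝ, |f| ≤ K * (1 - bb h h1 t α ^ 2) → |f| ≤ K * (L * sin α ^ 2) :=
      fun f h3 => h3.trans (mul_le_mul_of_nonneg_left b2 hK)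
    have hab : 0 ≤ 1 - aa h h1 t α * bb h h1 t α := by
      have h3 : |aa h h1 t α * bb h h1 t α| ≤ 1 := by
        rw [abs_mul]
        exact mul_le_one₀ a1 (abs_nonneg _) b1
      linarith [(abs_le.1 h3).2]
    unfold NS
    exact ns_le c0 _ _ _ _ _ _ _ _ _ _ _ _ _ M P K L _ a1 hab ab (hP _ _) (hP _ _) (hP _ _)
      ((hM1 _ b1).trans (by linarith)) ((hM2 _ b1).trans (by linarith))
      ((hM3 _ b1).trans (by linarith)) ((hM4 _ b1).trans (by linarith))
      (by positivity) (hfb _ hb.1) (hfb _ hb.2.1) (hfb _ hb.2.2.1) (hfb _ hb.2.2.2)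
  refine ⟨⟨_, key⟩, ?_⟩
  intro t
  have cfG : Continuous fG := continuous_iff_continuousAt.2 fun x => (dG' x).continuousAt
  have cfA : Continuous fA := continuous_iff_continuousAt.2 fun x => (dA' x).continuousAt
  have cfB : Continuous fB := continuous_iff_continuousAt.2 fun x => (dB' x).continuousAt
  have cfC : Continuous fC := continuous_iff_continuousAt.2 fun x => (dC' x).continuousAt
  have ch : Continuous h := continuous_iff_continuousAt.2 fun x => (S.d1 x).continuousAt
  have r1 : Continuous (fun α : ℝ => ((t, α) : ℝ × ℝ)) := by fun_prop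
  have r2 : Continuous (fun α : ℝ => ((t, t + α) : ℝ × ℝ)) := by fun_prop
  have r3 : Continuous (fun α : ℝ => ((t + α, t + α) : ℝ × ℝ)) := by fun_prop
  have r4 : Continuous (fun α : ℝ => t + α) := by fun_prop
  have ca' : Continuous (fun α => aa h h1 t α) := by
    have e := ca.comp r1
    exact e
  have cb' : Continuous (fun α => bb h h1 t α) := by
    have e := cb.comp r1
    exact e
  have cc' : Continuous (fun α => pq A B C h t (t + α)) := by
    have e := (cpq A B C).comp r2
    exact e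
  have cq' : Continuous (fun α => pq A B C h (t + α) (t + α)) := by
    have e := (cpq A B C).comp r3
    exact e
  have ht := S.pos t
  set f : ℝ → ℝ := fun α => c0 * fG (bb h h1 t α) + pq A B C h (t + α) (t + α) * fA (bb h h1 t α) +
    pq A B C h t (t + α) * fB (bb h h1 t α) + pq A B C h t t * fC (bb h h1 t α) with hfdef
  have kfG : Continuous (fun α => fG (bb h h1 t α)) := cfG.comp cb'
  have kfA : Continuous (fun α => fA (bb h h1 t α)) := cfA.comp cb'
  have kfB : Continuous (fun α => fB (bb h h1 t α)) := cfB.comp cb'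
  have kfC : Continuous (fun α => fC (bb h h1 t α)) := cfC.comp cb'
  have kgG : Continuous (fun α => gG (bb h h1 t α)) := cG.comp cb'
  have kgA : Continuous (fun α => gA (bb h h1 t α)) := cA.comp cb'
  have kgB : Continuous (fun α => gB (bb h h1 t α)) := cB.comp cb'
  have kgC : Continuous (fun α => gC (bb h h1 t α)) := cC.comp cb'
  have cf : Continuous f :=
    (((continuous_const.mul kfG).add (cq'.mul kfA)).add (cc'.mul kfB)).add
      (continuous_const.mul kfC)
  set ns : ℝ → ℝ := fun α => NS fG gG fA gA fB gB fC gC c0 (aa h h1 t α) (bb h h1 t α)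
      (pq A B C h t t) (pq A B C h (t + α) (t + α)) (pq A B C h t (t + α)) with hns
  have kab : Continuous (fun α => 1 - aa h h1 t α * bb h h1 t α) :=
    continuous_const.sub (ca'.mul cb')
  have cns : Continuous ns :=
    (((continuous_const.mul ((kab.mul kgG).add (ca'.mul kfG))).add
      (cq'.mul ((kab.mul kgA).sub (ca'.mul kfA)))).add
      (cc'.mul ((kab.mul kgB).add (continuous_const.mul kfA)))).add
      (continuous_const.mul (((kab.mul kgC).add kfB).add (ca'.mul kfC)))
  -- f is bounded by a multiple of sin^2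
  have fbd : ∀ α ∈ Icc (0 : ℝ) π, |f α| ≤ ((|c0| + 3 * P) * (K * L)) * sin α ^ 2 := by
    intro α hα
    obtain ⟨a1, b1, a2, b2, ab⟩ := hL t α hα
    obtain ⟨g1, g2, g3, g4⟩ := hf _ b1
    have hx : K * (1 - bb h h1 t α ^ 2) ≤ K * (L * sin α ^ 2) :=
      mul_le_mul_of_nonneg_left b2 hK
    set T := K * (L * sin α ^ 2) with hT
    have hT0 : 0 ≤ T := by positivity
    have m : ∀ x y : ℝ, |x| ≤ P → |y| ≤ K * (1 - bb h h1 t α ^ 2) → |x * y| ≤ P * T := by
      intro x y hx' hy
      rw [abs_mul]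
      exact mul_le_mul hx' (hy.trans hx) (abs_nonneg _) hP0
    have u1 : |c0 * fG (bb h h1 t α)| ≤ |c0| * T := by
      rw [abs_mul]
      exact mul_le_mul_of_nonneg_left (g1.trans hx) (abs_nonneg _)
    have u2 := m _ _ (hP (t + α) (t + α)) g2
    have u3 := m _ _ (hP t (t + α)) g3
    have u4 := m _ _ (hP t t) g4
    have v1 := abs_add_le (c0 * fG (bb h h1 t α) + pq A B C h (t + α) (t + α) *
      fA (bb h h1 t α) + pq A B C h t (t + α) * fB (bb h h1 t α))
      (pq A B C h t t * fC (bb h h1 t α))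
    have v2 := abs_add_le (c0 * fG (bb h h1 t α) + pq A B C h (t + α) (t + α) *
      fA (bb h h1 t α)) (pq A B C h t (t + α) * fB (bb h h1 t α))
    have v3 := abs_add_le (c0 * fG (bb h h1 t α)) (pq A B C h (t + α) (t + α) *
      fA (bb h h1 t α))
    have w : ((|c0| + 3 * P) * (K * L)) * sin α ^ 2 = |c0| * T + 3 * (P * T) := by
      rw [hT]
      ring
    rw [w]
    show |c0 * fG (bb h h1 t α) + pq A B C h (t + α) (t + α) * fA (bb h h1 t α) +
      pq A B C h t (t + α) * fB (bb h h1 t α) + pq A B C h t t * fC (bb h h1 t α)| ≤ _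
    linarith
  -- the primitive
  set F : ℝ → ℝ := fun α => h (t + α) / (h t * sin α) * f α with hF
  have hFder : ∀ α ∈ Ioo (0 : ℝ) π, HasDerivAt F (-(ns α / sin α ^ 2)) α := by
    intro α hα
    have hsin : 0 < sin α := Real.sin_pos_of_pos_of_lt_pi hα.1 hα.2
    have hs := S.pos (t + α)
    have eb := hbder t α hα
    have ec := hcder A B C t α hα
    have eq := hqder A B C t α hα
    have e0 := hsder t α hα
    have e1 := prim_der fG gG fA gA fB gB fC gC (fun y => h (t + y) / (h t * sin y))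
      (fun y => bb h h1 t y) (fun y => pq A B C h (t + y) (t + y))
      (fun y => pq A B C h t (t + y)) c0 (aa h h1 t α) (pq A B C h t t) (h t) (h (t + α))
      (sin α) α ht.ne' hs.ne' hsin.ne' (dG' _) (dA' _) (dB' _) (dC' _) rfl e0 eb ec eq
    exact e1
  have hG : ContinuousOn (fun α => f α / sin α) (Icc 0 π) := by
    intro x hx
    by_cases hsx : sin x = 0
    · have hbd : ∀ y ∈ Icc (0 : ℝ) π, ‖f y / sin y‖ ≤
          ((|c0| + 3 * P) * (K * L)) * |sin y| := by
        intro y hy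
        rw [Real.norm_eq_abs, abs_div]
        by_cases hsy : sin y = 0
        · rw [hsy]
          simp
        · have hsy' : 0 < |sin y| := abs_pos.2 hsy
          rw [div_le_iff₀ hsy']
          have := fbd y hy
          have h3 : ((|c0| + 3 * P) * (K * L)) * |sin y| * |sin y| =
              ((|c0| + 3 * P) * (K * L)) * sin y ^ 2 := by
            rw [mul_assoc, abs_mul_abs_self]
            ring
          rw [h3]
          exact this
      have h0 : f x / sin x = 0 := by rw [hsx, div_zero]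
      show Tendsto (fun α => f α / sin α) (𝓝[Icc 0 π] x) (𝓝 (f x / sin x))
      rw [h0]
      apply squeeze_zero_norm' (a := fun y => ((|c0| + 3 * P) * (K * L)) * |sin y|)
      · filter_upwards [self_mem_nhdsWithin] with y hy using hbd y hy
      · have h3 : Continuous (fun y : ℝ => ((|c0| + 3 * P) * (K * L)) * |sin y|) := by
          fun_prop
        have h4 := (h3.tendsto x).mono_left (nhdsWithin_le_nhds (s := Icc 0 π))
        rw [hsx, abs_zero, mul_zero] at h4
        exact h4
    · exact (cf.continuousAt.div Real.continuous_sin.continuousAt hsx).continuousWithinAt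
  have hFc : ContinuousOn F (Icc 0 π) := by
    have h3 : F = fun α => (h (t + α) / h t) * (f α / sin α) := by
      funext α
      rw [hF]
      show h (t + α) / (h t * sin α) * f α = (h (t + α) / h t) * (f α / sin α)
      rw [div_mul_div_comm, div_mul_eq_mul_div]
    rw [h3]
    exact ((Continuous.comp ch r4).div_const _).continuousOn.mul hG
  have hint : IntervalIntegrable (fun α => ns α / sin α ^ 2) volume 0 π := by
    rw [intervalIntegrable_iff_integrableOn_Ioc_of_le Real.pi_pos.le]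
    refine Measure.integrableOn_of_bounded (M := (|c0| + 3 * P) * (L * (M + 2 * K))) ?_ ?_ ?_
    · simp
    · exact (cns.measurable.div (Real.continuous_sin.measurable.pow_const 2)).aestronglyMeasurable
    · rw [ae_restrict_iff' measurableSet_Ioc]
      filter_upwards with y hy
      have h3 := key t y ⟨hy.1.le, hy.2⟩
      rw [Real.norm_eq_abs, abs_div, abs_of_nonneg (sq_nonneg (sin y))]
      by_cases hsy : sin y = 0
      · rw [hsy]
        simp
        positivity
      · have h4 : 0 < sin y ^ 2 := by positivity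
        rw [div_le_iff₀ h4]
        exact h3
  have hfin := intervalIntegral.integral_eq_sub_of_hasDerivAt_of_le Real.pi_pos.le hFc hFder
    hint.neg
  have hF0 : F 0 = 0 := by
    rw [hF]
    simp
  have hFp : F π = 0 := by
    rw [hF]
    simp
  rw [hF0, hFp, sub_zero, intervalIntegral.integral_neg, neg_eq_zero] at hfin
  exact hfin

end Pool.Agent.Lib.MP_084b88_gt.SY
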