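import Pool.Agent.Lib.MP_084b88_gt.SY.Spec

/-!
# POS: positivity of the two point kernel
-/

set_option autoImplicit false

open MeasureTheory Set Real Filter Topology
open scoped Pointwise InnerProductSpace

namespace Pool.Agent.Lib.MP_084b88_gt.SY

open Pool.Agent.Lib.MP_084b88_gt.CW

namespace POSM

theorem ww_pos (j : ℕ) : 0 < ww j := by
  unfold ww
  refine Finset.prod_pos fun i _ => ?_
  positivity

theorem ww_succ (j : ℕ) : ww (j + 1) = ww j * (2 * ((j : ℝ) + 1) / (2 * (j : ℝ) + 3)) := by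
  unfold ww
  rw [Finset.prod_range_succ]

theorem abs_c {p q c : ℝ} (hp : 0 ≤ p) (hq : 0 ≤ q) (hc : c ^ 2 ≤ p * q) :
    |2 * c| ≤ p + q := by
  apply abs_le_of_sq_le_sq _ (by linarith)
  nlinarith [sq_nonneg (p - q)]

theorem lin_bound {p q c h h' : ℝ} (hp : 0 ≤ p) (hq : 0 ≤ q) (hc : c ^ 2 ≤ p * q) :
    -((p + q) * (|h'| - h)) ≤ (p + q) * h - 2 * c * h' := by
  have h1 : 2 * c * h' ≤ (p + q) * |h'| := by
    calc 2 * c * h' ≤ |2 * c * h'| := le_abs_self _
      _ = |2 * c| * |h'| := abs_mul _ _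
      _ ≤ (p + q) * |h'| := mul_le_mul_of_nonneg_right (abs_c hp hq hc) (abs_nonneg _)
  linarith

/-- Termwise bound of the first sum, negative case. -/
theorem term1 {c0 p q X Y N H : ℝ} (hc0 : 0 < c0) (hp : 0 ≤ p) (hq : 0 ≤ q)
    (hp' : p ≤ 4 / 5 * c0) (hq' : q ≤ 4 / 5 * c0) (hN : 0 < N) (hH : 0 ≤ H)
    (hXY : X + Y = N * H) (hX : -X ≤ N / 4 * H) (hY : -Y ≤ N / 4 * H) :
    0 ≤ c0 * H - (p * X + q * Y) / N := by
  have hNH : 0 ≤ N * H := by positivity
  have key : p * X + q * Y ≤ c0 * H * N := by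
    have hX' : X ≤ 5 / 4 * (N * H) := by linarith
    have hY' : Y ≤ 5 / 4 * (N * H) := by linarith
    rcases lt_or_ge X 0 with h1 | h1
    · have hY0 : 0 ≤ Y := by linarith
      have e1 : p * X ≤ 0 := by nlinarith
      have e2 : q * Y ≤ 4 / 5 * c0 * (5 / 4 * (N * H)) :=
        mul_le_mul hq' hY' hY0 (by positivity)
      nlinarith
    · rcases lt_or_ge Y 0 with h2 | h2
      · have e1 : q * Y ≤ 0 := by nlinarith
        have e2 : p * X ≤ 4 / 5 * c0 * (5 / 4 * (N * H)) :=
          mul_le_mul hp' hX' h1 (by positivity)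
        nlinarith
      · have e1 : p * X ≤ 4 / 5 * c0 * X := mul_le_mul_of_nonneg_right hp' h1
        have e2 : q * Y ≤ 4 / 5 * c0 * Y := mul_le_mul_of_nonneg_right hq' h2
        have e3 : 4 / 5 * c0 * X + 4 / 5 * c0 * Y = 4 / 5 * c0 * (N * H) := by
          rw [← mul_add, hXY]
        have e4 : 0 ≤ c0 * (N * H) := by positivity
        nlinarith
  rw [sub_nonneg, div_le_iff₀ hN]
  exact key

/-- Termwise bound of the first sum, positive case. -/
theorem term1' {c0 p q P X Y N H : ℝ} (hP : P ≤ 4 / 5 * c0)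
    (hp' : p ≤ P) (hq' : q ≤ P) (hN : 0 < N) (hH : 0 ≤ H)
    (hXY : X + Y = N * H) (hX : 0 ≤ X) (hY : 0 ≤ Y) :
    P / 4 * H ≤ c0 * H - (p * X + q * Y) / N := by
  have key : (p * X + q * Y) / N ≤ P * H := by
    rw [div_le_iff₀ hN]
    have e1 : p * X ≤ P * X := mul_le_mul_of_nonneg_right hp' hX
    have e2 : q * Y ≤ P * Y := mul_le_mul_of_nonneg_right hq' hY
    have e3 : P * X + P * Y = P * (N * H) := by rw [← mul_add, hXY]
    nlinarith
  nlinarith

end POSM

open POSM in
theorem specPOS (hHHA : SpecHHA) (hHHB : SpecHHB) : SpecPOS := by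
  obtain ⟨-, -, hsymm, hsum, -⟩ := hHHA
  obtain ⟨B1, B2, B3, B4, B5⟩ := hHHB
  intro k c0 a b p q c hc0 ha hb hp hq hp' hq' hc
  unfold TT
  refine mul_nonneg (sq_nonneg _) ?_
  unfold T1
  have hH : ∀ j : ℕ, 0 ≤ hh (2 * j + 2) a b := fun j => by
    have := B1 (j + 1) a b
    rw [show 2 * (j + 1) = 2 * j + 2 by ring] at this
    exact this
  have hXY : ∀ j : ℕ, NN (2 * j + 2) a b + NN (2 * j + 2) b a =
      (2 * ((j : ℝ) + 1)) * hh (2 * j + 2) a b := fun j => by
    rw [hsum]
    push_cast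
    ring
  rcases le_total (a * b) 0 with hab | hab
  · -- negative case
    refine add_nonneg (Finset.sum_nonneg fun j _ => ?_) (Finset.sum_nonneg fun j hj => ?_)
    · refine mul_nonneg (ww_pos _).le ?_
      have hN : (0 : ℝ) < 2 * ((j : ℝ) + 1) := by positivity
      have h5 := B5 j a b hab
      have h5' := B5 j b a (by rw [mul_comm]; exact hab)
      rw [hsymm (2 * j + 2) a b] at h5'
      refine term1 hc0 hp hq hp' hq' hN (hH j) (hXY j) ?_ ?_
      · calc -(NN (2 * j + 2) a b) ≤ ((j : ℝ) + 1) / 2 * hh (2 * j + 2) a b := h5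
          _ = _ := by ring
      · calc -(NN (2 * j + 2) b a) ≤ ((j : ℝ) + 1) / 2 * hh (2 * j + 2) a b := h5'
          _ = _ := by ring
    · rw [Finset.mem_range] at hj
      have hkj : (0 : ℝ) ≤ (k : ℝ) - j := by
        have : (j : ℝ) ≤ k := by exact_mod_cast hj.le
        linarith
      have h4 := B4 j a b ha hb hab
      have h6 := lin_bound (h := hh (2 * j) a b) (h' := hh (2 * j + 1) a b) hp hq hc
      refine mul_nonneg (mul_nonneg (div_nonneg hkj (by positivity)) (ww_pos _).le) ?_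
      have h7 : (p + q) * (|hh (2 * j + 1) a b| - hh (2 * j) a b) ≤ 0 :=
        mul_nonpos_of_nonneg_of_nonpos (by linarith) (by linarith)
      linarith
  · -- positive case
    set P : ℝ := max p q with hPdef
    have hP : P ≤ 4 / 5 * c0 := max_le hp' hq'
    have hpP : p ≤ P := le_max_left _ _
    have hqP : q ≤ P := le_max_right _ _
    have hP0 : 0 ≤ P := hp.trans hpP
    set e : ℕ → ℝ := fun j => ww j * hh (2 * j) a b with he
    have he0 : ∀ j, 0 ≤ e j := fun j => mul_nonneg (ww_pos _).le (B1 j a b)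
    have he1 : ∀ j, e (j + 1) = ww (j + 1) * hh (2 * j + 2) a b := fun j => by
      rw [he]
      simp only
      rw [show 2 * (j + 1) = 2 * j + 2 by ring]
    have hk1 : (0 : ℝ) < (k : ℝ) + 1 := by positivity
    -- first sum
    have S1 : ∑ j ∈ Finset.range k, P / 4 * e (j + 1) ≤
        ∑ j ∈ Finset.range k, ww (j + 1) * (c0 * hh (2 * j + 2) a b -
        (p * NN (2 * j + 2) a b + q * NN (2 * j + 2) b a) / (2 * ((j : ℝ) + 1))) := by
      refine Finset.sum_le_sum fun j _ => ?_
      rw [he1 j]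
      have hN : (0 : ℝ) < 2 * ((j : ℝ) + 1) := by positivity
      have h1 := term1' (c0 := c0) hP hpP hqP hN (hH j) (hXY j) (B2 j a b hab)
        (B2 j b a (by rw [mul_comm]; exact hab))
      calc P / 4 * (ww (j + 1) * hh (2 * j + 2) a b) =
            ww (j + 1) * (P / 4 * hh (2 * j + 2) a b) := by ring
        _ ≤ _ := mul_le_mul_of_nonneg_left h1 (ww_pos _).le
    -- second sum
    have S2a : ∀ j ∈ Finset.range k,
        -((p + q) / (2 * ((k : ℝ) + 1)) * (((k : ℝ) - j) *
          (e (j + 1) / 2 - (j : ℝ) / (2 * j + 1) * e j))) ≤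
        ((k : ℝ) - j) / (2 * ((k : ℝ) + 1)) * ww j *
          ((p + q) * hh (2 * j) a b - 2 * c * hh (2 * j + 1) a b) := by
      intro j hj
      rw [Finset.mem_range] at hj
      have hkj : (0 : ℝ) ≤ (k : ℝ) - j := by
        have : (j : ℝ) ≤ k := by exact_mod_cast hj.le
        linarith
      have h3 := B3 j a b hab
      have h6 := lin_bound (h := hh (2 * j) a b) (h' := hh (2 * j + 1) a b) hp hq hc
      have hj1 : (0 : ℝ) < (j : ℝ) + 1 := by positivity
      have hj2 : (0 : ℝ) < 2 * (j : ℝ) + 1 := by positivity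
      have hj3 : (0 : ℝ) < 2 * (j : ℝ) + 3 := by positivity
      have h7 : ww j * (|hh (2 * j + 1) a b| - hh (2 * j) a b) ≤
          e (j + 1) / 2 - (j : ℝ) / (2 * j + 1) * e j := by
        rw [div_le_iff₀ hj1] at h3
        have h8 : |hh (2 * j + 1) a b| - hh (2 * j) a b ≤
            -((j : ℝ) / (2 * j + 1)) * hh (2 * j) a b +
              ((j : ℝ) + 1) / (2 * j + 3) * hh (2 * j + 2) a b := by
          have e5 : (hh (2 * j) a b / (2 * (j : ℝ) + 1) +
              hh (2 * j + 2) a b / (2 * (j : ℝ) + 3)) * ((j : ℝ) + 1) - hh (2 * j) a b =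
              -((j : ℝ) / (2 * j + 1)) * hh (2 * j) a b +
              ((j : ℝ) + 1) / (2 * j + 3) * hh (2 * j + 2) a b := by
            field_simp
            ring
          linarith
        have h9 := mul_le_mul_of_nonneg_left h8 (ww_pos j).le
        refine h9.trans (le_of_eq ?_)
        rw [he1 j, ww_succ, he]
        simp only
        ring
      have h10 : -((p + q) * (ww j * (|hh (2 * j + 1) a b| - hh (2 * j) a b))) ≤
          ww j * ((p + q) * hh (2 * j) a b - 2 * c * hh (2 * j + 1) a b) := by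
        have h11 := mul_le_mul_of_nonneg_left h6 (ww_pos j).le
        refine le_trans (le_of_eq ?_) h11
        ring
      have h12 : -((p + q) * (e (j + 1) / 2 - (j : ℝ) / (2 * j + 1) * e j)) ≤
          ww j * ((p + q) * hh (2 * j) a b - 2 * c * hh (2 * j + 1) a b) := by
        have h13 : (p + q) * (ww j * (|hh (2 * j + 1) a b| - hh (2 * j) a b)) ≤
            (p + q) * (e (j + 1) / 2 - (j : ℝ) / (2 * j + 1) * e j) :=
          mul_le_mul_of_nonneg_left h7 (by linarith)
        linarith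
      have h14 := mul_le_mul_of_nonneg_left h12
        (div_nonneg hkj (by positivity : (0 : ℝ) ≤ 2 * ((k : ℝ) + 1)))
      calc -((p + q) / (2 * ((k : ℝ) + 1)) * (((k : ℝ) - j) *
          (e (j + 1) / 2 - (j : ℝ) / (2 * j + 1) * e j))) =
          ((k : ℝ) - j) / (2 * ((k : ℝ) + 1)) *
            -((p + q) * (e (j + 1) / 2 - (j : ℝ) / (2 * j + 1) * e j)) := by ring
        _ ≤ _ := h14
        _ = _ := by ring
    -- the shift
    set f : ℕ → ℝ := fun j => ((k : ℝ) - j) * ((j : ℝ) / (2 * j + 1)) * e j with hf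
    have hshift : ∑ j ∈ Finset.range k, f j = ∑ j ∈ Finset.range k, f (j + 1) := by
      have h1 := Finset.sum_range_succ f k
      have h2 := Finset.sum_range_succ' f k
      have h3 : f 0 = 0 := by simp [hf]
      have h4 : f k = 0 := by simp [hf]
      linarith
    have hR : ∑ j ∈ Finset.range k, ((k : ℝ) - j) *
        (e (j + 1) / 2 - (j : ℝ) / (2 * j + 1) * e j) =
        ∑ j ∈ Finset.range k, e (j + 1) * (((k : ℝ) + j + 2) / (2 * (2 * j + 3))) := by
      have h1 : ∑ j ∈ Finset.range k, ((k : ℝ) - j) *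
          (e (j + 1) / 2 - (j : ℝ) / (2 * j + 1) * e j) =
          ∑ j ∈ Finset.range k, ((k : ℝ) - j) * (e (j + 1) / 2) -
            ∑ j ∈ Finset.range k, f j := by
        rw [← Finset.sum_sub_distrib]
        refine Finset.sum_congr rfl fun j _ => ?_
        simp only [hf]
        ring
      rw [h1, hshift, ← Finset.sum_sub_distrib]
      refine Finset.sum_congr rfl fun j _ => ?_
      simp only [hf]
      push_cast
      have hj3 : (2 * (j : ℝ) + 3) ≠ 0 := by positivity
      have hj4 : (2 * ((j : ℝ) + 1) + 1) ≠ 0 := by positivity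
      field_simp
      ring
    set R : ℝ := ∑ j ∈ Finset.range k, e (j + 1) * (((k : ℝ) + j + 2) / (2 * (2 * j + 3)))
      with hRdef
    have hR0 : 0 ≤ R := by
      refine Finset.sum_nonneg fun j _ => mul_nonneg (he0 _) (by positivity)
    have S2 : -(P / ((k : ℝ) + 1) * R) ≤
        ∑ j ∈ Finset.range k, ((k : ℝ) - j) / (2 * ((k : ℝ) + 1)) * ww j *
          ((p + q) * hh (2 * j) a b - 2 * c * hh (2 * j + 1) a b) := by
      refine le_trans ?_ (Finset.sum_le_sum S2a)
      rw [Finset.sum_neg_distrib, ← Finset.mul_sum, hR]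
      have h1 : (p + q) / (2 * ((k : ℝ) + 1)) ≤ P / ((k : ℝ) + 1) := by
        rw [div_le_div_iff₀ (by positivity) hk1]
        nlinarith
      have h2 := mul_le_mul_of_nonneg_right h1 hR0
      linarith
    refine le_trans ?_ (add_le_add S1 S2)
    have hfin : ∑ j ∈ Finset.range k, P / 4 * e (j + 1) + -(P / ((k : ℝ) + 1) * R) =
        ∑ j ∈ Finset.range k, P * e (j + 1) *
          (1 / 4 - ((k : ℝ) + j + 2) / (2 * ((k : ℝ) + 1) * (2 * j + 3))) := by
      rw [hRdef, Finset.mul_sum, ← Finset.sum_neg_distrib, ← Finset.sum_add_distrib]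
      refine Finset.sum_congr rfl fun j _ => ?_
      have hj3 : (2 * (j : ℝ) + 3) ≠ 0 := by positivity
      field_simp
      ring
    rw [hfin]
    refine Finset.sum_nonneg fun j hj => ?_
    rw [Finset.mem_range] at hj
    refine mul_nonneg (mul_nonneg hP0 (he0 _)) ?_
    rw [sub_nonneg, div_le_div_iff₀ (by positivity) (by norm_num)]
    have hk' : (j : ℝ) + 1 ≤ k := by exact_mod_cast hj
    have hj0 : (0 : ℝ) ≤ j := by positivity
    nlinarith [mul_nonneg hj0 (by linarith : (0 : ℝ) ≤ (k : ℝ))]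

end Pool.Agent.Lib.MP_084b88_gt.SY
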