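import Pool.Agent.Lib.MP_084b88_gt.SY.Spec

/-!
# PWI: the pointwise inequality for the weight
-/

set_option autoImplicit false

open Real

namespace Pool.Agent.Lib.MP_084b88_gt.SY

namespace PWIM

theorem pos_a {x : ℝ} (h1 : (1141 / 2500 : ℝ) ≤ x) (h2 : x ≤ (73 / 100 : ℝ)) :
    0 ≤ x ^ 7 - 3236 / 10000 * ((x + 1) ^ 2 * (x ^ 2 - 1 / 5) ^ 2) := by
  have e : (x ^ 7 - 3236 / 10000 * ((x + 1) ^ 2 * (x ^ 2 - 1 / 5) ^ 2)) * (171 / 625 : ℝ) ^ 7 =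
      (622201691637200436053 / 152587890625000000000000 : ℝ) * ((x - (1141 / 2500 : ℝ)) ^ 0 * ((73 / 100 : ℝ) - x) ^ 7) +
      (3279845554417656698107 / 76293945312500000000000 : ℝ) * ((x - (1141 / 2500 : ℝ)) ^ 1 * ((73 / 100 : ℝ) - x) ^ 6) +
      (968639862954903586827 / 6103515625000000000000 : ℝ) * ((x - (1141 / 2500 : ℝ)) ^ 2 * ((73 / 100 : ℝ) - x) ^ 5) +
      (3421838117314718357 / 12207031250000000000 : ℝ) * ((x - (1141 / 2500 : ℝ)) ^ 3 * ((73 / 100 : ℝ) - x) ^ 4) +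
      (497925163423748087 / 1953125000000000000 : ℝ) * ((x - (1141 / 2500 : ℝ)) ^ 4 * ((73 / 100 : ℝ) - x) ^ 3) +
      (4495052134909311 / 39062500000000000 : ℝ) * ((x - (1141 / 2500 : ℝ)) ^ 5 * ((73 / 100 : ℝ) - x) ^ 2) +
      (370157029771637 / 15625000000000000 : ℝ) * ((x - (1141 / 2500 : ℝ)) ^ 6 * ((73 / 100 : ℝ) - x) ^ 1) +
      (122742605441 / 39062500000000 : ℝ) * ((x - (1141 / 2500 : ℝ)) ^ 7 * ((73 / 100 : ℝ) - x) ^ 0) := by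
    ring
  have h3 : 0 ≤ x - (1141 / 2500 : ℝ) := by linarith
  have h4 : 0 ≤ (73 / 100 : ℝ) - x := by linarith
  have h5 : 0 ≤ (x ^ 7 - 3236 / 10000 * ((x + 1) ^ 2 * (x ^ 2 - 1 / 5) ^ 2)) * (171 / 625 : ℝ) ^ 7 := by
    rw [e]
    positivity
  exact nonneg_of_mul_nonneg_left h5 (by positivity)

theorem pos_b {x : ℝ} (h1 : (73 / 100 : ℝ) ≤ x) (h2 : x ≤ (1 / 1 : ℝ)) :
    0 ≤ x ^ 7 - 3236 / 10000 * ((x + 1) ^ 2 * (x ^ 2 - 1 / 5) ^ 2) := by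
  have e : (x ^ 7 - 3236 / 10000 * ((x + 1) ^ 2 * (x ^ 2 - 1 / 5) ^ 2)) * (27 / 100 : ℝ) ^ 7 =
      (122742605441 / 39062500000000 : ℝ) * ((x - (73 / 100 : ℝ)) ^ 0 * ((1 / 1 : ℝ) - x) ^ 7) +
      (50807992310699 / 2500000000000000 : ℝ) * ((x - (73 / 100 : ℝ)) ^ 1 * ((1 / 1 : ℝ) - x) ^ 6) +
      (586592241171 / 6250000000000 : ℝ) * ((x - (73 / 100 : ℝ)) ^ 2 * ((1 / 1 : ℝ) - x) ^ 5) +
      (108292162367 / 312500000000 : ℝ) * ((x - (73 / 100 : ℝ)) ^ 3 * ((1 / 1 : ℝ) - x) ^ 4) +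
      (2465952419 / 3125000000 : ℝ) * ((x - (73 / 100 : ℝ)) ^ 4 * ((1 / 1 : ℝ) - x) ^ 3) +
      (156388461 / 156250000 : ℝ) * ((x - (73 / 100 : ℝ)) ^ 5 * ((1 / 1 : ℝ) - x) ^ 2) +
      (1020503 / 1562500 : ℝ) * ((x - (73 / 100 : ℝ)) ^ 6 * ((1 / 1 : ℝ) - x) ^ 1) +
      (2681 / 15625 : ℝ) * ((x - (73 / 100 : ℝ)) ^ 7 * ((1 / 1 : ℝ) - x) ^ 0) := by
    ring
  have h3 : 0 ≤ x - (73 / 100 : ℝ) := by linarith
  have h4 : 0 ≤ (1 / 1 : ℝ) - x := by linarith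
  have h5 : 0 ≤ (x ^ 7 - 3236 / 10000 * ((x + 1) ^ 2 * (x ^ 2 - 1 / 5) ^ 2)) * (27 / 100 : ℝ) ^ 7 := by
    rw [e]
    positivity
  exact nonneg_of_mul_nonneg_left h5 (by positivity)

theorem pos_c {x : ℝ} (h1 : 1 ≤ x) :
    0 ≤ x ^ 7 - 3236 / 10000 * ((x + 1) ^ 2 * (x ^ 2 - 1 / 5) ^ 2) := by
  have e : x ^ 7 - 3236 / 10000 * ((x + 1) ^ 2 * (x ^ 2 - 1 / 5) ^ 2) =
      (2681 / 15625 : ℝ) * (x - 1) ^ 0 +
      (31711 / 15625 : ℝ) * (x - 1) ^ 1 +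
      (146909 / 15625 : ℝ) * (x - 1) ^ 2 +
      (67307 / 3125 : ℝ) * (x - 1) ^ 3 +
      (83487 / 3125 : ℝ) * (x - 1) ^ 4 +
      (11507 / 625 : ℝ) * (x - 1) ^ 5 +
      (16691 / 2500 : ℝ) * (x - 1) ^ 6 +
      (1 / 1 : ℝ) * (x - 1) ^ 7 := by
    ring
  have h3 : 0 ≤ x - 1 := by linarith
  rw [e]
  positivity

theorem poly {x : ℝ} (hx : 4564 / 10000 ≤ x) :
    3236 / 10000 * ((x + 1) ^ 2 * (x ^ 2 - 1 / 5) ^ 2) ≤ x ^ 7 := by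
  rcases le_or_gt x (73 / 100) with h | h
  · have := pos_a (x := x) (by linarith) (by linarith)
    linarith
  · rcases le_or_gt x 1 with h' | h'
    · have := pos_b (x := x) (by linarith) (by linarith)
      linarith
    · have := pos_c (x := x) h'.le
      linarith

theorem tau_le : 32 / (3 * π ^ 2) - 1 ≤ 809 / 10000 := by
  have h := Real.pi_gt_d4
  have h2 : (3.1415 : ℝ) ^ 2 ≤ π ^ 2 := by
    apply pow_le_pow_left₀ (by norm_num) h.le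
  have h3 : 32 / (3 * π ^ 2) ≤ 10809 / 10000 := by
    rw [div_le_iff₀ (by positivity)]
    nlinarith
  linarith

end PWIM

open PWIM in
theorem specPWI : SpecPWI := by
  intro x hx
  have hx0 : 0 < x := by linarith
  have hy : 1 - (6 / 5 / x ^ 2 - 1 / 5 / x ^ 4) = (x ^ 2 - 1) * (x ^ 2 - 1 / 5) / x ^ 4 := by
    field_simp
    ring
  set τ := 32 / (3 * π ^ 2) - 1 with hτ
  have h1 : τ ≤ 809 / 10000 := tau_le
  have h2 := poly hx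
  rw [hy]
  have h3 : x * (1 + τ * ((x ^ 2 - 1) * (x ^ 2 - 1 / 5) / x ^ 4) ^ 2) =
      x + τ * ((x - 1) ^ 2 * ((x + 1) ^ 2 * (x ^ 2 - 1 / 5) ^ 2)) / x ^ 7 := by
    field_simp
    ring
  have h4 : τ * ((x - 1) ^ 2 * ((x + 1) ^ 2 * (x ^ 2 - 1 / 5) ^ 2)) / x ^ 7 ≤
      (x - 1) ^ 2 / 4 := by
    rw [div_le_iff₀ (by positivity)]
    calc τ * ((x - 1) ^ 2 * ((x + 1) ^ 2 * (x ^ 2 - 1 / 5) ^ 2)) ≤
        809 / 10000 * ((x - 1) ^ 2 * ((x + 1) ^ 2 * (x ^ 2 - 1 / 5) ^ 2)) :=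
          mul_le_mul_of_nonneg_right h1 (by positivity)
      _ = (x - 1) ^ 2 / 4 * (3236 / 10000 * ((x + 1) ^ 2 * (x ^ 2 - 1 / 5) ^ 2)) := by ring
      _ ≤ (x - 1) ^ 2 / 4 * x ^ 7 := mul_le_mul_of_nonneg_left h2 (by positivity)
  rw [h3]
  have h5 : ((1 + x) / 2) ^ 2 = x + (x - 1) ^ 2 / 4 := by ring
  rw [h5]
  linarith

end Pool.Agent.Lib.MP_084b88_gt.SY
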