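import Pool.Agent.Lib.MP_084b88_gt.SY.Spec

/-!
# MP_084b88_gt, project SY, module SEM: approximation of `1 - √(1-y)` by polynomials with
nonnegative coefficients
-/

set_option autoImplicit false

open MeasureTheory Set Real Filter Topology
open scoped Pointwise InnerProductSpace

namespace Pool.Agent.Lib.MP_084b88_gt.SY

open Pool.Agent.Lib.MP_084b88_gt.CW

namespace SEMM

/-- the iteration `P ↦ (y + P²)/2` -/
noncomputable def PP : ℕ → Polynomial ℝ
  | 0 => 0
  | n + 1 => Polynomial.C (1 / 2) * (Polynomial.X + PP n ^ 2)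

theorem pp_coeff (n : ℕ) : (∀ k, 0 ≤ (PP n).coeff k) ∧ (PP n).coeff 0 = 0 := by
  induction n with
  | zero => simp [PP]
  | succ n ih =>
    refine ⟨fun k => ?_, ?_⟩
    · rw [PP, Polynomial.coeff_C_mul, Polynomial.coeff_add, Polynomial.coeff_X, sq,
        Polynomial.coeff_mul]
      have h1 : 0 ≤ ∑ x ∈ Finset.HasAntidiagonal.antidiagonal k, (PP n).coeff x.1 * (PP n).coeff x.2 :=
        Finset.sum_nonneg fun x _ => mul_nonneg (ih.1 _) (ih.1 _)
      have h2 : (0 : ℝ) ≤ if 1 = k then 1 else 0 := by split_ifs <;> norm_num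
      linarith
    · rw [PP, Polynomial.coeff_C_mul, Polynomial.coeff_add, Polynomial.coeff_X, sq,
        Polynomial.mul_coeff_zero, ih.2]
      norm_num

theorem pp_eval (n : ℕ) (y : ℝ) : (PP n).eval y =
    ∑ k ∈ Finset.range (PP n).natDegree, (PP n).coeff (k + 1) * y ^ (k + 1) := by
  rw [Polynomial.eval_eq_sum_range, Finset.sum_range_succ', (pp_coeff n).2]
  simp

/-- the limit -/
noncomputable def uu (y : ℝ) : ℝ := 1 - √(1 - y)

theorem uu_eq (y : ℝ) (hy : y ∈ Icc (0 : ℝ) 1) : y + uu y ^ 2 = 2 * uu y ∧ 0 ≤ uu y ∧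
    uu y ≤ 1 := by
  have h1 : √(1 - y) ^ 2 = 1 - y := Real.sq_sqrt (by linarith [hy.2])
  have h2 : 0 ≤ √(1 - y) := Real.sqrt_nonneg _
  have h3 : √(1 - y) ≤ 1 := by
    rw [Real.sqrt_le_one]
    linarith [hy.1]
  unfold uu
  refine ⟨by nlinarith, by linarith, by linarith⟩

theorem pp_bound (n : ℕ) (y : ℝ) (hy : y ∈ Icc (0 : ℝ) 1) :
    0 ≤ (PP n).eval y ∧ 0 ≤ uu y - (PP n).eval y ∧
      uu y - (PP n).eval y ≤ 2 / ((n : ℝ) + 2) := by
  obtain ⟨h1, h2, h3⟩ := uu_eq y hy
  induction n with
  | zero =>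
    simp only [PP, Polynomial.eval_zero]
    refine ⟨le_refl _, by linarith, ?_⟩
    norm_num
    exact h3
  | succ n ih =>
    obtain ⟨i1, i2, i3⟩ := ih
    have he : (PP (n + 1)).eval y = (y + (PP n).eval y ^ 2) / 2 := by
      rw [PP]
      simp only [Polynomial.eval_mul, Polynomial.eval_C, Polynomial.eval_add, Polynomial.eval_X,
        Polynomial.eval_pow]
      ring
    rw [he]
    set P := (PP n).eval y with hP
    set e := uu y - P with hE
    have e1 : uu y - (y + P ^ 2) / 2 = e * (uu y + P) / 2 := by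
      rw [hE]
      linear_combination (-1 / 2 : ℝ) * h1
    have e2 : e * (uu y + P) / 2 ≤ e * (1 - e / 2) := by
      have : uu y + P = 2 * uu y - e := by rw [hE]; ring
      rw [this]
      nlinarith
    refine ⟨by have := hy.1; positivity, ?_, ?_⟩
    · rw [e1]
      have : 0 ≤ uu y + P := by linarith
      positivity
    · rw [e1]
      refine e2.trans ?_
      have hn : (0 : ℝ) < (n : ℝ) + 2 := by positivity
      set z : ℝ := 2 / ((n : ℝ) + 2) with hz
      have hz1 : z ≤ 1 := by
        rw [hz, div_le_one hn]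
        have : (0 : ℝ) ≤ n := Nat.cast_nonneg n
        linarith
      have e3 : e * (1 - e / 2) ≤ z * (1 - z / 2) := by nlinarith
      refine e3.trans ?_
      rw [hz]
      push_cast
      have hn3 : (0 : ℝ) < (n : ℝ) + 1 + 2 := by positivity
      have e4 : 2 / ((n : ℝ) + 2) * (1 - 2 / ((n : ℝ) + 2) / 2) =
          2 * ((n : ℝ) + 1) / ((n : ℝ) + 2) ^ 2 := by
        field_simp
        ring
      rw [e4, div_le_div_iff₀ (by positivity) hn3]
      nlinarith

end SEMM

open SEMM in
theorem specSEM (hWAL : SpecWAL) : SpecSEM := by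
  intro ε hε
  obtain ⟨n, hn⟩ := exists_nat_gt (2 / ε)
  have hn2 : 2 / ((n : ℝ) + 2) ≤ ε := by
    have h0 : (0 : ℝ) ≤ n := Nat.cast_nonneg n
    rw [div_le_iff₀ (by positivity)]
    rw [div_lt_iff₀ hε] at hn
    nlinarith
  have hb : ∀ y ∈ Icc (0 : ℝ) 1, |uu y - (PP n).eval y| ≤ ε := by
    intro y hy
    obtain ⟨_, h2, h3⟩ := pp_bound n y hy
    rw [abs_of_nonneg h2]
    linarith
  refine ⟨(PP n).natDegree, fun k => (PP n).coeff (k + 1), fun k => (pp_coeff n).1 _, ?_, ?_⟩
  · intro y hy
    have := hb y hy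
    rw [pp_eval] at this
    exact this
  · have h1 : ∑ k ∈ Finset.range (PP n).natDegree, (PP n).coeff (k + 1) * mu (k + 1) =
        2 / π * ∫ x in (-1 : ℝ)..1, (PP n).eval (x ^ 2) * √(1 - x ^ 2) := by
      have h2 : ∀ x : ℝ, (PP n).eval (x ^ 2) * √(1 - x ^ 2) =
          ∑ k ∈ Finset.range (PP n).natDegree,
            (PP n).coeff (k + 1) * (x ^ (2 * (k + 1)) * √(1 - x ^ 2)) := by
        intro x
        rw [pp_eval, Finset.sum_mul]
        apply Finset.sum_congr rfl
        intro k _
        rw [← pow_mul]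
        ring
      simp only [h2]
      rw [intervalIntegral.integral_finsetSum
        (fun k _ => Continuous.intervalIntegrable (by fun_prop) _ _), Finset.mul_sum]
      apply Finset.sum_congr rfl
      intro k _
      rw [intervalIntegral.integral_const_mul, (hWAL (k + 1)).2]
      ring
    have hsq : ∫ x in (-1 : ℝ)..1, √(1 - x ^ 2) = π / 2 := integral_sqrt_one_sub_sq
    have hu : ∫ x in (-1 : ℝ)..1, uu (x ^ 2) * √(1 - x ^ 2) = π / 2 - 4 / 3 := by
      have h3 : ∀ x ∈ Set.uIcc (-1 : ℝ) 1, uu (x ^ 2) * √(1 - x ^ 2) =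
          √(1 - x ^ 2) - (1 - x ^ 2) := by
        intro x hx
        rw [Set.uIcc_of_le (by norm_num)] at hx
        have h4 : √(1 - x ^ 2) * √(1 - x ^ 2) = 1 - x ^ 2 :=
          Real.mul_self_sqrt (by nlinarith [hx.1, hx.2])
        unfold uu
        linear_combination -h4
      rw [intervalIntegral.integral_congr h3, intervalIntegral.integral_sub
        (Continuous.intervalIntegrable (by fun_prop) _ _)
        (Continuous.intervalIntegrable (by fun_prop) _ _), hsq, intervalIntegral.integral_sub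
        (Continuous.intervalIntegrable (by fun_prop) _ _)
        (Continuous.intervalIntegrable (by fun_prop) _ _), integral_pow]
      simp
      norm_num
    have hk : 1 - kap = 2 / π * ∫ x in (-1 : ℝ)..1, uu (x ^ 2) * √(1 - x ^ 2) := by
      rw [hu, kap]
      have := Real.pi_pos
      field_simp
      ring
    rw [h1, hk, ← mul_sub, ← intervalIntegral.integral_sub
        (Continuous.intervalIntegrable (by fun_prop) _ _)
        (Continuous.intervalIntegrable (by unfold uu; fun_prop) _ _), abs_mul,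
        abs_of_pos (by have := Real.pi_pos; positivity)]
    have h5 : |∫ x in (-1 : ℝ)..1, ((PP n).eval (x ^ 2) * √(1 - x ^ 2) -
        uu (x ^ 2) * √(1 - x ^ 2))| ≤ ∫ x in (-1 : ℝ)..1, ε * √(1 - x ^ 2) := by
      rw [← Real.norm_eq_abs]
      apply intervalIntegral.norm_integral_le_of_norm_le (by norm_num)
      · filter_upwards with x hx
        have h6 : x ^ 2 ∈ Icc (0 : ℝ) 1 := ⟨by positivity, by nlinarith [hx.1, hx.2]⟩
        have h7 := hb _ h6
        rw [Real.norm_eq_abs, ← sub_mul, abs_mul, abs_of_nonneg (Real.sqrt_nonneg _),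
          abs_sub_comm]
        exact mul_le_mul_of_nonneg_right h7 (Real.sqrt_nonneg _)
      · exact Continuous.intervalIntegrable (by fun_prop) _ _
    rw [intervalIntegral.integral_const_mul, hsq] at h5
    have hpi := Real.pi_pos
    calc 2 / π * |∫ x in (-1 : ℝ)..1, ((PP n).eval (x ^ 2) * √(1 - x ^ 2) -
        uu (x ^ 2) * √(1 - x ^ 2))| ≤ 2 / π * (ε * (π / 2)) :=
          mul_le_mul_of_nonneg_left h5 (by positivity)
      _ = ε := by field_simp

end Pool.Agent.Lib.MP_084b88_gt.SY
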