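import Pool.Agent.Lib.MP_084b88_gt.SY.Spec

/-!
# MP_084b88_gt, project SY: module SWP (exchange of the two points)
-/

set_option autoImplicit false

open MeasureTheory Set Real Filter Topology
open scoped Pointwise InnerProductSpace

namespace Pool.Agent.Lib.MP_084b88_gt.SY

namespace SWPM

/-- The order of integration may be exchanged. -/
theorem fub {Z : ℝ → ℝ → ℝ} {L : ℝ} (hZ : Continuous (fun x : ℝ × ℝ => Z x.1 x.2))
    (hb : ∀ t, ∀ α ∈ Icc (0 : ℝ) π, |Z t α| ≤ L * sin α ^ 2) :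
    ∫ t in (0 : ℝ)..(2 * π), (∫ α in (0 : ℝ)..π, Z t α / sin α ^ 2) =
      ∫ α in (0 : ℝ)..π, (∫ t in (0 : ℝ)..(2 * π), Z t α / sin α ^ 2) := by
  have hpi : (0 : ℝ) ≤ π := Real.pi_pos.le
  have h2pi : (0 : ℝ) ≤ 2 * π := by positivity
  have hL : ∀ t, ∀ α ∈ Icc (0 : ℝ) π, |Z t α / sin α ^ 2| ≤ |L| := by
    intro t α hα
    rw [abs_div, abs_of_nonneg (sq_nonneg (sin α))]
    rcases eq_or_lt_of_le (sq_nonneg (sin α)) with h0 | h0
    · rw [← h0, div_zero]
      exact abs_nonneg L
    · rw [div_le_iff₀ h0]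
      exact (hb t α hα).trans (mul_le_mul_of_nonneg_right (le_abs_self L) h0.le)
  simp only [intervalIntegral.integral_of_le hpi, intervalIntegral.integral_of_le h2pi]
  refine integral_integral_swap ?_
  have hm : Measurable (fun x : ℝ × ℝ => Z x.1 x.2 / sin x.2 ^ 2) :=
    hZ.measurable.div ((Real.measurable_sin.comp measurable_snd).pow_const 2)
  have hfin : IsFiniteMeasure ((volume.restrict (Ioc (0 : ℝ) (2 * π))).prod
      (volume.restrict (Ioc (0 : ℝ) π))) := inferInstance
  refine Integrable.mono' (integrable_const |L|) hm.aestronglyMeasurable ?_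
  rw [Measure.prod_restrict]
  filter_upwards [ae_restrict_mem (measurableSet_Ioc.prod measurableSet_Ioc)] with x hx
  exact hL x.1 x.2 ⟨hx.2.1.le, hx.2.2⟩

end SWPM

theorem specSWP : SpecSWP := by
  intro Y L hY hper hb
  have h1 : ∫ t in (0 : ℝ)..(2 * π), (∫ α in (0 : ℝ)..π, Y (t + α) (π - α) / sin α ^ 2) =
      ∫ α in (0 : ℝ)..π, (∫ t in (0 : ℝ)..(2 * π), Y (t + α) (π - α) / sin α ^ 2) := by
    refine SWPM.fub (Z := fun t α => Y (t + α) (π - α)) (L := L) ?_ ?_
    · exact hY.comp ((continuous_fst.add continuous_snd).prodMk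
        (continuous_const.sub continuous_snd))
    · intro t α hα
      have := hb (t + α) (π - α) ⟨by linarith [hα.2], by linarith [hα.1]⟩
      rwa [Real.sin_pi_sub] at this
  have h2 : ∀ α : ℝ, (∫ t in (0 : ℝ)..(2 * π), Y (t + α) (π - α) / sin α ^ 2) =
      ∫ t in (0 : ℝ)..(2 * π), Y t (π - α) / sin (π - α) ^ 2 := by
    intro α
    rw [Real.sin_pi_sub]
    have hp : Function.Periodic (fun t => Y t (π - α) / sin α ^ 2) (2 * π) := by
      intro t
      show Y (t + 2 * π) (π - α) / sin α ^ 2 = Y t (π - α) / sin α ^ 2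
      rw [hper]
    have h3 := intervalIntegral.integral_comp_add_right (a := 0) (b := 2 * π)
      (fun t => Y t (π - α) / sin α ^ 2) α
    rw [h3, zero_add, add_comm (2 * π) α]
    have h4 := hp.intervalIntegral_add_eq α 0
    rw [zero_add] at h4
    exact h4
  rw [h1]
  simp only [h2]
  rw [intervalIntegral.integral_comp_sub_left
    (fun α => ∫ t in (0 : ℝ)..(2 * π), Y t α / sin α ^ 2) π, sub_self, sub_zero]
  exact (SWPM.fub hY hb).symm

end Pool.Agent.Lib.MP_084b88_gt.SY
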