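import Pool.Agent.Lib.MP_084b88_gt.SY.Spec

/-!
# TWO: the double integral is nonnegative
-/

set_option autoImplicit false

open MeasureTheory Set Real Filter Topology
open scoped Pointwise InnerProductSpace

namespace Pool.Agent.Lib.MP_084b88_gt.SY

open Pool.Agent.Lib.MP_084b88_gt.CW

namespace TWOM

/-- Interval integrability of `Z / sin²`. -/
theorem int_of_bd {Z : ℝ → ℝ} {L : ℝ} (hZ : Continuous Z)
    (hb : ∀ α ∈ Icc (0 : ℝ) π, |Z α| ≤ L * sin α ^ 2) :
    IntervalIntegrable (fun α => Z α / sin α ^ 2) volume 0 π := by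
  refine (intervalIntegrable_const (c := |L|)).mono_fun' ?_ ?_
  · exact (hZ.measurable.div (Real.continuous_sin.pow 2).measurable).aestronglyMeasurable
  · refine (ae_restrict_iff' measurableSet_uIoc).2 (ae_of_all _ fun α hα => ?_)
    rw [Set.uIoc_of_le Real.pi_pos.le] at hα
    have h1 := hb α ⟨hα.1.le, hα.2⟩
    show ‖Z α / sin α ^ 2‖ ≤ |L|
    rw [Real.norm_eq_abs, abs_div, abs_of_nonneg (sq_nonneg (sin α))]
    rcases eq_or_lt_of_le (sq_nonneg (sin α)) with h2 | h2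
    · rw [← h2, div_zero]; exact abs_nonneg _
    · rw [div_le_iff₀ h2]
      exact h1.trans (mul_le_mul_of_nonneg_right (le_abs_self _) h2.le)

/-- A quadratic form nonnegative on unit vectors. -/
theorem disc_nonneg {A B C : ℝ} (h : ∀ θ, 0 ≤ QB A B C θ θ) : B ^ 2 ≤ A * C := by
  have hall : ∀ x y : ℝ, 0 ≤ A * x ^ 2 + 2 * B * (x * y) + C * y ^ 2 := by
    intro x y
    set z : ℂ := ⟨x, y⟩ with hz
    have h1 : ‖z‖ * cos (Complex.arg z) = x := Complex.norm_mul_cos_arg z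
    have h2 : ‖z‖ * sin (Complex.arg z) = y := Complex.norm_mul_sin_arg z
    have h3 := h (Complex.arg z)
    unfold QB at h3
    have h4 : A * x ^ 2 + 2 * B * (x * y) + C * y ^ 2 = ‖z‖ ^ 2 *
        (A * (cos z.arg * cos z.arg) + B * (cos z.arg * sin z.arg + sin z.arg * cos z.arg) +
          C * (sin z.arg * sin z.arg)) := by
      rw [← h1, ← h2]; ring
    rw [h4]
    positivity
  have h5 := discrim_le_zero (a := A) (b := 2 * B) (c := C) (fun x => by
    have := hall x 1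
    nlinarith)
  unfold discrim at h5
  nlinarith

theorem lagrange (A B C θ φ : ℝ) : QB A B C θ θ * QB A B C φ φ - QB A B C θ φ ^ 2 =
    (A * C - B ^ 2) * (cos θ * sin φ - sin θ * cos φ) ^ 2 := by
  unfold QB; ring

theorem cs {A B C : ℝ} (h : ∀ θ, 0 ≤ QB A B C θ θ) (θ φ : ℝ) :
    QB A B C θ φ ^ 2 ≤ QB A B C θ θ * QB A B C φ φ := by
  have h1 := disc_nonneg h
  have h2 := lagrange A B C θ φ
  nlinarith [mul_nonneg (sub_nonneg.2 h1) (sq_nonneg (cos θ * sin φ - sin θ * cos φ))]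

theorem pq_cs {A B C : ℝ} {h : ℝ → ℝ} (hQ : ∀ θ, 0 ≤ QB A B C θ θ) (θ φ : ℝ) :
    pq A B C h θ φ ^ 2 ≤ pq A B C h θ θ * pq A B C h φ φ := by
  unfold pq
  have h1 := cs hQ θ φ
  have e1 : (QB A B C θ φ / (h θ * h φ)) ^ 2 = QB A B C θ φ ^ 2 / (h θ * h φ) ^ 2 := div_pow _ _ _
  have e2 : QB A B C θ θ / (h θ * h θ) * (QB A B C φ φ / (h φ * h φ)) =
      QB A B C θ θ * QB A B C φ φ / (h θ * h φ) ^ 2 := by
    rw [div_mul_div_comm]; congr 1; ring
  rw [e1, e2]
  exact div_le_div_of_nonneg_right h1 (sq_nonneg _)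

theorem pq_bd {A B C c0 : ℝ} {h : ℝ → ℝ} (hA : Adm A B C c0 h) (hpos : ∀ x, 0 < h x) (θ : ℝ) :
    0 ≤ pq A B C h θ θ ∧ pq A B C h θ θ ≤ 4 / 5 * c0 := by
  obtain ⟨h1, h2⟩ := hA.2 θ
  have h3 := hpos θ
  unfold pq
  constructor
  · positivity
  · rw [div_le_iff₀ (by positivity)]
    nlinarith

/-- The integrand after subtraction of the null form. -/
noncomputable def Yf (k : ℕ) (h h1 : ℝ → ℝ) (A B C c0 t α : ℝ) : ℝ :=
  XX k c0 (aa h h1 t α) (bb h h1 t α) (pq A B C h t t) (pq A B C h (t + α) (t + α))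
    (pq A B C h t (t + α))

/-- The null form. -/
noncomputable def Nf (k : ℕ) (h h1 : ℝ → ℝ) (A B C c0 t α : ℝ) : ℝ :=
  NS (GN k) (dG k) (fun x => 2 * AN k x)
    (fun x => 2 * dA k x) (fun x => 2 * BN k x) (fun x => 2 * dB k x) (fun x => 2 * CN k x)
    (fun x => 2 * dC k x) c0 (aa h h1 t α) (bb h h1 t α) (pq A B C h t t)
    (pq A B C h (t + α) (t + α)) (pq A B C h t (t + α))

theorem Yf_eq (k : ℕ) (h h1 : ℝ → ℝ) (A B C c0 t α : ℝ) : Yf k h h1 A B C c0 t α =
    (c0 - pq A B C h t t) * gN k (aa h h1 t α) - Nf k h h1 A B C c0 t α := by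
  unfold Yf Nf XX NS
  ring

theorem cont_pair {F : ℝ → ℝ → ℝ} (cP : Continuous (fun x : ℝ × ℝ => F x.1 x.2))
    {u v : ℝ × ℝ → ℝ} (hu : Continuous u) (hv : Continuous v) :
    Continuous (fun x : ℝ × ℝ => F (u x) (v x)) := cP.comp (hu.prodMk hv)

theorem cont_slice {F : ℝ → ℝ → ℝ} (cP : Continuous (fun x : ℝ × ℝ => F x.1 x.2)) (t : ℝ) :
    Continuous (fun α => F t α) := by
  have e : Continuous (fun α : ℝ => (t, α)) := continuous_const.prodMk continuous_id
  exact cP.comp e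

theorem cont_NS {fG gG fA gA fB gB fC gC : ℝ → ℝ} {c0 : ℝ} {a b p q c : ℝ × ℝ → ℝ}
    (h1 : Continuous fG) (h2 : Continuous gG) (h3 : Continuous fA) (h4 : Continuous gA)
    (h5 : Continuous fB) (h6 : Continuous gB) (h7 : Continuous fC) (h8 : Continuous gC)
    (ca : Continuous a) (cb : Continuous b) (cp : Continuous p) (cq : Continuous q)
    (cc : Continuous c) :
    Continuous (fun x => NS fG gG fA gA fB gB fC gC c0 (a x) (b x) (p x) (q x) (c x)) := by
  unfold NS
  have d1 := h1.comp cb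
  have d2 := h2.comp cb
  have d3 := h3.comp cb
  have d4 := h4.comp cb
  have d5 := h5.comp cb
  have d6 := h6.comp cb
  have d7 := h7.comp cb
  have d8 := h8.comp cb
  have e : Continuous (fun x => 1 - a x * b x) := continuous_const.sub (ca.mul cb)
  exact (((continuous_const.mul ((e.mul d2).add (ca.mul d1))).add
    (cq.mul ((e.mul d4).sub (ca.mul d3)))).add
    (cc.mul ((e.mul d6).add (continuous_const.mul d3)))).add
    (cp.mul (((e.mul d8).add d5).add (ca.mul d7)))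

/-- Two functions with the same integral whose sum is nonnegative. -/
theorem final {Y : ℝ → ℝ → ℝ} {L : ℝ} (cY : Continuous (fun x : ℝ × ℝ => Y x.1 x.2))
    (hYb : ∀ t, ∀ α ∈ Icc (0 : ℝ) π, |Y t α| ≤ L * sin α ^ 2)
    (hswap : ∫ t in (0 : ℝ)..(2 * π), (∫ α in (0 : ℝ)..π, Y (t + α) (π - α) / sin α ^ 2) =
      ∫ t in (0 : ℝ)..(2 * π), (∫ α in (0 : ℝ)..π, Y t α / sin α ^ 2))
    (hpt : ∀ t, ∀ α ∈ Icc (0 : ℝ) π, 0 ≤ Y t α + Y (t + α) (π - α)) :
    0 ≤ ∫ t in (0 : ℝ)..(2 * π), (∫ α in (0 : ℝ)..π, Y t α / sin α ^ 2) := by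
  have hIJ : ∀ t, 0 ≤ (∫ α in (0 : ℝ)..π, Y t α / sin α ^ 2) +
      ∫ α in (0 : ℝ)..π, Y (t + α) (π - α) / sin α ^ 2 := by
    intro t
    have c5 : Continuous (Y t) := cY.comp (continuous_const.prodMk continuous_id)
    have i1 := int_of_bd c5 (hYb t)
    have c6 : Continuous (fun α => Y (t + α) (π - α)) :=
      cY.comp ((continuous_const.add continuous_id).prodMk (continuous_const.sub continuous_id))
    have i2 := int_of_bd c6 (L := L) (fun α hα => by
      have := hYb (t + α) (π - α) ⟨by linarith [hα.2], by linarith [hα.1]⟩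
      rw [Real.sin_pi_sub] at this
      exact this)
    rw [← intervalIntegral.integral_add i1 i2]
    refine intervalIntegral.integral_nonneg Real.pi_pos.le fun α hα => ?_
    rw [← add_div]
    exact div_nonneg (hpt t α hα) (sq_nonneg _)
  by_cases hi : IntervalIntegrable (fun t => ∫ α in (0 : ℝ)..π, Y t α / sin α ^ 2)
      volume 0 (2 * π)
  · by_cases hj : IntervalIntegrable
        (fun t => ∫ α in (0 : ℝ)..π, Y (t + α) (π - α) / sin α ^ 2) volume 0 (2 * π)
    · have h3 := intervalIntegral.integral_nonneg (μ := volume)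
        (by positivity : (0 : ℝ) ≤ 2 * π) fun t _ => hIJ t
      rw [intervalIntegral.integral_add hi hj, hswap] at h3
      linarith
    · rw [← hswap, intervalIntegral.integral_undef hj]
  · rw [intervalIntegral.integral_undef hi]

/-- Subtraction of a function with integral `0`. -/
theorem sub_null {F Y N : ℝ → ℝ} {L L' : ℝ} (cY : Continuous Y) (cN : Continuous N)
    (hY : ∀ α ∈ Icc (0 : ℝ) π, |Y α| ≤ L * sin α ^ 2)
    (hN : ∀ α ∈ Icc (0 : ℝ) π, |N α| ≤ L' * sin α ^ 2)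
    (h0 : (∫ α in (0 : ℝ)..π, N α / sin α ^ 2) = 0) (hF : ∀ α, Y α = F α - N α) :
    (∫ α in (0 : ℝ)..π, F α / sin α ^ 2) = ∫ α in (0 : ℝ)..π, Y α / sin α ^ 2 := by
  have i1 := int_of_bd cY hY
  have i2 := int_of_bd cN hN
  have e1 : ∀ α : ℝ, F α / sin α ^ 2 = Y α / sin α ^ 2 + N α / sin α ^ 2 := by
    intro α
    rw [← add_div, hF α]
    congr 1
    ring
  rw [intervalIntegral.integral_congr (fun α _ => e1 α), intervalIntegral.integral_add i1 i2, h0,
    add_zero]

end TWOM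

open TWOM in
theorem specTWO (hABR : SpecABR) (hNSZ : SpecNSZ) (hSWP : SpecSWP) (hALG : SpecALG)
    (hPOS : SpecPOS) : SpecTWO := by
  intro h h1 h2 hS A B C c0 hA k
  obtain ⟨ca, cb, cp, -, hsw, -, ⟨La, hLa0, hLa⟩, hLp, -, -, -, -, hsym, hper⟩ := hABR h h1 h2 hS
  obtain ⟨Lp, hLp⟩ := hLp A B C
  obtain ⟨K, hK0, hK⟩ := hALG.bnd k
  obtain ⟨cG, cA, cB, cC⟩ := hALG.cont k
  -- null forms
  have hnull := hNSZ h h1 h2 hS A B C c0 (2 * K) (GN k) (dG k) (fun x => 2 * AN k x)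
    (fun x => 2 * dA k x) (fun x => 2 * BN k x) (fun x => 2 * dB k x) (fun x => 2 * CN k x)
    (fun x => 2 * dC k x) (hALG.derG k) (fun x => (hALG.derA k x).const_mul 2)
    (fun x => (hALG.derB k x).const_mul 2) (fun x => (hALG.derC k x).const_mul 2)
    cG (cA.const_mul 2) (cB.const_mul 2) (cC.const_mul 2) (by
      intro x hx
      obtain ⟨e1, e2, e3, e4, -⟩ := hK x hx
      have hx2 : 0 ≤ K * (1 - x ^ 2) := by
        have : x ^ 2 ≤ 1 := by rw [sq_le_one_iff_abs_le_one]; exact hx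
        exact mul_nonneg hK0 (by linarith)
      refine ⟨by linarith, ?_, ?_, ?_⟩
      · rw [abs_mul, abs_two]; linarith
      · rw [abs_mul, abs_two]; linarith
      · rw [abs_mul, abs_two]; linarith)
  obtain ⟨⟨Ln, hLn⟩, hzero⟩ := hnull
  have hXN := Yf_eq k h h1 A B C c0
  -- continuity
  have c1 : Continuous (fun x : ℝ × ℝ => aa h h1 x.1 x.2) := ca
  have c2 : Continuous (fun x : ℝ × ℝ => bb h h1 x.1 x.2) := cb
  have cP : Continuous (fun x : ℝ × ℝ => pq A B C h x.1 x.2) := cp A B C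
  have cadd : Continuous (fun x : ℝ × ℝ => x.1 + x.2) := continuous_fst.add continuous_snd
  have c3 : Continuous (fun x : ℝ × ℝ => pq A B C h x.1 x.1) :=
    cont_pair cP continuous_fst continuous_fst
  have c4 : Continuous (fun x : ℝ × ℝ => pq A B C h (x.1 + x.2) (x.1 + x.2)) :=
    cont_pair cP cadd cadd
  have c5 : Continuous (fun x : ℝ × ℝ => pq A B C h x.1 (x.1 + x.2)) :=
    cont_pair cP continuous_fst cadd
  have k1 : Continuous (GN k) := continuous_iff_continuousAt.2 fun x => (hALG.derG k x).continuousAt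
  have k2 : Continuous (AN k) := continuous_iff_continuousAt.2 fun x => (hALG.derA k x).continuousAt
  have k3 : Continuous (BN k) := continuous_iff_continuousAt.2 fun x => (hALG.derB k x).continuousAt
  have k4 : Continuous (CN k) := continuous_iff_continuousAt.2 fun x => (hALG.derC k x).continuousAt
  have k5 : Continuous (gN k) := by
    unfold gN
    fun_prop
  have d5 : Continuous (fun x : ℝ × ℝ => gN k (aa h h1 x.1 x.2)) := k5.comp c1
  have cN : Continuous (fun x : ℝ × ℝ => Nf k h h1 A B C c0 x.1 x.2) :=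
    cont_NS k1 cG (k2.const_mul 2) (cA.const_mul 2) (k3.const_mul 2) (cB.const_mul 2)
      (k4.const_mul 2) (cC.const_mul 2) c1 c2 c3 c4 c5
  have cY : Continuous (fun x : ℝ × ℝ => Yf k h h1 A B C c0 x.1 x.2) := by
    have e : (fun x : ℝ × ℝ => Yf k h h1 A B C c0 x.1 x.2) =
        fun x : ℝ × ℝ => (c0 - pq A B C h x.1 x.1) * gN k (aa h h1 x.1 x.2) -
          Nf k h h1 A B C c0 x.1 x.2 :=
      funext fun x => hXN x.1 x.2
    rw [e]
    exact ((continuous_const.sub c3).mul d5).sub cN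
  -- bounds
  have hg : ∀ t, ∀ α ∈ Icc (0 : ℝ) π, |gN k (aa h h1 t α)| ≤ K * La * sin α ^ 2 := by
    intro t α hα
    obtain ⟨e1, -, e3, -, -⟩ := hLa t α hα
    have e2 := (hK (aa h h1 t α) e1).2.2.2.2
    calc |gN k (aa h h1 t α)| ≤ K * (1 - aa h h1 t α ^ 2) := e2
      _ ≤ K * (La * sin α ^ 2) := mul_le_mul_of_nonneg_left e3 hK0
      _ = _ := by ring
  have hLp0 : 0 ≤ Lp := (abs_nonneg _).trans (hLp 0 0)
  have hgp : ∀ t, ∀ α ∈ Icc (0 : ℝ) π, |(c0 - pq A B C h t t) * gN k (aa h h1 t α)| ≤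
      (c0 + Lp) * (K * La) * sin α ^ 2 := by
    intro t α hα
    rw [abs_mul]
    have e1 : |c0 - pq A B C h t t| ≤ c0 + Lp := by
      calc |c0 - pq A B C h t t| ≤ |c0| + |pq A B C h t t| := abs_sub _ _
        _ ≤ c0 + Lp := by rw [abs_of_pos hA.1]; exact add_le_add le_rfl (hLp t t)
    calc |c0 - pq A B C h t t| * |gN k (aa h h1 t α)| ≤ (c0 + Lp) * (K * La * sin α ^ 2) :=
          mul_le_mul e1 (hg t α hα) (abs_nonneg _) (by have := hA.1; linarith)
      _ = _ := by ring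
  have hYb : ∀ t, ∀ α ∈ Icc (0 : ℝ) π, |Yf k h h1 A B C c0 t α| ≤
      ((c0 + Lp) * (K * La) + Ln) * sin α ^ 2 := by
    intro t α hα
    rw [hXN]
    calc |(c0 - pq A B C h t t) * gN k (aa h h1 t α) - Nf k h h1 A B C c0 t α| ≤
        |(c0 - pq A B C h t t) * gN k (aa h h1 t α)| + |Nf k h h1 A B C c0 t α| :=
          abs_sub _ _
      _ ≤ (c0 + Lp) * (K * La) * sin α ^ 2 + Ln * sin α ^ 2 :=
          add_le_add (hgp t α hα) (hLn t α hα)
      _ = _ := by ring
  -- remove the null form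
  have hI1 : ∀ t, (∫ α in (0 : ℝ)..π, (c0 - pq A B C h t t) * gN k (aa h h1 t α) / sin α ^ 2) =
      ∫ α in (0 : ℝ)..π, Yf k h h1 A B C c0 t α / sin α ^ 2 := fun t =>
    sub_null (F := fun α => (c0 - pq A B C h t t) * gN k (aa h h1 t α))
      (cont_slice cY t) (cont_slice cN t) (hYb t) (hLn t) (hzero t) (fun α => hXN t α)
  -- periodicity
  have pP : ∀ θ φ, pq A B C h (θ + π) (φ + π) = pq A B C h θ φ := by
    intro θ φ
    rw [(hsym A B C θ (φ + π)).2, (hsym A B C θ (φ + π)).1, (hsym A B C φ θ).2,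
      (hsym A B C φ θ).1, neg_neg]
  have pY : ∀ t α, Yf k h h1 A B C c0 (t + π) α = Yf k h h1 A B C c0 t α := by
    intro t α
    unfold Yf
    rw [(hper t α).1, (hper t α).2, pP, show t + π + α = (t + α) + π by ring, pP, pP]
  have pY2 : ∀ t α, Yf k h h1 A B C c0 (t + 2 * π) α = Yf k h h1 A B C c0 t α := by
    intro t α
    rw [show t + 2 * π = (t + π) + π by ring, pY, pY]
  have hswap := hSWP (Yf k h h1 A B C c0) _ cY pY2 hYb
  -- the swapped function
  have hYs : ∀ t α, Yf k h h1 A B C c0 (t + α) (π - α) =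
      XX k c0 (bb h h1 t α) (aa h h1 t α) (pq A B C h (t + α) (t + α)) (pq A B C h t t)
      (pq A B C h t (t + α)) := by
    intro t α
    have e1 : aa h h1 (t + α) (π - α) = -(bb h h1 t α) := by
      have := hsw t α
      linarith
    have e2 : bb h h1 (t + α) (π - α) = -(aa h h1 t α) := by
      have h3 := hsw (t + α) (π - α)
      rw [show t + α + (π - α) = t + π by ring, show π - (π - α) = α by ring] at h3
      rw [h3, (hper t α).1]
    have e3 : pq A B C h (t + α) (t + π) = -(pq A B C h t (t + α)) := by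
      rw [(hsym A B C (t + α) (t + π)).1, (hsym A B C t (t + α)).2]
    unfold Yf
    rw [e1, e2, show t + α + (π - α) = t + π by ring, pP, e3, hALG.parX]
  -- pointwise nonnegativity
  have hpt : ∀ t, ∀ α ∈ Icc (0 : ℝ) π,
      0 ≤ Yf k h h1 A B C c0 t α + Yf k h h1 A B C c0 (t + α) (π - α) := by
    intro t α hα
    rw [hYs]
    unfold Yf
    rw [hALG.idn]
    obtain ⟨f1, f2, -, -, -⟩ := hLa t α hα
    have g1 := pq_bd hA hS.pos t
    have g2 := pq_bd hA hS.pos (t + α)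
    have g3 := pq_cs (h := h) (fun θ => (hA.2 θ).1) t (t + α)
    have := hPOS k c0 (aa h h1 t α) (bb h h1 t α) (pq A B C h t t)
      (pq A B C h (t + α) (t + α)) (pq A B C h t (t + α)) hA.1 f1 f2 g1.1
      g2.1 g1.2 g2.2 g3
    linarith
  rw [intervalIntegral.integral_congr (fun t _ => hI1 t)]
  exact final cY hYb hswap hpt

end Pool.Agent.Lib.MP_084b88_gt.SY
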