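import Pool.Agent.Lib.MP_084b88_gt.SY.Spec

/-!
# MP_084b88_gt, project SY: module WAL
-/

set_option autoImplicit false

open MeasureTheory Set Real Filter Topology
open scoped Pointwise InnerProductSpace

namespace Pool.Agent.Lib.MP_084b88_gt.SY

open Pool.Agent.Lib.MP_084b88_gt.CW

namespace WALM

theorem ww_pos (k : ℕ) : 0 < ww k := by
  unfold ww
  refine Finset.prod_pos fun i _ => ?_
  positivity

theorem ww_succ (k : ℕ) : ww (k + 1) = ww k * (2 * ((k : ℝ) + 1) / (2 * (k : ℝ) + 3)) := by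
  unfold ww
  rw [Finset.prod_range_succ]

theorem mu_succ (k : ℕ) : mu (k + 1) = (2 * (k : ℝ) + 1) / (2 * (k : ℝ) + 4) * mu k := by
  unfold mu
  rw [ww_succ]
  have h := (ww_pos k).ne'
  have h1 : (k : ℝ) + 1 ≠ 0 := by positivity
  have h2 : 2 * (k : ℝ) + 1 ≠ 0 := by positivity
  have h3 : 2 * (k : ℝ) + 3 ≠ 0 := by positivity
  have h4 : (k : ℝ) + 2 ≠ 0 := by positivity
  push_cast
  field_simp
  ring

/-- the recursion for the integral -/
theorem int_succ (k : ℕ) : (2 * (k : ℝ) + 4) * ∫ x in (-1 : ℝ)..1, x ^ (2 * (k + 1)) * √(1 - x ^ 2) =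
    (2 * (k : ℝ) + 1) * ∫ x in (-1 : ℝ)..1, x ^ (2 * k) * √(1 - x ^ 2) := by
  have hc : Continuous fun x : ℝ => √(1 - x ^ 2) := by fun_prop
  have h1 : ∫ x in (-1 : ℝ)..1, ((2 * (k : ℝ) + 1) * (x ^ (2 * k) * √(1 - x ^ 2)) -
      (2 * (k : ℝ) + 4) * (x ^ (2 * (k + 1)) * √(1 - x ^ 2))) =
      (1 : ℝ) ^ (2 * k + 1) * ((1 - 1 ^ 2) * √(1 - 1 ^ 2)) -
      (-1 : ℝ) ^ (2 * k + 1) * ((1 - (-1) ^ 2) * √(1 - (-1) ^ 2)) := by
    refine intervalIntegral.integral_eq_sub_of_hasDerivAt_of_le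
      (f := fun x : ℝ => x ^ (2 * k + 1) * ((1 - x ^ 2) * √(1 - x ^ 2)))
      (by norm_num : (-1 : ℝ) ≤ 1) ?_ ?_ ?_
    · exact (by fun_prop : Continuous fun x : ℝ =>
        x ^ (2 * k + 1) * ((1 - x ^ 2) * √(1 - x ^ 2))).continuousOn
    · intro x hx
      have hpos : 0 < 1 - x ^ 2 := by nlinarith [hx.1, hx.2]
      have hs : √(1 - x ^ 2) ≠ 0 := (Real.sqrt_pos.2 hpos).ne'
      have hsq : √(1 - x ^ 2) * √(1 - x ^ 2) = 1 - x ^ 2 := Real.mul_self_sqrt hpos.le
      have d1 : HasDerivAt (fun x : ℝ => 1 - x ^ 2) (-(2 * x)) x := by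
        have := (hasDerivAt_pow 2 x).const_sub 1
        simpa using this
      have d2 : HasDerivAt (fun x : ℝ => √(1 - x ^ 2)) (-(2 * x) / (2 * √(1 - x ^ 2))) x :=
        d1.sqrt hpos.ne'
      have d3 : HasDerivAt (fun x : ℝ => x ^ (2 * k + 1)) ((2 * (k : ℝ) + 1) * x ^ (2 * k)) x := by
        have := hasDerivAt_pow (2 * k + 1) x
        push_cast at this
        simpa using this
      have d4 := d3.mul (d1.mul d2)
      refine d4.congr_deriv ?_
      have e1 : -(2 * x) / (2 * √(1 - x ^ 2)) = -x / √(1 - x ^ 2) := by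
        field_simp
      have e2 : (1 - x ^ 2) * (-x / √(1 - x ^ 2)) = -x * √(1 - x ^ 2) := by
        calc (1 - x ^ 2) * (-x / √(1 - x ^ 2)) =
            (√(1 - x ^ 2) * √(1 - x ^ 2)) * (-x / √(1 - x ^ 2)) := by rw [hsq]
          _ = -x * √(1 - x ^ 2) := by field_simp
      simp only [Pi.mul_apply]
      rw [e1, e2]
      have e3 : x ^ (2 * (k + 1)) = x ^ (2 * k) * x ^ 2 := by ring
      have e4 : x ^ (2 * k + 1) = x ^ (2 * k) * x := by ring
      rw [e3, e4]
      ring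
    · exact (by fun_prop : Continuous fun x : ℝ =>
        (2 * (k : ℝ) + 1) * (x ^ (2 * k) * √(1 - x ^ 2)) -
          (2 * (k : ℝ) + 4) * (x ^ (2 * (k + 1)) * √(1 - x ^ 2))).intervalIntegrable _ _
  rw [intervalIntegral.integral_sub, intervalIntegral.integral_const_mul,
    intervalIntegral.integral_const_mul] at h1
  · simp only [one_pow, sub_self, zero_mul, mul_zero] at h1
    have h2 : (1 : ℝ) - (-1) ^ 2 = 0 := by norm_num
    rw [h2, zero_mul, mul_zero] at h1
    linarith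
  · exact (by fun_prop : Continuous fun x : ℝ =>
        (2 * (k : ℝ) + 1) * (x ^ (2 * k) * √(1 - x ^ 2))).intervalIntegrable _ _
  · exact (by fun_prop : Continuous fun x : ℝ =>
        (2 * (k : ℝ) + 4) * (x ^ (2 * (k + 1)) * √(1 - x ^ 2))).intervalIntegrable _ _

end WALM

open WALM in
theorem specWAL : SpecWAL := by
  intro k
  refine ⟨?_, ?_⟩
  · unfold mu
    have := ww_pos k
    positivity
  · induction k with
    | zero =>
      simp only [mul_zero, pow_zero, one_mul]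
      rw [integral_sqrt_one_sub_sq]
      have hpi := Real.pi_ne_zero
      simp only [mu, ww, Finset.range_zero, Finset.prod_empty, Nat.cast_zero]
      field_simp
      norm_num
    | succ k ih =>
      have h := int_succ k
      have h4 : 2 * (k : ℝ) + 4 ≠ 0 := by positivity
      have h5 : ∫ x in (-1 : ℝ)..1, x ^ (2 * (k + 1)) * √(1 - x ^ 2) =
          (2 * (k : ℝ) + 1) / (2 * (k : ℝ) + 4) *
            ∫ x in (-1 : ℝ)..1, x ^ (2 * k) * √(1 - x ^ 2) := by
        rw [div_mul_eq_mul_div, eq_div_iff h4, ← h]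
        ring
      rw [mu_succ, ih, h5]
      ring

end Pool.Agent.Lib.MP_084b88_gt.SY
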