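import Pool.Agent.Lib.MP_084b88_gt.CW.AllD
import Pool.Agent.Lib.MP_084b88_gt.CW.AllE
import Pool.Agent.Lib.MP_084b88_gt.SY.ABR
import Pool.Agent.Lib.MP_084b88_gt.SY.NSZ
import Pool.Agent.Lib.MP_084b88_gt.SY.SWP
import Pool.Agent.Lib.MP_084b88_gt.SY.HHA
import Pool.Agent.Lib.MP_084b88_gt.SY.ALG
import Pool.Agent.Lib.MP_084b88_gt.SY.HHB
import Pool.Agent.Lib.MP_084b88_gt.SY.POS
import Pool.Agent.Lib.MP_084b88_gt.SY.TWO
import Pool.Agent.Lib.MP_084b88_gt.SY.IGE
import Pool.Agent.Lib.MP_084b88_gt.SY.CQM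
import Pool.Agent.Lib.MP_084b88_gt.SY.CQL
import Pool.Agent.Lib.MP_084b88_gt.SY.WAL
import Pool.Agent.Lib.MP_084b88_gt.SY.SEM
import Pool.Agent.Lib.MP_084b88_gt.SY.SQF
import Pool.Agent.Lib.MP_084b88_gt.SY.PWI
import Pool.Agent.Lib.MP_084b88_gt.SY.SYF

/-!
# MP_084b88_gt, project SY: assembly
-/

set_option autoImplicit false

namespace Pool.Agent.Lib.MP_084b88_gt.SY

open Pool.Agent.Lib.MP_084b88_gt.CW

theorem allABR : SpecABR := specABR
theorem allNSZ : SpecNSZ := specNSZ allABR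
theorem allSWP : SpecSWP := specSWP
theorem allHHA : SpecHHA := specHHA
theorem allALG : SpecALG := specALG allHHA
theorem allHHB : SpecHHB := specHHB allHHA
theorem allPOS : SpecPOS := specPOS allHHA allHHB
theorem allTWO : SpecTWO := specTWO allABR allNSZ allSWP allALG allPOS
theorem allIGE : SpecIGE := specIGE allHPB allWMB allGAG allGAL
theorem allCQM : SpecCQM := specCQM allIGE allTWO
theorem allCQL : SpecCQL := specCQL allCQM allGAP allGCV allGAG allHPB
theorem allWAL : SpecWAL := specWAL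
theorem allSEM : SpecSEM := specSEM allWAL
theorem allSQF : SpecSQF := specSQF allCQL allSEM allGDU allWB2
theorem allPWI : SpecPWI := specPWI
theorem allSYF : SpecSYF := specSYF allHAA allMEA allLEN allCAU allWB2 allRE2P allSQF allPWI

end Pool.Agent.Lib.MP_084b88_gt.SY
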