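import Pool.Agent.Lib.MP_084b88_gt.SY.Defs
import Pool.Agent.Lib.MP_084b88_gt.CW.SpecC

/-!
# MP_084b88_gt, project SY: the weighted planar inequality for centrally symmetric bodies

THEOREM (SQF). `D` planar, compact, convex, centrally symmetric, `h` its support function, `Q ≥ 0` a quadratic
form with `Q(u) ≤ (4/5) c0 h(u)²` for all unit vectors `u`. Then
`∫_0^{2π} (c0 - Q(u_t)/h(t)²)/h(t)² (q_t - κ area D) dt ≥ 0`, `q_t = ∫_D √(1 - <x,u_t>²/h(t)²) dx`, `κ = 8/(3π)`.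

METHOD. Every power `s^{2k}` instead of `√(1-s²)` separately. `s = t + α`, `0 < α < π`,
`a = <y_s,u_t>/h_t`, `b = <y_t,u_s>/h_s`, `p = Q(u_t)/h_t²`, `q = Q(u_s)/h_s²`, `c = Q(u_t,u_s)/(h_t h_s)`.
`∫_D (<x,u_t>/h_t)^{2k} - μ_k area D = -(μ_k/2) h_t² ∫_0^π g(a)/sin² α dα` (IGE), so we need
`∫∫ (c0 - p) g(a)/sin² α dα dt ≥ 0`. Subtract null forms (NSZ: their integral over `α` is `0` for every `t`), then
symmetrise in `s, t` (SWP): the integrand becomes `T/sin² α` with an explicit polynomial `T ≥ 0` (ALG, POS).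

All formulas were checked: the identity of ALG exactly for `k ≤ 8`, the double integral numerically.
Rules: file `SY/XXX.lean`, `import Pool.Agent.Lib.MP_084b88_gt.SY.Spec`, namespace
`Pool.Agent.Lib.MP_084b88_gt.SY`, `theorem specXXX (hYYY : SpecYYY) .. : SpecXXX` (any Spec of this file or of
`CW/SpecA, SpecB, SpecC` may be a hypothesis), own lemmas in the namespace `..SY.XXXM`.
-/

set_option autoImplicit false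

open MeasureTheory Set Real Filter Topology
open scoped Pointwise InnerProductSpace

namespace Pool.Agent.Lib.MP_084b88_gt.SY

open Pool.Agent.Lib.MP_084b88_gt.CW

/-! ## I. Calculus of the two point functions -/

/-- **ABR** (200 lines). Facts on `a`, `b`, `p`, `q`, `c`. Write `s = t + α`.
(1) (2) continuity: `h`, `h1` are continuous (differentiable), denominators `> 0`.
(3) `a(t,0) = 1`, `a(t,π) = -1` (`per`, `per1`). (4) `b(t,α) = -a(t+α, π-α)`: `h(t+α+(π-α)) = h(t+π) = h(t)`.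
(5) `∂a/∂α = -(h+h2)(s) sin α/h(t)`.
(6) Bounds: let `0 < m ≤ h` and `h + h2 ≤ R` (periodic continuous functions), `L = R/m`. By (3), (5) `a(t,·)` is
decreasing on `[0,π]`, so `-1 ≤ a ≤ 1`, and `1 - a(α) = ∫_0^α (h+h2) sin/h(t) ≤ L (1 - cos α)`,
`1 + a(α) ≤ L (1 + cos α)` (or: the functions `L (1 - cos α) - (1 - a)`, `L(1 + cos α) - (1 + a)` are monotone);
by (4) the same for `b`. So `1 - a² = (1-a)(1+a) ≤ L² sin² α`, `1 - b² ≤ L² sin² α` and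
`2 (1 - ab) = (1-a)(1+b) + (1+a)(1-b) ≤ 2 L² sin² α`. `|p|, |q|, |c| ≤ C` (continuous, periodic).
(7) for `0 < α < π`: `∂b/∂α = -(1 - ab) h(t)/(h(s) sin α)`. Indeed
`∂b/∂α = (-h(t) sin α + h1(t) cos α)/h(s) - b h1(s)/h(s)`; multiply by `h(s) sin α/h(t)` and use the definitions
(`a h(t) = h(s) cos α - h1(s) sin α`, `b h(s) = h(t) cos α + h1(t) sin α`): both sides agree
(`field_simp`, then `linear_combination` with `sin² + cos² = 1`).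
(8) `∂/∂α [h(s)/(h(t) sin α)] = -a/sin² α`.
(9) `∂c/∂α = -(p - a c) h(t)/(h(s) sin α)`: `sin α u_s' = cos α u_s - u_t` (`u' ` = derivative), so
`sin α ∂/∂α Q(u_t,u_s) = cos α Q(u_t,u_s) - Q(u_t,u_t)`. (10) `∂q/∂α = -2 (c - a q) h(t)/(h(s) sin α)`: likewise
`sin α ∂/∂α Q(u_s,u_s) = 2 (cos α Q(u_s,u_s) - Q(u_t,u_s))`. (Or simply expand everything in `cos t, sin t, cos α,
sin α`.) -/
def SpecABR : Prop :=
  ∀ (h h1 h2 : ℝ → ℝ), Sm h h1 h2 →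
    Continuous (fun x : ℝ × ℝ => aa h h1 x.1 x.2) ∧
    Continuous (fun x : ℝ × ℝ => bb h h1 x.1 x.2) ∧
    (∀ A B C : ℝ, Continuous (fun x : ℝ × ℝ => pq A B C h x.1 x.2)) ∧
    (∀ t, aa h h1 t 0 = 1 ∧ aa h h1 t π = -1) ∧
    (∀ t α, bb h h1 t α = - aa h h1 (t + α) (π - α)) ∧
    (∀ t α, HasDerivAt (fun y => aa h h1 t y) (-((h (t + α) + h2 (t + α)) * sin α) / h t) α) ∧
    (∃ L : ℝ, 0 ≤ L ∧ ∀ t, ∀ α ∈ Icc (0 : ℝ) π, |aa h h1 t α| ≤ 1 ∧ |bb h h1 t α| ≤ 1 ∧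
      1 - aa h h1 t α ^ 2 ≤ L * sin α ^ 2 ∧ 1 - bb h h1 t α ^ 2 ≤ L * sin α ^ 2 ∧
      1 - aa h h1 t α * bb h h1 t α ≤ L * sin α ^ 2) ∧
    (∀ A B C : ℝ, ∃ L : ℝ, ∀ θ φ, |pq A B C h θ φ| ≤ L) ∧
    (∀ t, ∀ α ∈ Ioo (0 : ℝ) π, HasDerivAt (fun y => bb h h1 t y)
      (-((1 - aa h h1 t α * bb h h1 t α) * h t) / (h (t + α) * sin α)) α) ∧
    (∀ t, ∀ α ∈ Ioo (0 : ℝ) π, HasDerivAt (fun y => h (t + y) / (h t * sin y))
      (-(aa h h1 t α) / sin α ^ 2) α) ∧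
    (∀ A B C t, ∀ α ∈ Ioo (0 : ℝ) π, HasDerivAt (fun y => pq A B C h t (t + y))
      (-((pq A B C h t t - aa h h1 t α * pq A B C h t (t + α)) * h t) / (h (t + α) * sin α)) α) ∧
    (∀ A B C t, ∀ α ∈ Ioo (0 : ℝ) π, HasDerivAt (fun y => pq A B C h (t + y) (t + y))
      (-(2 * (pq A B C h t (t + α) - aa h h1 t α * pq A B C h (t + α) (t + α)) * h t) /
        (h (t + α) * sin α)) α) ∧
    (∀ A B C θ φ, pq A B C h θ φ = pq A B C h φ θ ∧ pq A B C h (θ + π) φ = - pq A B C h θ φ) ∧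
    (∀ t α, aa h h1 (t + π) α = aa h h1 t α ∧ bb h h1 (t + π) α = bb h h1 t α)

/-- **NSZ** (200 lines, from ABR). The null forms have integral `0` for every fixed `t`.
PROOF. `f(α) = c0 fG(b) + q fA(b) + c fB(b) + p fC(b)`, `p` constant in `α`, `F(α) = (h(s)/(h(t) sin α)) f(α)`. By ABR
(7)-(10) and the chain rule `F' = -NS/sin² α` on `(0,π)`: the factor `h(s)/(h(t) sin α)` times
`h(t)/(h(s) sin α)` is `1/sin² α`. `|f| ≤ K' (1 - b²) ≤ K'' sin² α`, so `F → 0` at both ends; with the value `0` at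
the end points (in Lean `sin 0 = 0` and `x/0 = 0`) `F` is continuous on `[0,π]`. `NS` is a sum of products containing `1 - ab` or
some `f_i(b)`, so `|NS| ≤ K''' sin² α` (bounds of ABR; the `g_i` are continuous, hence bounded on `[-1,1]`), and `NS/sin²`
is integrable: bounded and continuous on `(0,π)`. Fundamental theorem
(`intervalIntegral.integral_eq_sub_of_hasDerivAt_of_le` with continuity on the closed interval, derivative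
inside), as in `CW/CAL.lean`. -/
def SpecNSZ : Prop :=
  ∀ (h h1 h2 : ℝ → ℝ), Sm h h1 h2 → ∀ (A B C c0 K : ℝ) (fG gG fA gA fB gB fC gC : ℝ → ℝ),
    (∀ x, HasDerivAt fG (gG x) x) → (∀ x, HasDerivAt fA (gA x) x) →
    (∀ x, HasDerivAt fB (gB x) x) → (∀ x, HasDerivAt fC (gC x) x) →
    Continuous gG → Continuous gA → Continuous gB → Continuous gC →
    (∀ x, |x| ≤ 1 → |fG x| ≤ K * (1 - x ^ 2) ∧ |fA x| ≤ K * (1 - x ^ 2) ∧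
      |fB x| ≤ K * (1 - x ^ 2) ∧ |fC x| ≤ K * (1 - x ^ 2)) →
    (∃ L : ℝ, ∀ t, ∀ α ∈ Icc (0 : ℝ) π, |NS fG gG fA gA fB gB fC gC c0 (aa h h1 t α) (bb h h1 t α)
      (pq A B C h t t) (pq A B C h (t + α) (t + α)) (pq A B C h t (t + α))| ≤ L * sin α ^ 2) ∧
    ∀ t, (∫ α in (0 : ℝ)..π, NS fG gG fA gA fB gB fC gC c0 (aa h h1 t α) (bb h h1 t α)
      (pq A B C h t t) (pq A B C h (t + α) (t + α)) (pq A B C h t (t + α)) / sin α ^ 2) = 0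

/-- **SWP** (120 lines). Exchange of the two points. `Y(t,α)/sin² α` is bounded by `L` and measurable, so Fubini:
`∫_t ∫_α = ∫_α ∫_t`; for fixed `α` `∫_0^{2π} Y(t+α, π-α) dt = ∫_0^{2π} Y(t, π-α) dt` by periodicity
(`Function.Periodic.intervalIntegral_add_eq`), then `α ↦ π - α` (`sin (π-α) = sin α`,
`intervalIntegral.integral_comp_sub_left`). -/
def SpecSWP : Prop :=
  ∀ (Y : ℝ → ℝ → ℝ) (L : ℝ), Continuous (fun x : ℝ × ℝ => Y x.1 x.2) →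
    (∀ t α, Y (t + 2 * π) α = Y t α) → (∀ t, ∀ α ∈ Icc (0 : ℝ) π, |Y t α| ≤ L * sin α ^ 2) →
    ∫ t in (0 : ℝ)..(2 * π), (∫ α in (0 : ℝ)..π, Y (t + α) (π - α) / sin α ^ 2) =
      ∫ t in (0 : ℝ)..(2 * π), (∫ α in (0 : ℝ)..π, Y t α / sin α ^ 2)

/-! ## II. The polynomials -/

/-- **ALG** (300 lines, from HHA). Polynomial facts. `w_{j+1} (2j+3) = w_j (2j+2)`.
(1) derivatives. (2) `∑_{j=1}^k w_j/j = 2 - 2 w_k` (induction), `G, α, β, γ` vanish at `±1` and are polynomials, so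
they are `(1-x²)` times a polynomial on `[-1,1]`: directly, `|x - x^{2j+3}| ≤ (j+1)(1-x²)`,
`|x^{2j+2} - 1| ≤ (j+1)(1-x²)` for `|x| ≤ 1`.
(3) (E1) `(1-x²) G' + x G = g`: the `j`-th term is `(w_j/j)(1 - (2j+1) x^{2j} + 2j x^{2j+2})` and
`2 w_j = (w_{j+1}/(j+1))(2j+3)`: telescoping (induction on `k`: the difference of both sides for `k+1` and `k` is
`(w_{k+1}/(k+1))(1 - (2k+3) x^{2k+2} + (2k+2) x^{2k+4})` and `2w_k(1-x^{2k+2}) - 2w_{k+1}(1-x^{2k+4})`).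
(E2) `G' + 3x β' - (1-x²) β'' = 2 - 2 w_k - k/(k+1)`: multiply by `k+1` and use induction on `k`; with
`b_k = ∑_{j<k} (k-j) w_j x^{2j+1}` (`= (k+1) β'`), `b_{k+1} - b_k = ∑_{j ≤ k} w_j x^{2j+1} =: σ`, one needs
`(k+2) G'_{k+1} - (k+1) G'_k + 3xσ - (1-x²)σ' = (2-2w_{k+1})(k+2) - (2-2w_k)(k+1) - 1`, again by induction on `k`
(coefficient of `x^{2j}`, `1 ≤ j ≤ k`: `w_{j-1}(2j+2) - w_j (2j+1)(1/j + 1) = 0`).
(4) `α = -(1-x²)β'/2`, `γ = ((1-x²)β' - 2xβ - G)/2`; by (E2) `2α' + G' + xβ' = -ρ`, `2γ' + 2β + xβ' = ρ` with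
`ρ = k/(k+1) - 2 + 2w_k`.
(5) IDENTITY. Coefficient of `c0` in `X + X^swap`, by (E1): `(a-b)[(G - xG')(a) - (G - xG')(b)]`,
`G - xG' = 2∑ w_{j+1} x^{2j+3}`, and `(a-b)(a^{2j+3} - b^{2j+3}) = (a-b)² h_{2j+2}` (HHA). Coefficient of `c`:
`-2(a-b)(aβ'(a) - bβ'(b))`. Coefficient of `p`: `-g(a) - 2[(1-ab)γ'(b) + β(b) + aγ(b)] - 2[(1-ab)α'(a) - bα(a)]`,
which by (E1) and (4) equals `(a-b)(β'(a) - β'(b)) + a[G(b) - G(a) + (a-b)G'(a)]`, and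
`G(b) - G(a) + (a-b) G'(a) = ∑ (w_{j+1}/(j+1)) (a^n - b^n - n (a-b) a^{n-1})`, `n = 2j+3`,
`a (a^n - b^n - n(a-b)a^{n-1}) = -(a-b)² N_{n-1}(a,b)` (HHA). Coefficient of `q`: by symmetry. -/
structure SpecALG : Prop where
  derG : ∀ (k : ℕ) (x : ℝ), HasDerivAt (GN k) (dG k x) x
  derA : ∀ (k : ℕ) (x : ℝ), HasDerivAt (AN k) (dA k x) x
  derB : ∀ (k : ℕ) (x : ℝ), HasDerivAt (BN k) (dB k x) x
  derC : ∀ (k : ℕ) (x : ℝ), HasDerivAt (CN k) (dC k x) x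
  cont : ∀ k : ℕ, Continuous (dG k) ∧ Continuous (dA k) ∧ Continuous (dB k) ∧ Continuous (dC k)
  bnd : ∀ k : ℕ, ∃ K : ℝ, 0 ≤ K ∧ ∀ x, |x| ≤ 1 → |GN k x| ≤ K * (1 - x ^ 2) ∧
    |AN k x| ≤ K * (1 - x ^ 2) ∧ |BN k x| ≤ K * (1 - x ^ 2) ∧ |CN k x| ≤ K * (1 - x ^ 2) ∧
    |gN k x| ≤ K * (1 - x ^ 2)
  parX : ∀ (k : ℕ) (c0 a b p q c : ℝ), XX k c0 (-a) (-b) p q (-c) = XX k c0 a b p q c
  idn : ∀ (k : ℕ) (c0 a b p q c : ℝ), XX k c0 a b p q c + XX k c0 b a q p c = 2 * TT k c0 a b p q c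

/-- **HHA** (80 lines). Elementary identities for `h_n`, `N_n`. (1) geometric sum
(`Commute.geom_sum₂_mul` or `geom_sum₂_mul`). (2) induction on `n`: `h_{n+1}(a,b) = b h_n(a,b) + a^{n+1}`,
`N_{n+1}(a,b) = b N_n(a,b) + (n+1) a^{n+1}`. (3), (4) reflect the sum (`Finset.sum_range_reflect`). (5) signs. -/
def SpecHHA : Prop :=
  (∀ (n : ℕ) (a b : ℝ), (a - b) * hh n a b = a ^ (n + 1) - b ^ (n + 1)) ∧
  (∀ (n : ℕ) (a b : ℝ), (a - b) * NN n a b = ((n : ℝ) + 1) * a ^ (n + 1) - a * hh n a b) ∧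
  (∀ (n : ℕ) (a b : ℝ), hh n b a = hh n a b) ∧
  (∀ (n : ℕ) (a b : ℝ), NN n a b + NN n b a = n * hh n a b) ∧
  (∀ (n : ℕ) (a b : ℝ), hh (2 * n) (-a) (-b) = hh (2 * n) a b ∧
    NN (2 * n) (-a) (-b) = NN (2 * n) a b ∧ hh (2 * n + 1) (-a) (-b) = - hh (2 * n + 1) a b)

/-- **HHB** (150 lines, from HHA). Inequalities for `|a|, |b| ≤ 1`.
(1) `h_{2j} ≥ 0`: `(a-b)(a^{2j+1} - b^{2j+1}) ≥ 0` (odd powers are increasing), for `a = b` it is `(2j+1) a^{2j}`.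
(2) `ab ≥ 0`: all terms of `N_{2j+2}(a,b)`, `N_{2j+2}(b,a)` are `≥ 0`
(`a^i b^{n-i}`, `n` even: `i` and `n - i` have the same parity; `(ab)^i b^{n-2i}` or `(ab)^{n-i} a^{2i-n}`).
(3) `ab ≥ 0`: `|h_{2j+1}|/(j+1) ≤ h_{2j}/(2j+1) + h_{2j+2}/(2j+3)`. We may assume `a, b ≥ 0` (HHA (5)). With
`x = τa + (1-τ)b`: `h_n = (n+1) ∫_0^1 x^n dτ` (for `a ≠ b` from HHA (1), for `a = b` directly), and
`2x^{2j+1} ≤ x^{2j} + x^{2j+2}`. (Or by comparing the sums.)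
(4) `ab ≤ 0`: `|h_{2j+1}| ≤ h_{2j}`. Let `a ≥ 0 ≥ b = -r`: `(a+r) h_{2j} = a^{2j+1} + r^{2j+1}`,
`(a+r) h_{2j+1} = a^{2j+2} - r^{2j+2}`; `a, r ≤ 1`. `a + r = 0`: `a = b = 0`, direct.
(5) `ab ≤ 0`: `-N_{2j+2}(a,b) ≤ ((j+1)/2) h_{2j+2}`. Let `a ≥ 0 ≥ b = -r` (else change both signs), `n = 2j+2`: by HHA (2)
`-(a+r) N_n = a h_n - (n+1) a^{n+1}`. If `a ≤ r`: `≤ a h_n ≤ ((a+r)/2) h_n`. If `a > r`:
`(a+r) h_n = a^{n+1} + r^{n+1} ≤ 2a^{n+1}`, so `a h_n ≤ 2a^{n+1}` and `N_n ≥ 0`. -/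
def SpecHHB : Prop :=
  (∀ (j : ℕ) (a b : ℝ), 0 ≤ hh (2 * j) a b) ∧
  (∀ (j : ℕ) (a b : ℝ), 0 ≤ a * b → 0 ≤ NN (2 * j + 2) a b) ∧
  (∀ (j : ℕ) (a b : ℝ), 0 ≤ a * b →
    |hh (2 * j + 1) a b| / ((j : ℝ) + 1) ≤
      hh (2 * j) a b / (2 * (j : ℝ) + 1) + hh (2 * j + 2) a b / (2 * (j : ℝ) + 3)) ∧
  (∀ (j : ℕ) (a b : ℝ), |a| ≤ 1 → |b| ≤ 1 → a * b ≤ 0 → |hh (2 * j + 1) a b| ≤ hh (2 * j) a b) ∧
  (∀ (j : ℕ) (a b : ℝ), a * b ≤ 0 → -(NN (2 * j + 2) a b) ≤ ((j : ℝ) + 1) / 2 * hh (2 * j + 2) a b)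

/-- **POS** (250 lines, from HHA, HHB). Positivity of the kernel. WLOG nothing; `p, q ∈ [0, (4/5)c0]`,
`|c| ≤ (p+q)/2` (from `c² ≤ pq`). Write `T1 = S1 + S2` for the two sums, `n = 2j+2`.
CASE `ab ≤ 0`. `S2 ≥ 0`: `(p+q) h_{2j} - 2c h_{2j+1} ≥ (p+q)(h_{2j} - |h_{2j+1}|) ≥ 0` (HHB (4)). `S1 ≥ 0` termwise:
claim `p N_n(a,b) + q N_n(b,a) ≤ n c0 h_n`, `n = 2(j+1)`. Since `N_n(a,b) + N_n(b,a) = n h_n` and both are
`≥ -(n/4) h_n` (HHB (5)), both are `≤ (5/4) n h_n`. If both are `≥ 0`: `≤ max(p,q) n h_n`. If `N_n(b,a) < 0`: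
`≤ p N_n(a,b) ≤ (4/5) c0 (5/4) n h_n`. Symmetric in the other case.
CASE `ab ≥ 0`. By HHB (2) `N_n ≥ 0`, so `p N_n(a,b) + q N_n(b,a) ≤ max(p,q) n h_n`; let `P = max(p,q) ≤ (4/5)c0`. So
`S1 ≥ (c0 - P) ∑ w_{j+1} h_{2j+2} ≥ (P/4) ∑ w_{j+1} h_{2j+2}`. And `(p+q) h_{2j} - 2c h_{2j+1} ≥ -(p+q)(|h_{2j+1}| - h_{2j})`,
by HHB (3) `w_j(|h_{2j+1}| - h_{2j}) ≤ w_j[(j+1)/(2j+1) - 1] h_{2j} + w_j ((j+1)/(2j+3)) h_{2j+2}
= -w_j (j/(2j+1)) h_{2j} + (w_{j+1}/2) h_{2j+2}` (`w_{j+1}(2j+3) = w_j(2j+2)`). With `e_j = w_j h_{2j} ≥ 0`: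
`S2 ≥ -((p+q)/(2(k+1))) ∑_{j<k} (k-j)[e_{j+1}/2 - (j/(2j+1)) e_j] = -((p+q)/(2(k+1))) ∑_{i=1}^k e_i r_i`,
`r_i = (k-i+1)/2 - (k-i) i/(2i+1)` (shift the first sum; the term `j = 0` of the second is `0`, and `i = k` gives `0`).
`r_i = (k+i+1)/(2(2i+1))`, and `(p+q)/2 ≤ P`. So `T1 ≥ P ∑_{i=1}^k e_i [1/4 - (k+i+1)/(2(k+1)(2i+1))]`, and
`2(k+i+1) ≤ (k+1)(2i+1)` for `i, k ≥ 1` (it says `k + 1 ≤ 2ik`). -/
def SpecPOS : Prop :=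
  ∀ (k : ℕ) (c0 a b p q c : ℝ), 0 < c0 → |a| ≤ 1 → |b| ≤ 1 → 0 ≤ p → 0 ≤ q →
    p ≤ 4 / 5 * c0 → q ≤ 4 / 5 * c0 → c ^ 2 ≤ p * q → 0 ≤ TT k c0 a b p q c

/-- **TWO** (200 lines, from ABR, NSZ, SWP, ALG, POS). The double integral is nonnegative.
PROOF. `QB ≥ 0` on unit vectors gives `A, C ≥ 0`, `B² ≤ AC` (`θ = 0`, `π/2`, discriminant), hence
`QB(θ,φ)² ≤ QB(θ,θ) QB(φ,φ)` (Cauchy-Schwarz: the difference is `(AC - B²) sin²(θ-φ)`), so `c² ≤ pq`, `p, q ≤ (4/5) c0`.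
For fixed `t`: `∫_α (c0 - p) g(a)/sin² = ∫_α X/sin²` where `X = (c0-p) g(a) - NS` for
`fG = G, fA = 2α, fB = 2β, fC = 2γ` (NSZ). `|X| ≤ L sin² α` and `X` continuous in `(t,α)`. By SWP with
`Y(t,α) = XX k c0 (a(t,α)) (b(t,α)) (p(t)) (q(t,α)) (c(t,α))` and ABR ((4), periodicity, `pq (θ+π) φ = -pq θ φ`):
`a(t+α,π-α) = -b(t,α)`, `b(t+α,π-α) = -a(t+π,α)= -a(t,α)`, `p → q`, `q → p`, `c → -c`; with `parX`:
`Y(t+α,π-α) = X(b,a,q,p,c)`. So twice the double integral is `∫∫ (X + X^swap)/sin² = 2 ∫∫ TT/sin² ≥ 0`. -/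
def SpecTWO : Prop :=
  ∀ (h h1 h2 : ℝ → ℝ), Sm h h1 h2 → ∀ (A B C c0 : ℝ), Adm A B C c0 h → ∀ k : ℕ,
    0 ≤ ∫ t in (0 : ℝ)..(2 * π), (∫ α in (0 : ℝ)..π,
      (c0 - pq A B C h t t) * gN k (aa h h1 t α) / sin α ^ 2)

/-! ## III. From the double integral to bodies -/

/-- **IGE** (150 lines, from `CW` HPB, WMB, GAG, GAL). The formula for `IG` in the smooth symmetric case, `G` even.
`h = hp M c`, `h1 = hp M (dk c)`; `gh h = 0`, `Bh h = h`, and `cos α + sin² α Ps/Bh = aa h h1 t α` (WMB). GAL at `t` and at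
`t + π` (`τ ↦ -τ` in the integral, `G` even; `h`, `h1`, hence `aa`, are `π`-periodic); `G1(-1) = -G1(1)` and
`h1(t+π) = h1(t)` kill the boundary terms; `∫_0^π G1(cos α) cos α dα = ∫_0^π (G2(1) - G2(cos α))/sin² α dα` (integrate
`d/dα [cot α (G2(1) - G2(cos α))]`, continuous on `[0,π]` with value 0 at the ends because
`|G2(1) - G2(cos α)| ≤ C (1 - cos² α)`: `G2` even and C¹). Integrability: `|G2(1) - G2(a)| ≤ C (1-a²) ≤ C' sin² α`. -/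
def SpecIGE : Prop :=
  ∀ (M : ℕ) (c : ℕ → ℂ), RP M c → (∀ θ, hp M c (θ + π) = hp M c θ) →
    Sm (hp M c) (hp M (dk c)) (hp M (dk (dk c))) ∧
    ∀ (G G1 G2 : ℝ → ℝ), Continuous G → (∀ x, HasDerivAt G1 (G x) x) →
      (∀ x, HasDerivAt G2 (G1 x) x) → (∀ x, G (-x) = G x) → (∀ x, G1 (-x) = - G1 x) →
      (∀ x, G2 (-x) = G2 x) → ∀ t,
      IG G (hp M c) t = 2 * hp M c t ^ 2 *
        ∫ α in (0 : ℝ)..π, (G2 1 - G2 (aa (hp M c) (hp M (dk c)) t α)) / sin α ^ 2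

/-- **CQM** (100 lines, from IGE, TWO). Smooth case, power `2k`. IGE with `G = x^{2k} - μ`,
`G1 = x^{2k+1}/(2k+1) - μx`, `G2 = x^{2k+2}/((2k+1)(2k+2)) - μx²/2`, `μ = mu k`: as `1/((2k+1)(k+1)) = μ w_k`,
`G2(1) - G2(a) = -(μ/4) g(a)`, so `wt · IG = -(μ/2)(c0 - p) ∫ g(a)/sin² α dα`; TWO. -/
def SpecCQM : Prop :=
  ∀ (M : ℕ) (c : ℕ → ℂ), RP M c → (∀ θ, hp M c (θ + π) = hp M c θ) →
    ∀ (A B C c0 : ℝ), Adm A B C c0 (hp M c) → ∀ k : ℕ,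
    ∫ t in (0 : ℝ)..(2 * π), wt A B C c0 (hp M c) t *
      IG (fun x => x ^ (2 * k) - mu k) (hp M c) t ≤ 0

/-- **CQL** (250 lines, from CQM, `CW` GAP, GCV, GAG, HPB; copy of `CW` LIM / GLM). General support functions.
PROOF. GAP (with `b = (max h + min h)/2`, `δ = (max h - min h)/(max h + min h) < 1`, `σ = 0`: `gh h = 0`) for
`ε = 1/(n+1)`: `h_n = hp M_n c_n → h` uniformly, `|gh h_n| ≤ 0`, so `h_n(t+π) = h_n(t)`. GCV: `UB h_n t τ → UB h t τ`;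
GAG: `|UB h_n| ≤ C`; so `IG G h_n t → IG G h t` boundedly (dominated convergence on `(-1,1)`). Admissibility: `c0` is
replaced by `c_n = c0 (1 + ε_n)`, `ε_n → 0` with `h² ≤ (1+ε_n) h_n²`. `wt A B C c_n h_n t → wt A B C c0 h t` uniformly; dominated
convergence in `t`. -/
def SpecCQL : Prop :=
  ∀ (h : ℝ → ℝ) (Λ : ℝ), 0 ≤ Λ → (∀ θ θ', |h θ - h θ'| ≤ Λ * |θ - θ'|) →
    (∀ θ, h (θ + π) = h θ) → (∀ θ, 0 < h θ) →
    (∀ φ α, 2 * cos α * h φ ≤ h (φ + α) + h (φ - α)) →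
    ∀ (A B C c0 : ℝ), Adm A B C c0 h → ∀ k : ℕ,
    IntervalIntegrable (fun t => wt A B C c0 h t * IG (fun x => x ^ (2 * k) - mu k) h t)
      volume 0 (2 * π) ∧
    ∫ t in (0 : ℝ)..(2 * π), wt A B C c0 h t * IG (fun x => x ^ (2 * k) - mu k) h t ≤ 0

/-- **WAL** (80 lines). `μ_k = (2/π) ∫_{-1}^1 x^{2k} √(1-x²) dx`. Substitute `x = cos α`
(or `integral_sin_pow`, `integral_cos_pow`): `∫_0^π cos^{2k} sin² = W_{2k} - W_{2k+2}`, `W_{2k} = ∫_0^π cos^{2k} =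
π ∏_{i<k} (2i+1)/(2i+2)`; `w_k = ∏ (2i+2)/(2i+3)`, so `W_{2k} = π/((2k+1) w_k)`. -/
def SpecWAL : Prop :=
  ∀ k : ℕ, 0 < mu k ∧ mu k = 2 / π * ∫ x in (-1 : ℝ)..1, x ^ (2 * k) * √(1 - x ^ 2)

/-- **SEM** (200 lines, from WAL). Approximation of `1 - √(1-y)` by polynomials with nonnegative coefficients.
PROOF. `P_0 = 0`, `P_{n+1} = (y + P_n²)/2` (as `Polynomial ℝ`: coefficients `≥ 0`, constant term `0`). `u = 1 - √(1-y)`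
satisfies `u = (y+u²)/2`, `0 ≤ u ≤ 1`; `e_n = u - P_n(y)` satisfies `0 ≤ e_n` and
`e_{n+1} = e_n (u + P_n)/2 = e_n (2u - e_n)/2 ≤ e_n (1 - e_n/2)`, so `e_n ≤ 2/(n+2)` (induction; `x(1-x/2)` is
increasing on `[0,1]`). Second claim: by WAL `∑ c_k μ_k = (2/π) ∫ P_n(x²) √(1-x²) dx`, which differs from
`(2/π) ∫ (1 - √(1-x²)) √(1-x²) dx = (2/π)(π/2 - 4/3) = 1 - κ` by at most `(2/π) ∫ ε √(1-x²) = ε`. -/
def SpecSEM : Prop :=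
  ∀ ε : ℝ, 0 < ε → ∃ (N : ℕ) (c : ℕ → ℝ), (∀ k, 0 ≤ c k) ∧
    (∀ y ∈ Icc (0 : ℝ) 1, |(1 - √(1 - y)) - ∑ k ∈ Finset.range N, c k * y ^ (k + 1)| ≤ ε) ∧
    |(∑ k ∈ Finset.range N, c k * mu (k + 1)) - (1 - kap)| ≤ ε

/-- **SQF** (200 lines, from CQL, SEM, `CW` GDU, WB2). The planar theorem for sets.
PROOF. `h = sup2 Q = wid/2` (symmetry: `sup2 Q (θ+π) = sup2 Q θ`, `mid = 0`). CQL applies (WB2: Lipschitz; class inequality: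
for `p ∈ Q` with `dotu φ p = h φ`: `h(φ+α) + h(φ-α) ≥ dotu (φ+α) p + dotu (φ-α) p = 2 cos α h(φ)`). GDU:
`IG (x^{2k} - μ_k) h t = ∫_Q (dotu t/h)^{2k} - μ_k area`. Let `ε > 0`, `N, c` from SEM, `s = dotu t p/h(t) ∈ [-1,1]`:
`qf Q t - κ area = ∫_Q (√(1-s²) - 1) + (1-κ) area ≥ -∑ c_k ∫_Q (s^{2k+2} - μ_{k+1}) - 2ε area`. Multiply by the weight
`wt ≥ 0` (`≤ C`) and integrate: `≥ -2ε area ∫ wt`. Let `ε → 0`. Measurability of `t ↦ qf Q t`: continuous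
(or by GDU/GCV as a limit). -/
def SpecSQF : Prop :=
  ∀ Q : Set (ℝ × ℝ), CC Q → (∀ p ∈ Q, -p ∈ Q) → (∀ θ, 0 < wid Q θ) →
    ∀ (A B C c0 : ℝ), Adm A B C c0 (fun θ => wid Q θ / 2) →
    0 ≤ ∫ t in (0 : ℝ)..(2 * π), wt A B C c0 (fun θ => wid Q θ / 2) t * (qf Q t - kap * area Q)

/-- **PWI** (100 lines). The pointwise inequality for the weight `w = 1.2/x² - 0.2/x⁴`,
`τ = 32/(3π²) - 1 ≤ 0.0809`. `1 - w = (1-z)(1-z/5)`, `z = 1/x²`. The claim is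
`τ x (1-w)² ≤ (1-x)²/4`, i.e. (divide by `(1-x)²`) `4τ (x+1)² (x²-1/5)² ≤ x⁷`. For `x ≥ 9128/20000`:
`0.3236 (x+1)² (x² - 0.2)² ≤ x⁷` (numerically the quotient of both sides is at most `0.967`, attained near
`x = 0.78`); prove it on `[0.4564, 0.6]`, `[0.6, 0.7]`, .. `[1, ∞)` (for `x ≥ 1`: `(x+1)² (x²-1/5)² ≤ 2.56 x⁷`). -/
def SpecPWI : Prop :=
  ∀ x : ℝ, 4564 / 10000 ≤ x →
    x * (1 + (32 / (3 * π ^ 2) - 1) * (1 - (6 / 5 / x ^ 2 - 1 / 5 / x ^ 4)) ^ 2) ≤ ((1 + x) / 2) ^ 2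

end Pool.Agent.Lib.MP_084b88_gt.SY
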