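import Pool.Agent.Lib.MP_084b88_gt.SY.Spec

/-!
# MP_084b88_gt, project SY: module CQM (smooth case, power `2k`)
-/

set_option autoImplicit false

open MeasureTheory Set Real Filter Topology
open scoped Pointwise InnerProductSpace

namespace Pool.Agent.Lib.MP_084b88_gt.SY

open Pool.Agent.Lib.MP_084b88_gt.CW

namespace CQMM

theorem ww_pos (j : ℕ) : 0 < ww j := by
  unfold ww
  exact Finset.prod_pos fun i _ => by positivity

theorem mu_pos (k : ℕ) : 0 < mu k := by
  have := ww_pos k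
  unfold mu
  positivity

theorem mu_ww (k : ℕ) : mu k * ww k * (((k : ℝ) + 1) * (2 * (k : ℝ) + 1)) = 1 := by
  have h1 := (ww_pos k).ne'
  have h2 : ((k : ℝ) + 1) ≠ 0 := by positivity
  have h3 : (2 * (k : ℝ) + 1) ≠ 0 := by positivity
  unfold mu
  field_simp

/-- First antiderivative of `x^{2k} - μ`. -/
noncomputable def g1 (k : ℕ) (x : ℝ) : ℝ := x ^ (2 * k + 1) / (2 * (k : ℝ) + 1) - mu k * x

/-- Second antiderivative. -/
noncomputable def g2 (k : ℕ) (x : ℝ) : ℝ :=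
  x ^ (2 * k + 2) / ((2 * (k : ℝ) + 1) * (2 * (k : ℝ) + 2)) - mu k * x ^ 2 / 2

theorem d1 (k : ℕ) (x : ℝ) : HasDerivAt (g1 k) (x ^ (2 * k) - mu k) x := by
  have h3 : (2 * (k : ℝ) + 1) ≠ 0 := by positivity
  have h := ((hasDerivAt_pow (2 * k + 1) x).div_const (2 * (k : ℝ) + 1)).sub
    ((hasDerivAt_id x).const_mul (mu k))
  refine h.congr_deriv ?_
  have e : 2 * k + 1 - 1 = 2 * k := by omega
  rw [e]
  push_cast
  field_simp

theorem d2 (k : ℕ) (x : ℝ) : HasDerivAt (g2 k) (g1 k x) x := by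
  have h2 : (2 * (k : ℝ) + 2) ≠ 0 := by positivity
  have h3 : (2 * (k : ℝ) + 1) ≠ 0 := by positivity
  have h := ((hasDerivAt_pow (2 * k + 2) x).div_const ((2 * (k : ℝ) + 1) * (2 * (k : ℝ) + 2))).sub
    (((hasDerivAt_pow 2 x).const_mul (mu k)).div_const 2)
  refine h.congr_deriv ?_
  have e : 2 * k + 2 - 1 = 2 * k + 1 := by omega
  rw [e]
  unfold g1
  push_cast
  field_simp

theorem g2_sub (k : ℕ) (x : ℝ) : g2 k 1 - g2 k x = -(mu k / 4) * gN k x := by
  have h2 : (2 * (k : ℝ) + 2) ≠ 0 := by positivity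
  have h3 : (2 * (k : ℝ) + 1) ≠ 0 := by positivity
  have e : 1 / ((2 * (k : ℝ) + 1) * (2 * (k : ℝ) + 2)) = mu k * ww k / 2 := by
    have h := mu_ww k
    rw [div_eq_iff (by positivity)]
    linear_combination (-1 : ℝ) * h
  unfold g2 gN
  rw [one_pow, one_pow]
  have e2 : x ^ (2 * k + 2) / ((2 * (k : ℝ) + 1) * (2 * (k : ℝ) + 2)) =
      x ^ (2 * k + 2) * (1 / ((2 * (k : ℝ) + 1) * (2 * (k : ℝ) + 2))) := by ring
  rw [e2, e]
  ring

end CQMM

open CQMM in
/-- **CQM**. -/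
theorem specCQM (hIGE : SpecIGE) (hTWO : SpecTWO) : SpecCQM := by
  intro M c hRP hper A B C c0 hAdm k
  obtain ⟨hSm, hI⟩ := hIGE M c hRP hper
  have hT := hTWO _ _ _ hSm A B C c0 hAdm k
  have hIG : ∀ t, IG (fun x => x ^ (2 * k) - mu k) (hp M c) t = 2 * hp M c t ^ 2 *
      ∫ α in (0 : ℝ)..π, (g2 k 1 - g2 k (aa (hp M c) (hp M (dk c)) t α)) / sin α ^ 2 := by
    refine hI _ (g1 k) (g2 k) (by fun_prop) (fun x => d1 k x) (fun x => d2 k x) ?_ ?_ ?_
    · intro x
      rw [Even.neg_pow (by exact even_two_mul k)]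
    · intro x
      unfold g1
      rw [Odd.neg_pow (by exact odd_two_mul_add_one k)]
      ring
    · intro x
      unfold g2
      have e : Even (2 * k + 2) := ⟨k + 1, by ring⟩
      rw [e.neg_pow, neg_sq]
  have hint : ∀ t, wt A B C c0 (hp M c) t * IG (fun x => x ^ (2 * k) - mu k) (hp M c) t =
      -(mu k / 2) * ∫ α in (0 : ℝ)..π, (c0 - pq A B C (hp M c) t t) *
        gN k (aa (hp M c) (hp M (dk c)) t α) / sin α ^ 2 := by
    intro t
    have hpos := (hSm.pos t).ne'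
    rw [hIG t]
    have e1 : ∀ α : ℝ, (g2 k 1 - g2 k (aa (hp M c) (hp M (dk c)) t α)) / sin α ^ 2 =
        -(mu k / 4) * (gN k (aa (hp M c) (hp M (dk c)) t α) / sin α ^ 2) := by
      intro α
      rw [g2_sub]
      ring
    have e2 : ∀ α : ℝ, (c0 - pq A B C (hp M c) t t) *
        gN k (aa (hp M c) (hp M (dk c)) t α) / sin α ^ 2 =
        (c0 - pq A B C (hp M c) t t) * (gN k (aa (hp M c) (hp M (dk c)) t α) / sin α ^ 2) := by
      intro α
      ring
    simp only [e1, e2]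
    rw [intervalIntegral.integral_const_mul, intervalIntegral.integral_const_mul]
    unfold wt pq
    field_simp
    ring
  simp only [hint]
  rw [intervalIntegral.integral_const_mul]
  have := mu_pos k
  nlinarith

end Pool.Agent.Lib.MP_084b88_gt.SY
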