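import Pool.Agent.Lib.MP_084b88_gt.CW.Defs2

/-!
# MP_084b88_gt (Chakerian), project SY (centrally symmetric bodies): definitions

Planar part: the weighted inequality (CQ) for centrally symmetric planar bodies.
-/

set_option autoImplicit false

open MeasureTheory Set Real
open scoped Pointwise InnerProductSpace

namespace Pool.Agent.Lib.MP_084b88_gt.SY

open Pool.Agent.Lib.MP_084b88_gt.CW

/-- Smooth positive support functions of centrally symmetric planar bodies: `h1 = h'`, `h2 = h''`. -/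
structure Sm (h h1 h2 : ℝ → ℝ) : Prop where
  d1 : ∀ x, HasDerivAt h (h1 x) x
  d2 : ∀ x, HasDerivAt h1 (h2 x) x
  c2 : Continuous h2
  per : ∀ x, h (x + π) = h x
  per1 : ∀ x, h1 (x + π) = h1 x
  pos : ∀ x, 0 < h x
  rad : ∀ x, 0 < h x + h2 x

/-- `a = <y_s, u_t>/h(t)`, `s = t + α`, `y_s` the boundary point with normal `u_s`. -/
noncomputable def aa (h h1 : ℝ → ℝ) (t α : ℝ) : ℝ :=
  (h (t + α) * cos α - h1 (t + α) * sin α) / h t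

/-- `b = <y_t, u_s>/h(s)`, `s = t + α`. -/
noncomputable def bb (h h1 : ℝ → ℝ) (t α : ℝ) : ℝ :=
  (h t * cos α + h1 t * sin α) / h (t + α)

/-- The bilinear form with the matrix `(A, B; B, C)` at the unit vectors `u_θ`, `u_φ`. -/
noncomputable def QB (A B C θ φ : ℝ) : ℝ :=
  A * (cos θ * cos φ) + B * (cos θ * sin φ + sin θ * cos φ) + C * (sin θ * sin φ)

/-- The same at the points `u_θ/h(θ)`, `u_φ/h(φ)`. -/
noncomputable def pq (A B C : ℝ) (h : ℝ → ℝ) (θ φ : ℝ) : ℝ := QB A B C θ φ / (h θ * h φ)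

/-! ### Numbers and polynomials -/

/-- `w_j = ∏_{i=1}^j 2i/(2i+1)`. -/
noncomputable def ww (j : ℕ) : ℝ := ∏ i ∈ Finset.range j, (2 * ((i : ℝ) + 1)) / (2 * (i : ℝ) + 3)

/-- `μ_k` = mean of `x_1^{2k}` over the unit disc. -/
noncomputable def mu (k : ℕ) : ℝ := 1 / (((k : ℝ) + 1) * (2 * (k : ℝ) + 1) * ww k)

/-- `g(x) = 2(1-x²) - 2 w_k (1 - x^{2k+2})`. -/
noncomputable def gN (k : ℕ) (x : ℝ) : ℝ := 2 * (1 - x ^ 2) - 2 * ww k * (1 - x ^ (2 * k + 2))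

/-- `G(x) = ∑_{j=1}^k (w_j/j)(x - x^{2j+1})`. -/
noncomputable def GN (k : ℕ) (x : ℝ) : ℝ :=
  ∑ j ∈ Finset.range k, ww (j + 1) / ((j : ℝ) + 1) * (x - x ^ (2 * j + 3))

/-- `G'`. -/
noncomputable def dG (k : ℕ) (x : ℝ) : ℝ :=
  ∑ j ∈ Finset.range k, ww (j + 1) / ((j : ℝ) + 1) * (1 - (2 * (j : ℝ) + 3) * x ^ (2 * j + 2))

/-- `β(x) = ∑_{j<k} ((k-j)/(k+1)) w_j (x^{2j+2} - 1)/(2j+2)`. -/
noncomputable def BN (k : ℕ) (x : ℝ) : ℝ :=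
  ∑ j ∈ Finset.range k, ((k : ℝ) - j) / ((k : ℝ) + 1) * ww j * ((x ^ (2 * j + 2) - 1) / (2 * (j : ℝ) + 2))

/-- `β'`. -/
noncomputable def dB (k : ℕ) (x : ℝ) : ℝ :=
  ∑ j ∈ Finset.range k, ((k : ℝ) - j) / ((k : ℝ) + 1) * ww j * x ^ (2 * j + 1)

/-- `β''`. -/
noncomputable def ddB (k : ℕ) (x : ℝ) : ℝ :=
  ∑ j ∈ Finset.range k, ((k : ℝ) - j) / ((k : ℝ) + 1) * ww j * ((2 * (j : ℝ) + 1) * x ^ (2 * j))

/-- `α(x) = -(1-x²) β'(x)/2`. -/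
noncomputable def AN (k : ℕ) (x : ℝ) : ℝ := -((1 - x ^ 2) * dB k x) / 2
/-- `α'`. -/
noncomputable def dA (k : ℕ) (x : ℝ) : ℝ := x * dB k x - (1 - x ^ 2) * ddB k x / 2

/-- `γ(x) = ((1-x²) β' - 2xβ - G)/2`. -/
noncomputable def CN (k : ℕ) (x : ℝ) : ℝ := ((1 - x ^ 2) * dB k x - 2 * x * BN k x - GN k x) / 2
/-- `γ'`. -/
noncomputable def dC (k : ℕ) (x : ℝ) : ℝ :=
  ((1 - x ^ 2) * ddB k x - 4 * x * dB k x - 2 * BN k x - dG k x) / 2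

/-- The null form of `f = c0 G(b) + q α(b) + c β(b) + p γ(b)`:
`a f + (1-ab) f_b + (p - a c) f_c + 2 (c - a q) f_q`. -/
noncomputable def NS (fG gG fA gA fB gB fC gC : ℝ → ℝ) (c0 a b p q c : ℝ) : ℝ :=
  c0 * ((1 - a * b) * gG b + a * fG b) + q * ((1 - a * b) * gA b - a * fA b) +
    c * ((1 - a * b) * gB b + 2 * fA b) + p * ((1 - a * b) * gC b + fB b + a * fC b)

/-- The integrand after subtraction of null forms. -/
noncomputable def XX (k : ℕ) (c0 a b p q c : ℝ) : ℝ :=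
  (c0 - p) * gN k a - c0 * ((1 - a * b) * dG k b + a * GN k b) -
    2 * (q * ((1 - a * b) * dA k b - a * AN k b) + c * ((1 - a * b) * dB k b + 2 * AN k b) +
      p * ((1 - a * b) * dC k b + BN k b + a * CN k b))

/-- `h_n(a,b) = ∑_{i ≤ n} a^i b^{n-i}`. -/
noncomputable def hh (n : ℕ) (a b : ℝ) : ℝ := ∑ i ∈ Finset.range (n + 1), a ^ i * b ^ (n - i)

/-- `N_n(a,b) = ∑_{i ≤ n} i a^i b^{n-i}`. -/
noncomputable def NN (n : ℕ) (a b : ℝ) : ℝ :=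
  ∑ i ∈ Finset.range (n + 1), (i : ℝ) * (a ^ i * b ^ (n - i))

/-- The second factor of the two point kernel. -/
noncomputable def T1 (k : ℕ) (c0 a b p q c : ℝ) : ℝ :=
  (∑ j ∈ Finset.range k, ww (j + 1) * (c0 * hh (2 * j + 2) a b -
      (p * NN (2 * j + 2) a b + q * NN (2 * j + 2) b a) / (2 * ((j : ℝ) + 1)))) +
  ∑ j ∈ Finset.range k, ((k : ℝ) - j) / (2 * ((k : ℝ) + 1)) * ww j *
      ((p + q) * hh (2 * j) a b - 2 * c * hh (2 * j + 1) a b)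

/-- The two point kernel. -/
noncomputable def TT (k : ℕ) (c0 a b p q c : ℝ) : ℝ := (a - b) ^ 2 * T1 k c0 a b p q c

/-- The admissible weights: `0 ≤ Q(u_θ) ≤ (4/5) c0 h(θ)²`. -/
def Adm (A B C c0 : ℝ) (h : ℝ → ℝ) : Prop :=
  0 < c0 ∧ ∀ θ, 0 ≤ QB A B C θ θ ∧ QB A B C θ θ ≤ 4 / 5 * c0 * h θ ^ 2

/-- The weight `(c0 - Q(u_θ)/h²)/h²`. -/
noncomputable def wt (A B C c0 : ℝ) (h : ℝ → ℝ) (θ : ℝ) : ℝ :=
  (c0 - QB A B C θ θ / h θ ^ 2) / h θ ^ 2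

end Pool.Agent.Lib.MP_084b88_gt.SY
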